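import Mathlib
import Pool.Agent.TH876.KR.Def

set_option autoImplicit false

/-!
# Points of `a + b + c = 0` over a number field one side of which is a perfect power: definitions and
statements of the parts
-/

namespace Pool.Agent.TH876.NP

open NumberField IsDedekindDomain Finset Pool.Agent.H691R3 Pool.Agent.TH876.Loc
open Pool.Agent.TH876.KR (side rr aw Sc Near qt)

/-- the orders of `r` at the primes outside `S` are divisible by `m` -/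
def PowOut {K : Type} [Field K] [NumberField K] (m : ℕ) (S : Finset (Pr K)) (r : K) : Prop :=
  ∀ v : Pr K, v ∉ S → ∃ a : ℤ, fv v r = Nv v ^ ((m : ℤ) * a)

/-- the number of classes modulo `m`-th powers -/
def ClassesS (K : Type) [Field K] [NumberField K] : Prop :=
  ∀ m : ℕ, 2 ≤ m → ∃ C : ℕ, 1 ≤ C ∧ ∀ (S : Finset (Pr K)) (F : Finset K),
  (∀ r ∈ F, r ≠ 0 ∧ PowOut m S r) → ∃ f : K → ℕ, (∀ r ∈ F, f r < C ^ (S.card + 1)) ∧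
  ∀ r ∈ F, ∀ r' ∈ F, f r = f r' → ∃ g : K, g ≠ 0 ∧ r = r' * g ^ m

/-- the classes of the elements whose `m`-th powers are close to one -/
def RootsS (K : Type) [Field K] [NumberField K] : Prop :=
  ∀ m : ℕ, 2 ≤ m → ∃ C : ℕ, 1 ≤ C ∧ ∀ (T : Finset (Pr K)) (F : Finset K),
  (∀ t ∈ F, t ≠ 0 ∧ ∀ v ∈ T, fv v (t ^ m - 1) < 1) →
  ∃ f : K → ℕ, (∀ t ∈ F, f t < C ^ (T.card + 1)) ∧ ∀ t ∈ F, ∀ t' ∈ F, f t = f t' →
    (∀ v ∈ T, fv v (t / t' - 1) * fv v ((m : ℕ) : K) ≤ fv v ((t / t') ^ m - 1)) ∧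
    ∀ w : InfinitePlace K, w (t / t' - 1) ≤ w ((t / t') ^ m - 1)

/-- the gap principle -/
def GapS (K : Type) [Field K] [NumberField K] : Prop :=
  ∀ m : ℕ, 2 ≤ m → ∃ c : ℝ, 0 ≤ c ∧ ∀ (A B C : Fin 3), A ≠ B → B ≠ C → A ≠ C →
  ∀ (x y g : K) (S T Z : Finset (Pr K)) (η : ℝ), Pt x → Pt y → x ≠ y → g ≠ 0 →
  qt C B x = qt C B y * g ^ m → side B x = S → side B y = S → T ⊆ side A x → T ⊆ side A y →
  (Z = ∅ ∨ (Z = side C x ∧ Z = side C y)) → 0 ≤ η →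
  Near S η x y → Near T η x y → Near Z η x y →
  (∀ v ∈ T, fv v (g - 1) * fv v ((m : ℕ) : K) ≤ fv v (g ^ m - 1)) →
  (∀ w : InfinitePlace K, w (g - 1) ≤ w (g ^ m - 1)) →
  ∀ q : ℝ, 0 ≤ q → (Z = ∅ → hgt y / m ≤ q) →
  ∑ v ∈ T, df (Sum.inr v : Pl K) A x + aw A x ≤
    q + c * (1 + ((S.card : ℝ) + T.card + Z.card + 1) * η)

/-- a part of a side with few primes -/
def ChooseS (K : Type) [Field K] [NumberField K] : Prop :=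
  ∀ (A : Fin 3) (x : K) (θ y : ℝ), Pt x → 0 ≤ θ → θ ≤ 1 → 1 ≤ y → (∀ v ∈ side A x, Nv v ≤ y) →
  ∃ T ⊆ side A x, θ * hgt x ≤ ∑ v ∈ T, df (Sum.inr v : Pl K) A x + aw A x ∧
    ∑ v ∈ T, Real.log (Nv v) ≤ θ * rr A x + Real.log y

/-- the side `C` of `x` is an `m`-th power outside `S0`, and the primes of `T` are of the side `A`
and have (with the places at infinity) weight at least `1/m + 1/k` (`Z` empty) or `1/k` (`Z` the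
primes of the side `C`) -/
structure Good {K : Type} [Field K] [NumberField K] (m k : ℕ) (S0 : Finset (Pr K)) (A B C : Fin 3)
    (T Z : Finset (Pr K)) (x : K) : Prop where
  pt : Pt x
  pow : ∀ v : Pr K, v ∉ S0 → ∃ a : ℕ, df (Sum.inr v : Pl K) C x = ((m * a : ℕ) : ℝ) * Real.log (Nv v)
  sub : T ⊆ side A x
  wt : (Z = ∅ ∧ (1 / (m : ℝ) + 1 / k) * hgt x ≤ ∑ v ∈ T, df (Sum.inr v : Pl K) A x + aw A x) ∨
    (Z = side C x ∧ 1 / (k : ℝ) * hgt x ≤ ∑ v ∈ T, df (Sum.inr v : Pl K) A x + aw A x)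

/-- the count at one scale with given sets of primes -/
def ScaleS (K : Type) [Field K] [NumberField K] : Prop :=
  ∀ (m k : ℕ) (S0 : Finset (Pr K)), 2 ≤ m → 1 ≤ k → ∃ (q C : ℕ) (l0 : ℝ), 1 ≤ q ∧ 1 ≤ C ∧ 1 ≤ l0 ∧
  ∀ A B C' : Fin 3, A ≠ B → B ≠ C' → A ≠ C' → ∀ l : ℝ, l0 ≤ l →
  ∀ (S T Z : Finset (Pr K)) (F : Finset K),
  (∀ x ∈ F, Good m k S0 A B C' T Z x ∧ side B x = S ∧ Sc q l x) →
  (F.card : ℝ) ≤ (C : ℝ) ^ (S.card + T.card + Z.card + 1)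

/-- the count with the cost `R` -/
def CoreS (K : Type) [Field K] [NumberField K] : Prop :=
  ∀ (m k : ℕ) (S0 : Finset (Pr K)) (ε : ℝ), 2 ≤ m → 1 ≤ k → 0 < ε → ∃ C : ℝ, 0 < C ∧
  ∀ R H : ℝ, 1 ≤ R → 1 ≤ H → ∀ F : Finset K,
  (∀ x ∈ F, hgt x ≤ H ∧ ∃ A B C' : Fin 3, A ≠ B ∧ B ≠ C' ∧ A ≠ C' ∧ ∃ T Z : Finset (Pr K),
    Good m k S0 A B C' T Z x ∧ nn (side B x) * nn T * nn Z ≤ R) →
  (F.card : ℝ) ≤ C * R ^ (1 + ε) * (1 + Real.log H)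

/-- the side `C` of `x` is an `m`-th power outside `S0` -/
def PowSide {K : Type} [Field K] [NumberField K] (m : ℕ) (S0 : Finset (Pr K)) (C : Fin 3)
    (x : K) : Prop :=
  ∀ v : Pr K, v ∉ S0 → ∃ a : ℕ, df (Sum.inr v : Pl K) C x = ((m * a : ℕ) : ℝ) * Real.log (Nv v)

/-- the count of the points such that the radical of the other two sides is small -/
def TwoS (K : Type) [Field K] [NumberField K] : Prop :=
  ∀ (m : ℕ) (S0 : Finset (Pr K)) (ε : ℝ), 2 ≤ m → 0 < ε → ∃ C : ℝ, 0 < C ∧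
  ∀ X y H : ℝ, 1 ≤ X → 1 ≤ y → 1 ≤ H → ∀ F : Finset K,
  (∀ x ∈ F, Pt x ∧ hgt x ≤ H ∧ ∃ C' : Fin 3, PowSide m S0 C' x ∧
    ∀ T : Finset (Pr K), (∀ v ∈ T, v ∉ S0 ∧ v ∈ sp x ∧ v ∉ side C' x) →
      nn T ≤ X ∧ ∀ v ∈ T, Nv v ≤ y) →
  (F.card : ℝ) ≤ C * y * X ^ (((m : ℝ) + 1) / (2 * m) + ε) * (1 + Real.log H)

/-- the count of the points such that the radical of all three sides is small -/
def ThreeS (K : Type) [Field K] [NumberField K] : Prop :=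
  ∀ (m : ℕ) (S0 : Finset (Pr K)) (ε : ℝ), 2 ≤ m → 0 < ε → ∃ C : ℝ, 0 < C ∧
  ∀ X y H : ℝ, 1 ≤ X → 1 ≤ y → 1 ≤ H → ∀ F : Finset K,
  (∀ x ∈ F, Pt x ∧ hgt x ≤ H ∧ ∃ C' : Fin 3, PowSide m S0 C' x ∧
    ∀ T : Finset (Pr K), (∀ v ∈ T, v ∉ S0 ∧ v ∈ sp x) →
      nn T ≤ X ∧ ∀ v ∈ T, v ∉ side C' x → Nv v ≤ y) →
  (F.card : ℝ) ≤ C * y * X ^ (((m : ℝ) + 1) / (2 * m + 1) + ε) * (1 + Real.log H)

end Pool.Agent.TH876.NP
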