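import Mathlib
import Pool.Agent.TH876.NP.Def

set_option autoImplicit false

/-!
# A part of a side with few primes
-/

namespace Pool.Agent.TH876.NP

open NumberField IsDedekindDomain Finset Pool.Agent.H691R3 Pool.Agent.TH876.Loc
open Pool.Agent.TH876.KR (side rr aw Sc Near qt)

private theorem choose_aux {ι : Type*} (v c : ι → ℝ) (L : ℝ) (S : Finset ι) (hL : 0 ≤ L) :
    (∀ p ∈ S, 0 ≤ v p ∧ 0 ≤ c p ∧ c p ≤ L) → ∀ θ : ℝ, 0 ≤ θ → θ ≤ 1 →
      ∃ T ⊆ S, θ * ∑ p ∈ S, v p * c p ≤ ∑ p ∈ T, v p * c p ∧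
        ∑ p ∈ T, c p ≤ θ * ∑ p ∈ S, c p + L := by
  classical
  refine Finset.induction_on_min_value v S ?_ ?_
  · intro _ θ h0 h1
    exact ⟨∅, subset_rfl, by simp, by simpa using hL⟩
  · intro a S haS hmin ih hS θ h0 h1
    have hS' : ∀ p ∈ S, 0 ≤ v p ∧ 0 ≤ c p ∧ c p ≤ L := fun p hp => hS p (mem_insert_of_mem hp)
    obtain ⟨hva, hca, hcL⟩ := hS a (mem_insert_self _ _)
    rw [sum_insert haS, sum_insert haS]
    set A := ∑ p ∈ S, v p * c p with hA
    set C := ∑ p ∈ S, c p with hC
    have hC0 : 0 ≤ C := sum_nonneg fun p hp => (hS' p hp).2.1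
    have hA0 : 0 ≤ A := sum_nonneg fun p hp => mul_nonneg (hS' p hp).1 (hS' p hp).2.1
    have hvC : v a * C ≤ A := by
      rw [hC, hA, mul_sum]
      exact sum_le_sum fun p hp => mul_le_mul_of_nonneg_right (hmin p hp) (hS' p hp).2.1
    by_cases hcase : θ * (v a * c a + A) ≤ A
    · rcases hA0.eq_or_lt with hA1 | hA1
      · refine ⟨∅, empty_subset _, ?_, ?_⟩
        · rw [sum_empty]
          rw [← hA1] at hcase ⊢
          exact hcase
        · rw [sum_empty]
          exact add_nonneg (mul_nonneg h0 (add_nonneg hca hC0)) hL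
      · have h2 : 0 ≤ θ * (v a * c a + A) / A :=
          div_nonneg (mul_nonneg h0 (add_nonneg (mul_nonneg hva hca) hA0)) hA0
        have h3 : θ * (v a * c a + A) / A ≤ 1 := (div_le_one hA1).2 hcase
        obtain ⟨T, hT, h4, h5⟩ := ih hS' _ h2 h3
        refine ⟨T, hT.trans (subset_insert _ _), ?_, h5.trans ?_⟩
        · rwa [div_mul_cancel₀ _ hA1.ne'] at h4
        · have h6 : θ * (v a * c a + A) / A * C ≤ θ * (c a + C) := by
            rw [div_mul_eq_mul_div, div_le_iff₀ hA1]
            have h7 : c a * (v a * C) ≤ c a * A := mul_le_mul_of_nonneg_left hvC hca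
            have h8 : θ * (c a * (v a * C)) ≤ θ * (c a * A) := mul_le_mul_of_nonneg_left h7 h0
            nlinarith [h8]
          linarith
    · push Not at hcase
      refine ⟨insert a S, subset_rfl, ?_, ?_⟩
      · rw [sum_insert haS]
        exact mul_le_of_le_one_left (add_nonneg (mul_nonneg hva hca) hA0) h1
      · rw [sum_insert haS]
        have hv : 0 < v a := by
          rcases hva.eq_or_lt with h | h
          · exfalso
            rw [← h, zero_mul, zero_add] at hcase
            have := mul_le_of_le_one_left hA0 h1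
            linarith
          · exact h
        have h2 : (1 - θ) * (v a * c a + A) < v a * c a := by nlinarith
        have h3 : v a * ((1 - θ) * (c a + C)) ≤ (1 - θ) * (v a * c a + A) := by
          have h4 : (1 - θ) * (v a * C) ≤ (1 - θ) * A :=
            mul_le_mul_of_nonneg_left hvC (by linarith)
          nlinarith [h4]
        have h5 : (1 - θ) * (c a + C) < c a := by
          have h6 : v a * ((1 - θ) * (c a + C)) < v a * c a := lt_of_le_of_lt h3 h2
          exact lt_of_mul_lt_mul_left h6 hva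
        nlinarith

variable (K : Type) [Field K] [NumberField K]

theorem choose : ChooseS K := by
  intro A x θ y hx h0 h1 hy hv
  have hpos : ∀ v : Pr K, 0 < Real.log (Nv v) := KR.log_Nv_pos'
  obtain ⟨T, hT, h2, h3⟩ := choose_aux (fun v : Pr K => df (Sum.inr v : Pl K) A x / Real.log (Nv v))
    (fun v => Real.log (Nv v)) (Real.log y) (side A x) (Real.log_nonneg hy) (fun v hvs =>
      ⟨div_nonneg (df_nonneg _ A hx) (hpos v).le, (hpos v).le,
        Real.log_le_log (by linarith [two_le_Nv v]) (hv v hvs)⟩) θ h0 h1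
  have h4 : ∀ v : Pr K, df (Sum.inr v : Pl K) A x / Real.log (Nv v) * Real.log (Nv v) =
      df (Sum.inr v : Pl K) A x := fun v => div_mul_cancel₀ _ (hpos v).ne'
  simp only [h4] at h2
  refine ⟨T, hT, ?_, h3⟩
  have h5 := KR.side_sum hx A
  have h6 : 0 ≤ aw A x := sum_nonneg fun w _ => df_nonneg _ A hx
  rw [← h5, mul_add]
  have h7 : θ * aw A x ≤ aw A x := mul_le_of_le_one_left h6 h1
  linarith

end Pool.Agent.TH876.NP
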