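import Mathlib
import Pool.Agent.TH876.NP.Def
import Pool.Agent.TH876.KR.Gens
import Pool.Agent.TH876.KR.Cells

set_option autoImplicit false

/-!
# Classes of elements modulo `m`-th powers (job 4334, written by helper656)
-/

namespace Pool.Agent.TH876.NP

open NumberField IsDedekindDomain Finset Pool.Agent.H691R3 Pool.Agent.TH876.Loc
open Pool.Agent.TH876.KR (side rr aw Sc Near qt)

/-- the units modulo `m`-th powers -/
theorem Classes_units (K : Type) [Field K] [NumberField K] (m : ℕ) :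
    ∃ g : (𝓞 K)ˣ → (Units.torsion K) × (Fin (Units.rank K) → ZMod m),
      ∀ u u' : (𝓞 K)ˣ, g u = g u' → ∃ w : (𝓞 K)ˣ, u = u' * w ^ m := by
  choose p hp _ using Units.exist_unique_eq_mul_prod K
  refine ⟨fun u => ((p u).1, fun j => ((p u).2 j : ZMod m)), fun u u' h => ?_⟩
  have h1 : (p u).1 = (p u').1 := (Prod.ext_iff.1 h).1
  have h2 : ∀ j, ∃ k : ℤ, (p u).2 j = (p u').2 j + m * k := by
    intro j
    have h3 : (((p u).2 j : ℤ) : ZMod m) = (((p u').2 j : ℤ) : ZMod m) :=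
      congrFun (Prod.ext_iff.1 h).2 j
    have h4 := ((ZMod.intCast_eq_intCast_iff_dvd_sub _ _ _).1 h3.symm)
    obtain ⟨k, hk⟩ := h4
    exact ⟨k, by linarith⟩
  choose k hk using h2
  refine ⟨∏ j, (Units.fundSystem K j) ^ (k j), ?_⟩
  have e1 := hp u
  have e2 := hp u'
  simp only at e1 e2
  rw [e1, e2, h1, mul_assoc, ← Finset.prod_pow, ← Finset.prod_mul_distrib]
  congr 1
  refine Finset.prod_congr rfl fun j _ => ?_
  rw [hk j, zpow_add, zpow_mul, zpow_natCast, ← zpow_natCast (_ ^ (k j)), ← zpow_mul, mul_comm (k j),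
    zpow_mul, zpow_natCast]

variable {K : Type} [Field K] [NumberField K]

/-- the order of an integer at a prime -/
noncomputable def Classes_n (v : Pr K) (R : 𝓞 K) : ℕ := multiplicity v.asIdeal (Ideal.span {R})

theorem Classes_fv (v : Pr K) {R : 𝓞 K} (hR : R ≠ 0) :
    fv v (R : K) = (Nv v)⁻¹ ^ (Classes_n v R) := by
  apply Pool.Agent.TH876.KR.gens_fv_exp
  have e : v.valuation K ((R : 𝓞 K) : K) = v.intValuation R := v.valuation_of_algebraMap R
  rw [e, HeightOneSpectrum.intValuation_eq_exp_neg_multiplicity _ hR]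
  rfl

omit [NumberField K] in
theorem Classes_span {R : 𝓞 K} (hR : R ≠ 0) : Ideal.span {R} ≠ (⊥ : Ideal (𝓞 K)) := by
  rw [Ne, Ideal.span_singleton_eq_bot]
  exact hR

theorem Classes_fin {R : 𝓞 K} (hR : R ≠ 0) : {v : Pr K | Classes_n v R ≠ 0}.Finite := by
  refine (Ideal.finite_factors (I := Ideal.span {R}) (Classes_span hR)).subset ?_
  intro v hv
  by_contra h
  exact hv (multiplicity_eq_zero.2 h)

/-- the part with orders below `m` -/
noncomputable def Classes_J (m : ℕ) (R : 𝓞 K) : Ideal (𝓞 K) :=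
  ∏ᶠ v : Pr K, v.asIdeal ^ (Classes_n v R % m)

/-- the root of the rest -/
noncomputable def Classes_I (m : ℕ) (R : 𝓞 K) : Ideal (𝓞 K) :=
  ∏ᶠ v : Pr K, v.asIdeal ^ (Classes_n v R / m)

theorem Classes_eq (m : ℕ) {R : 𝓞 K} (hR : R ≠ 0) :
    Ideal.span {R} = Classes_J m R * Classes_I m R ^ m := by
  have h1 : ∏ᶠ v : Pr K, v.asIdeal ^ (Classes_n v R) = Ideal.span {R} :=
    Ideal.finprod_heightOneSpectrum_pow_multiplicity (Classes_span hR)
  have hf1 : (Function.mulSupport fun v : Pr K => v.asIdeal ^ (Classes_n v R % m)).Finite := by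
    refine (Classes_fin hR).subset ?_
    intro v hv h0
    apply hv
    simp [h0]
  have hf2 : (Function.mulSupport fun v : Pr K => v.asIdeal ^ (Classes_n v R / m)).Finite := by
    refine (Classes_fin hR).subset ?_
    intro v hv h0
    apply hv
    simp [h0]
  have hf3 : (Function.mulSupport fun v : Pr K => (v.asIdeal ^ (Classes_n v R / m)) ^ m).Finite := by
    refine hf2.subset ?_
    intro v hv h0
    apply hv
    simp only at h0 ⊢
    rw [h0, one_pow]
  unfold Classes_J Classes_I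
  rw [← h1, finprod_pow hf2, ← finprod_mul_distrib hf1 hf3]
  refine finprod_congr fun v => ?_
  rw [← pow_mul, ← pow_add, mul_comm, Nat.mod_add_div]

theorem Classes_I_ne {m : ℕ} (hm : m ≠ 0) {R : 𝓞 K} (hR : R ≠ 0) :
    Classes_I m R ∈ nonZeroDivisors (Ideal (𝓞 K)) := by
  apply mem_nonZeroDivisors_of_ne_zero
  intro h0
  have h1 := Classes_eq m hR
  rw [h0, zero_pow hm, mul_zero] at h1
  exact Classes_span hR h1

open Classical in
/-- the class -/
noncomputable def Classes_cl (m : ℕ) (R : 𝓞 K) : ClassGroup (𝓞 K) :=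
  if h : Classes_I m R ∈ nonZeroDivisors (Ideal (𝓞 K)) then ClassGroup.mk0 ⟨Classes_I m R, h⟩ else 1

theorem Classes_pair {m : ℕ} (hm : m ≠ 0) {R R' : 𝓞 K} (hR : R ≠ 0) (hR' : R' ≠ 0)
    (hn : ∀ v : Pr K, Classes_n v R % m = Classes_n v R' % m)
    (hc : Classes_cl m R = Classes_cl m R') :
    ∃ (u : (𝓞 K)ˣ) (x y : 𝓞 K), x ≠ 0 ∧ y ≠ 0 ∧ R * x ^ m = u * R' * y ^ m := by
  unfold Classes_cl at hc
  rw [dif_pos (Classes_I_ne hm hR), dif_pos (Classes_I_ne hm hR'), ClassGroup.mk0_eq_mk0_iff] at hc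
  obtain ⟨x, y, hx, hy, h⟩ := hc
  simp only at h
  have hJ : Classes_J m R = Classes_J m R' := by
    unfold Classes_J
    refine finprod_congr fun v => ?_
    rw [hn v]
  have h1 : Ideal.span {R' * y ^ m} = Ideal.span {R * x ^ m} := by
    rw [← Ideal.span_singleton_mul_span_singleton, ← Ideal.span_singleton_mul_span_singleton,
      ← Ideal.span_singleton_pow, ← Ideal.span_singleton_pow, Classes_eq m hR, Classes_eq m hR', hJ,
      mul_assoc, mul_assoc, ← mul_pow, ← mul_pow, mul_comm (Classes_I m R'), ← h,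
      mul_comm (Classes_I m R)]
  rw [Ideal.span_singleton_eq_span_singleton] at h1
  obtain ⟨u, hu⟩ := h1
  exact ⟨u, x, y, hx, hy, by rw [← hu]; ring⟩

/-- integral representatives -/
theorem Classes_int {m : ℕ} (hm : m ≠ 0) {r : K} (hr : r ≠ 0) :
    ∃ R d : 𝓞 K, R ≠ 0 ∧ d ≠ 0 ∧ r * (d : K) ^ m = (R : K) := by
  obtain ⟨a, b, hb, rfl⟩ := IsFractionRing.div_surjective (A := 𝓞 K) r
  have hb0 : b ≠ 0 := nonZeroDivisors.ne_zero hb
  have hb1 : (algebraMap (𝓞 K) K) b ≠ 0 := by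
    intro h
    exact hb0 ((FaithfulSMul.algebraMap_injective (𝓞 K) K) (by rw [h, map_zero]))
  have ha0 : a ≠ 0 := by
    rintro rfl
    exact hr (by rw [map_zero, zero_div])
  obtain ⟨k, rfl⟩ := Nat.exists_eq_succ_of_ne_zero hm
  refine ⟨a * b ^ k, b, mul_ne_zero ha0 (pow_ne_zero _ hb0), hb0, ?_⟩
  show (algebraMap (𝓞 K) K) a / (algebraMap (𝓞 K) K) b * ((algebraMap (𝓞 K) K) b) ^ (k + 1) =
    (algebraMap (𝓞 K) K) (a * b ^ k)
  rw [map_mul, map_pow, pow_succ]
  field_simp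

theorem Classes_dvd {m : ℕ} (v : Pr K) {r : K} {R d : 𝓞 K} (hR : R ≠ 0) (hd : d ≠ 0)
    (h : r * (d : K) ^ m = (R : K)) (hv : ∃ a : ℤ, fv v r = Nv v ^ ((m : ℤ) * a)) :
    Classes_n v R % m = 0 := by
  obtain ⟨a, ha⟩ := hv
  have h1 := congrArg (fv v) h
  rw [map_mul, map_pow, ha, Classes_fv v hR, Classes_fv v hd] at h1
  have h2 : (1 : ℝ) < Nv v := by
    have := two_le_Nv v
    linarith
  have h3 : (Nv v) ^ ((m : ℤ) * a - Classes_n v d * m) = (Nv v) ^ (-(Classes_n v R : ℤ)) := by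
    rw [zpow_sub₀ (by linarith), zpow_neg, zpow_natCast, ← inv_pow, ← h1]
    rw [← pow_mul, inv_pow, div_eq_mul_inv]
    norm_cast
  have h4 : (m : ℤ) * a - Classes_n v d * m = -(Classes_n v R : ℤ) :=
    zpow_right_injective₀ (by linarith) h2.ne' h3
  have h5 : (m : ℤ) ∣ (Classes_n v R : ℤ) := ⟨Classes_n v d - a, by linarith⟩
  exact Nat.mod_eq_zero_of_dvd (Int.natCast_dvd_natCast.1 h5)

variable (K) in
theorem classes : ClassesS K := by
  classical
  intro m hm
  have hm0 : m ≠ 0 := by omega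
  have : NeZero m := ⟨hm0⟩
  let _ : Fintype (Units.torsion K) := Fintype.ofFinite _
  obtain ⟨g, hg⟩ := Classes_units K m
  set C1 := Fintype.card (ClassGroup (𝓞 K)) with hC1
  set C2 := Fintype.card ((Units.torsion K) × (Fin (Units.rank K) → ZMod m)) with hC2
  have h1 : 1 ≤ C1 := Fintype.card_pos
  have h2 : 1 ≤ C2 := Fintype.card_pos
  refine ⟨m * (C1 * C2), Nat.mul_pos (by omega) (Nat.mul_pos h1 h2), ?_⟩
  intro S F hF
  have hint : ∀ r ∈ F, ∃ R d : 𝓞 K, R ≠ 0 ∧ d ≠ 0 ∧ r * (d : K) ^ m = (R : K) :=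
    fun r hr => Classes_int hm0 (hF r hr).1
  choose! R d hR hd hRd using hint
  let c : K → (S → ZMod m) × ClassGroup (𝓞 K) := fun r =>
    (fun v => ((Classes_n v.1 (R r) : ℕ) : ZMod m), Classes_cl m (R r))
  have hc : ∀ r ∈ F, ∀ r' ∈ F, c r = c r' → ∃ (u : (𝓞 K)ˣ) (z : K), z ≠ 0 ∧
      r = ((u : 𝓞 K) : K) * r' * z ^ m := by
    intro r hr r' hr' h
    have hn : ∀ v : Pr K, Classes_n v (R r) % m = Classes_n v (R r') % m := by
      intro v
      by_cases hv : v ∈ S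
      · have h3 := congrFun (congrArg Prod.fst h) ⟨v, hv⟩
        exact (ZMod.natCast_eq_natCast_iff' _ _ _).1 h3
      · rw [Classes_dvd v (hR r hr) (hd r hr) (hRd r hr) ((hF r hr).2 v hv),
          Classes_dvd v (hR r' hr') (hd r' hr') (hRd r' hr') ((hF r' hr').2 v hv)]
    obtain ⟨u, x, y, hx, hy, hu⟩ := Classes_pair hm0 (hR r hr) (hR r' hr') hn (congrArg Prod.snd h)
    have inj : ∀ a : 𝓞 K, a ≠ 0 → (a : K) ≠ 0 := fun a ha h0 => ha
      ((FaithfulSMul.algebraMap_injective (𝓞 K) K) (by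
        have h5 : (algebraMap (𝓞 K) K) a = 0 := h0
        rw [h5, map_zero]))
    have hx' := inj x hx
    have hy' := inj y hy
    have hd1 := inj _ (hd r hr)
    have hd2 := inj _ (hd r' hr')
    refine ⟨u, (d r' : K) * y / ((d r : K) * x), div_ne_zero (mul_ne_zero hd2 hy')
      (mul_ne_zero hd1 hx'), ?_⟩
    have h6 : (R r : K) * (x : K) ^ m = ((u : 𝓞 K) : K) * (R r' : K) * (y : K) ^ m := by
      have := congrArg (algebraMap (𝓞 K) K) hu
      simp only [map_mul, map_pow] at this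
      exact this
    rw [← hRd r hr, ← hRd r' hr'] at h6
    rw [div_pow, mul_pow, mul_pow]
    field_simp
    linear_combination h6
  let B : (S → ZMod m) × ClassGroup (𝓞 K) → K := fun y =>
    if h : ∃ r' ∈ F, c r' = y then h.choose else 1
  have hB : ∀ r ∈ F, B (c r) ∈ F ∧ c (B (c r)) = c r := by
    intro r hr
    have h : ∃ r' ∈ F, c r' = c r := ⟨r, hr, rfl⟩
    have h3 : B (c r) = h.choose := dif_pos h
    rw [h3]
    exact h.choose_spec
  have hu : ∀ r ∈ F, ∃ (u : (𝓞 K)ˣ) (z : K), z ≠ 0 ∧ r = ((u : 𝓞 K) : K) * B (c r) * z ^ m :=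
    fun r hr => hc r hr _ (hB r hr).1 (hB r hr).2.symm
  choose! U Z hZ hUZ using hu
  obtain ⟨f, hf1, hf2⟩ := Pool.Agent.TH876.KR.number F (fun r => (c r, g (U r)))
  refine ⟨f, fun r hr => (hf1 r hr).trans_le ?_, ?_⟩
  · refine (Finset.card_le_univ _).trans ?_
    rw [Fintype.card_prod, Fintype.card_prod, Fintype.card_fun, ZMod.card, Fintype.card_coe,
      ← hC1, ← hC2, pow_succ, mul_assoc]
    refine Nat.mul_le_mul (Nat.pow_le_pow_left (Nat.le_mul_of_pos_right _ (Nat.mul_pos h1 h2)) _) ?_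
    exact Nat.le_mul_of_pos_left _ (by omega)
  · intro r hr r' hr' h
    have h3 := hf2 r hr r' hr' h
    have h4 : c r = c r' := congrArg Prod.fst h3
    have h5 : g (U r) = g (U r') := congrArg Prod.snd h3
    obtain ⟨w, hw⟩ := hg _ _ h5
    have hw0 : ((w : 𝓞 K) : K) ≠ 0 := by
      intro h0
      have h6 : ((w : 𝓞 K)) = 0 := (FaithfulSMul.algebraMap_injective (𝓞 K) K) (by
        have h5 : (algebraMap (𝓞 K) K) (w : 𝓞 K) = 0 := h0
        rw [h5, map_zero])
      exact w.ne_zero h6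
    refine ⟨((w : 𝓞 K) : K) * Z r / Z r', div_ne_zero (mul_ne_zero hw0 (hZ r hr)) (hZ r' hr'), ?_⟩
    have e1 := hUZ r hr
    have e2 := hUZ r' hr'
    have e3 : ((U r : 𝓞 K) : K) = ((U r' : 𝓞 K) : K) * ((w : 𝓞 K) : K) ^ m := by
      rw [hw, Units.val_mul, Units.val_pow_eq_pow_val]
      show (algebraMap (𝓞 K) K) _ = _
      rw [map_mul, map_pow]
    rw [h4, e3] at e1
    have hZ' := hZ r' hr'
    rw [div_pow, mul_pow]
    calc r = _ := e1
      _ = (((U r' : 𝓞 K) : K) * B (c r') * Z r' ^ m) * (((w : 𝓞 K) : K) ^ m * Z r ^ m / Z r' ^ m) := by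
        field_simp
      _ = _ := by rw [← e2]

end Pool.Agent.TH876.NP
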