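import Mathlib
import Pool.Agent.TH876.NP.Def
import Pool.Agent.TH876.Rad

set_option autoImplicit false

namespace Pool.Agent.TH876.NP

open NumberField IsDedekindDomain Finset Pool.Agent.H691R3 Pool.Agent.TH876.Loc
open Pool.Agent.TH876.KR (side rr aw Sc Near qt)

variable (K : Type) [Field K] [NumberField K]

private theorem core_log (c ε : ℝ) (n : ℕ) (hc : 0 < c) (hε : 0 < ε) : ∃ D : ℝ, 0 < D ∧
    ∀ R : ℝ, 1 ≤ R → (c * Real.log (max R 3) ^ n) ^ 3 ≤ D * R ^ ε := by
  obtain ⟨δ, hδ⟩ : ∃ δ : ℝ, δ = ε / (3 * n + 1) := ⟨_, rfl⟩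
  have hn : (0 : ℝ) < 3 * n + 1 := by positivity
  have hδ0 : 0 < δ := by rw [hδ]; positivity
  refine ⟨c ^ 3 * (3 ^ ε / δ ^ (3 * n)), by positivity, fun R hR => ?_⟩
  have hX3 : (3 : ℝ) ≤ max R 3 := le_max_right _ _
  have hX : max R 3 ≤ 3 * R := max_le (by linarith) (by linarith)
  have hlog0 : 0 ≤ Real.log (max R 3) := Real.log_nonneg (by linarith)
  have h1 : Real.log (max R 3) ≤ (3 * R) ^ δ / δ := by
    refine (Real.log_le_log (by linarith) hX).trans ?_
    exact Real.log_le_rpow_div (by positivity) hδ0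
  have h2 : (1 : ℝ) ≤ 3 * R := by linarith
  calc (c * Real.log (max R 3) ^ n) ^ 3 = c ^ 3 * Real.log (max R 3) ^ (3 * n) := by
        rw [mul_pow, ← pow_mul, mul_comm n 3]
    _ ≤ c ^ 3 * ((3 * R) ^ δ / δ) ^ (3 * n) := by
        refine mul_le_mul_of_nonneg_left ?_ (by positivity)
        exact pow_le_pow_left₀ hlog0 h1 _
    _ = c ^ 3 * (((3 * R) ^ δ) ^ (3 * n) / δ ^ (3 * n)) := by rw [div_pow]
    _ ≤ c ^ 3 * ((3 * R) ^ ε / δ ^ (3 * n)) := by
        refine mul_le_mul_of_nonneg_left ?_ (by positivity)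
        refine div_le_div_of_nonneg_right ?_ (by positivity)
        rw [← Real.rpow_natCast ((3 * R) ^ δ), ← Real.rpow_mul (by linarith)]
        refine Real.rpow_le_rpow_of_exponent_le h2 ?_
        rw [hδ]
        push_cast
        rw [div_mul_eq_mul_div, div_le_iff₀ hn]
        nlinarith
    _ = _ := by
        rw [Real.mul_rpow (by norm_num) (by linarith)]
        ring

variable {K} in
/-- the points of one scale, one order of the sides -/
private theorem core_one {C : ℝ} (hC : 1 ≤ C) {m k q : ℕ} {S0 : Finset (Pr K)} {A B C' : Fin 3}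
    {l : ℝ}
    (hs : ∀ (S T Z : Finset (Pr K)) (F : Finset K),
      (∀ x ∈ F, Good m k S0 A B C' T Z x ∧ side B x = S ∧ Sc q l x) →
      (F.card : ℝ) ≤ C ^ (S.card + T.card + Z.card + 1))
    {M R : ℝ} (hR : 1 ≤ R) (hM : ∀ (S : Finset (Finset (Pr K))), (∀ s ∈ S, ∀ v ∈ s, Nv v ≤ R) →
      ∑ s ∈ S, ∏ v ∈ s, (C / Nv v) ≤ M) (T Z : K → Finset (Pr K))
    (F : Finset K) (hF : ∀ x ∈ F, Good m k S0 A B C' (T x) (Z x) x ∧ Sc q l x ∧
      nn (side B x) * nn (T x) * nn (Z x) ≤ R) :
    (F.card : ℝ) ≤ C * R * M ^ 3 := by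
  classical
  have hC0 : 0 < C := by linarith
  let g : K → Finset (Pr K) × Finset (Pr K) × Finset (Pr K) := fun x => (side B x, T x, Z x)
  obtain ⟨w, hw⟩ : ∃ w : Finset (Pr K) → ℝ, w = fun s => ∏ v ∈ s, (C / Nv v) := ⟨_, rfl⟩
  have hw0 : ∀ s, 0 ≤ w s := fun s => by
    rw [hw]
    exact Finset.prod_nonneg fun v _ => by have := Nv_pos v; positivity
  have hwe : ∀ s, w s = C ^ s.card / nn s := fun s => by
    rw [hw]
    exact prod_C s
  have h1 : (F.card : ℝ) = ∑ b ∈ F.image g, ((F.filter fun x => g x = b).card : ℝ) := by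
    exact_mod_cast Finset.card_eq_sum_card_image g F
  have h2 : ∀ b ∈ F.image g, ((F.filter fun x => g x = b).card : ℝ) ≤
      C * R * (w b.1 * (w b.2.1 * w b.2.2)) := by
    intro b hb
    obtain ⟨x0, hx0, rfl⟩ := Finset.mem_image.1 hb
    refine (hs (side B x0) (T x0) (Z x0) _ ?_).trans ?_
    · intro x hx
      obtain ⟨hx1, hx2⟩ := Finset.mem_filter.1 hx
      simp only [g, Prod.mk.injEq] at hx2
      obtain ⟨e1, e2, e3⟩ := hx2
      obtain ⟨a1, a2, _⟩ := hF x hx1
      rw [e2, e3] at a1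
      exact ⟨a1, e1, a2⟩
    · have h3 := (hF x0 hx0).2.2
      simp only [g]
      rw [hwe, hwe, hwe]
      have p1 := nn_pos (side B x0)
      have p2 := nn_pos (T x0)
      have p3 := nn_pos (Z x0)
      have e : C * R * (C ^ (side B x0).card / nn (side B x0) * (C ^ (T x0).card / nn (T x0) *
          (C ^ (Z x0).card / nn (Z x0)))) =
          C ^ ((side B x0).card + (T x0).card + (Z x0).card + 1) *
            (R / (nn (side B x0) * nn (T x0) * nn (Z x0))) := by
        field_simp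
        ring
      rw [e]
      refine le_mul_of_one_le_right (by positivity) ?_
      rw [one_le_div (by positivity)]
      exact h3
  have h4 : ∑ b ∈ F.image g, C * R * (w b.1 * (w b.2.1 * w b.2.2)) ≤
      C * R * M ^ 3 := by
    rw [← Finset.mul_sum]
    refine mul_le_mul_of_nonneg_left ?_ (by positivity)
    have hsub : F.image g ⊆ (F.image fun x => side B x) ×ˢ ((F.image T) ×ˢ (F.image Z)) := by
      intro b hb
      obtain ⟨x, hx, rfl⟩ := Finset.mem_image.1 hb
      rw [Finset.mem_product, Finset.mem_product]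
      exact ⟨Finset.mem_image_of_mem _ hx, Finset.mem_image_of_mem _ hx,
        Finset.mem_image_of_mem _ hx⟩
    refine (Finset.sum_le_sum_of_subset_of_nonneg hsub fun b _ _ =>
      mul_nonneg (hw0 _) (mul_nonneg (hw0 _) (hw0 _))).trans ?_
    have hprod : ∑ b ∈ (F.image fun x => side B x) ×ˢ ((F.image T) ×ˢ (F.image Z)),
        w b.1 * (w b.2.1 * w b.2.2) = (∑ s ∈ F.image fun x => side B x, w s) *
          ((∑ s ∈ F.image T, w s) * ∑ s ∈ F.image Z, w s) := by
      rw [Finset.sum_product]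
      simp only [Finset.sum_product, ← Finset.mul_sum, ← Finset.sum_mul]
    rw [hprod]
    have hb : ∀ x ∈ F, (nn (side B x) ≤ R ∧ nn (T x) ≤ R ∧ nn (Z x) ≤ R) := by
      intro x hx
      have h3 := (hF x hx).2.2
      have p1 := one_le_nn (side B x)
      have p2 := one_le_nn (T x)
      have p3 := one_le_nn (Z x)
      have q1 : 1 ≤ nn (side B x) * nn (T x) := one_le_mul_of_one_le_of_one_le p1 p2
      refine ⟨?_, ?_, ?_⟩
      · nlinarith
      · nlinarith
      · nlinarith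
    have m1 : ∑ s ∈ F.image fun x => side B x, w s ≤ M := by
      rw [hw]
      refine hM _ fun s hs v hv => ?_
      obtain ⟨x, hx, rfl⟩ := Finset.mem_image.1 hs
      exact (Nv_le_nn hv).trans (hb x hx).1
    have m2 : ∑ s ∈ F.image T, w s ≤ M := by
      rw [hw]
      refine hM _ fun s hs v hv => ?_
      obtain ⟨x, hx, rfl⟩ := Finset.mem_image.1 hs
      exact (Nv_le_nn hv).trans (hb x hx).2.1
    have m3 : ∑ s ∈ F.image Z, w s ≤ M := by
      rw [hw]
      refine hM _ fun s hs v hv => ?_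
      obtain ⟨x, hx, rfl⟩ := Finset.mem_image.1 hs
      exact (Nv_le_nn hv).trans (hb x hx).2.2
    have n1 : 0 ≤ ∑ s ∈ F.image fun x => side B x, w s := Finset.sum_nonneg fun s _ => hw0 s
    have n2 : 0 ≤ ∑ s ∈ F.image T, w s := Finset.sum_nonneg fun s _ => hw0 s
    have n3 : 0 ≤ ∑ s ∈ F.image Z, w s := Finset.sum_nonneg fun s _ => hw0 s
    calc _ ≤ M * (M * M) := mul_le_mul m1 (mul_le_mul m2 m3 n3 (n2.trans m2))
          (mul_nonneg n2 n3) (n1.trans m1)
      _ = M ^ 3 := by ring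
  rw [h1]
  exact (Finset.sum_le_sum h2).trans h4

theorem core (h : ScaleS K) : CoreS K := by
  classical
  intro m k S0 ε hm hk hε
  obtain ⟨q, C, l0, hq, hC, hl0, hs⟩ := h m k S0 hm hk
  have hC1 : (1 : ℝ) ≤ C := by exact_mod_cast hC
  obtain ⟨c, n, hc, hsum⟩ := sum_pow_card (Module.finrank ℚ K) (C : ℝ) hC1
  obtain ⟨D, hD, hlogD⟩ := core_log c ε n hc hε
  obtain ⟨N0, hN0⟩ : ∃ N0 : ℕ, N0 = (northcott (K := K) l0).toFinset.card := ⟨_, rfl⟩
  refine ⟨N0 + (4 * q + 1) * (27 * (C * D)), by positivity, ?_⟩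
  intro R H hR hH F hF
  have hR0 : 0 < R := by linarith
  have hlogH : 0 ≤ Real.log H := Real.log_nonneg hH
  choose! A B C' hAB hBC hAC T Z hG hcost using fun x hx => (hF x hx).2
  have hq0 : (0 : ℝ) < q := by exact_mod_cast (by omega : 0 < q)
  obtain ⟨ρ, hρ⟩ : ∃ ρ : ℝ, ρ = 1 + 1 / (4 * (q : ℝ)) := ⟨_, rfl⟩
  have hρ1 : 1 < ρ := by
    rw [hρ]
    have : 0 < 1 / (4 * (q : ℝ)) := by positivity
    linarith
  have hl00 : 0 < l0 := by linarith
  -- small heights
  have hsmall : ((F.filter fun x => hgt x < l0).card : ℝ) ≤ N0 := by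
    rw [hN0]
    refine Nat.cast_le.2 (Finset.card_le_card fun x hx => ?_)
    obtain ⟨h1, h2⟩ := Finset.mem_filter.1 hx
    rw [Set.Finite.mem_toFinset]
    exact ⟨(hG x h1).pt, h2⟩
  -- the scales
  obtain ⟨I, hI⟩ : ∃ I : ℕ, I = ⌊(4 * q + 1) * Real.log H⌋₊ + 1 := ⟨_, rfl⟩
  have hIle : (I : ℝ) ≤ (4 * q + 1) * (1 + Real.log H) := by
    rw [hI]
    push_cast
    have := Nat.floor_le (show 0 ≤ (4 * (q : ℝ) + 1) * Real.log H by positivity)
    nlinarith
  obtain ⟨G, hGd⟩ : ∃ G : ℕ → Fin 3 × Fin 3 × Fin 3 → Finset K, ∀ i σ, G i σ = F.filter fun x =>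
      (A x, B x, C' x) = σ ∧ Sc q (l0 * ρ ^ i) x := ⟨fun i σ => _, fun i σ => rfl⟩
  have hcover : F ⊆ (F.filter fun x => hgt x < l0) ∪ (range I).biUnion fun i =>
      (Finset.univ : Finset (Fin 3 × Fin 3 × Fin 3)).biUnion fun σ => G i σ := by
    intro x hx
    rw [mem_union, mem_filter, mem_biUnion]
    by_cases hlt : hgt x < l0
    · exact Or.inl ⟨hx, hlt⟩
    · right
      push Not at hlt
      obtain ⟨i, hi1, hi2⟩ := exists_nat_pow_near (x := hgt x / l0)
        (by rw [le_div_iff₀ hl00]; linarith) hρ1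
      have hxH := (hF x hx).1
      refine ⟨i, ?_, ?_⟩
      · rw [mem_range, hI, Nat.lt_add_one_iff]
        refine Nat.le_floor ?_
        have h1 : ρ ^ i ≤ H := by
          refine hi1.trans ?_
          rw [div_le_iff₀ hl00]
          nlinarith
        have h2 : (i : ℝ) * Real.log ρ ≤ Real.log H := by
          rw [← Real.log_pow]
          exact Real.log_le_log (by positivity) h1
        have h3 : 1 / (4 * (q : ℝ) + 1) ≤ Real.log ρ := by
          have h4 := Real.one_sub_inv_le_log_of_pos (show 0 < ρ by linarith)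
          refine le_trans (le_of_eq ?_) h4
          rw [hρ]
          field_simp
          ring
        have h4 : (i : ℝ) * (1 / (4 * q + 1)) ≤ Real.log H :=
          (mul_le_mul_of_nonneg_left h3 (Nat.cast_nonneg i)).trans h2
        calc (i : ℝ) = (4 * q + 1) * (i * (1 / (4 * q + 1))) := by field_simp
          _ ≤ (4 * q + 1) * Real.log H := mul_le_mul_of_nonneg_left h4 (by positivity)
      · rw [mem_biUnion]
        refine ⟨(A x, B x, C' x), mem_univ _, ?_⟩
        rw [hGd, mem_filter]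
        refine ⟨hx, rfl, ?_, ?_⟩
        · rw [le_div_iff₀ hl00] at hi1
          linarith [mul_comm l0 (ρ ^ i)]
        · rw [div_lt_iff₀ hl00, pow_succ] at hi2
          rw [← hρ]
          refine hi2.le.trans (le_of_eq ?_)
          ring
  have hX3 : (3 : ℝ) ≤ max R 3 := le_max_right _ _
  have hsc : ∀ i ∈ range I, ∀ σ ∈ (Finset.univ : Finset (Fin 3 × Fin 3 × Fin 3)),
      ((G i σ).card : ℝ) ≤ C * D * R ^ (1 + ε) := by
    intro i _ σ _
    rcases (G i σ).eq_empty_or_nonempty with h0 | ⟨x0, hx0⟩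
    · rw [h0, card_empty, Nat.cast_zero]
      positivity
    · rw [hGd, mem_filter] at hx0
      obtain ⟨hx0F, hσ, _⟩ := hx0
      have e1 : A x0 = σ.1 := by rw [← hσ]
      have e2 : B x0 = σ.2.1 := by rw [← hσ]
      have e3 : C' x0 = σ.2.2 := by rw [← hσ]
      have d1 : σ.1 ≠ σ.2.1 := by rw [← e1, ← e2]; exact hAB x0 hx0F
      have d2 : σ.2.1 ≠ σ.2.2 := by rw [← e2, ← e3]; exact hBC x0 hx0F
      have d3 : σ.1 ≠ σ.2.2 := by rw [← e1, ← e3]; exact hAC x0 hx0F
      have hli : l0 ≤ l0 * ρ ^ i := by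
        have : 1 ≤ ρ ^ i := one_le_pow₀ hρ1.le
        nlinarith
      have key := core_one hC1 (hs σ.1 σ.2.1 σ.2.2 d1 d2 d3 (l0 * ρ ^ i) hli) hR
        (M := c * Real.log (max R 3) ^ n)
        (fun S hS => hsum K rfl (max R 3) hX3 S fun s hs v hv =>
          (hS s hs v hv).trans (le_max_left _ _)) T Z (G i σ) (by
          intro x hx
          rw [hGd, mem_filter] at hx
          obtain ⟨hx1, hx2, hx3⟩ := hx
          have f1 : A x = σ.1 := by rw [← hx2]
          have f2 : B x = σ.2.1 := by rw [← hx2]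
          have f3 : C' x = σ.2.2 := by rw [← hx2]
          have g1 := hG x hx1
          have g2 := hcost x hx1
          rw [f1, f2, f3] at g1
          rw [f2] at g2
          exact ⟨g1, hx3, g2⟩)
      refine key.trans ?_
      have h5 := hlogD R hR
      calc C * R * (c * Real.log (max R 3) ^ n) ^ 3 ≤ C * R * (D * R ^ ε) :=
            mul_le_mul_of_nonneg_left h5 (by positivity)
        _ = C * D * R ^ (1 + ε) := by
            rw [Real.rpow_add hR0, Real.rpow_one]
            ring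
  have hRe : 1 ≤ R ^ (1 + ε) := Real.one_le_rpow hR (by linarith)
  have hu : ((Finset.univ : Finset (Fin 3 × Fin 3 × Fin 3)).card : ℝ) = 27 := by
    rw [Finset.card_univ]
    have : Fintype.card (Fin 3 × Fin 3 × Fin 3) = 27 := by simp
    rw [this]
    norm_num
  have hcard : (F.card : ℝ) ≤ N0 + ∑ i ∈ range I, ∑ σ ∈ (Finset.univ :
      Finset (Fin 3 × Fin 3 × Fin 3)), ((G i σ).card : ℝ) := by
    have h1 : F.card ≤ (F.filter fun x => hgt x < l0).card + ∑ i ∈ range I, ∑ σ ∈ (Finset.univ :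
        Finset (Fin 3 × Fin 3 × Fin 3)), (G i σ).card := by
      refine (card_le_card hcover).trans ((card_union_le _ _).trans ?_)
      refine Nat.add_le_add_left (card_biUnion_le.trans (sum_le_sum fun i _ => ?_)) _
      exact card_biUnion_le
    have h2 : (F.card : ℝ) ≤ ((F.filter fun x => hgt x < l0).card : ℝ) + ∑ i ∈ range I,
        ∑ σ ∈ (Finset.univ : Finset (Fin 3 × Fin 3 × Fin 3)), ((G i σ).card : ℝ) := by
      exact_mod_cast h1
    linarith
  have hsum2 : ∑ i ∈ range I, ∑ σ ∈ (Finset.univ : Finset (Fin 3 × Fin 3 × Fin 3)),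
      ((G i σ).card : ℝ) ≤ I * (27 * (C * D * R ^ (1 + ε))) := by
    refine (sum_le_sum fun i hi => sum_le_sum fun σ hσ => hsc i hi σ hσ).trans (le_of_eq ?_)
    rw [sum_const, sum_const, card_range, nsmul_eq_mul, nsmul_eq_mul, hu]
  calc (F.card : ℝ) ≤ N0 + I * (27 * (C * D * R ^ (1 + ε))) := by linarith
    _ ≤ N0 * (R ^ (1 + ε) * (1 + Real.log H)) +
        ((4 * q + 1) * (1 + Real.log H)) * (27 * (C * D * R ^ (1 + ε))) := by
        refine add_le_add ?_ ?_
        · refine le_mul_of_one_le_right (Nat.cast_nonneg _) ?_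
          nlinarith
        · exact mul_le_mul_of_nonneg_right hIle (by positivity)
    _ = _ := by ring

end Pool.Agent.TH876.NP
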