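import Mathlib
import Pool.Agent.TH876.NP.Def

set_option autoImplicit false

/-!
# Applications: definitions and statements
-/

namespace Pool.Agent.TH876.NP

open NumberField IsDedekindDomain Finset Pool.Agent.H691R3 Pool.Agent.TH876.Loc

/-- the integral points of the line with a stacky point of order `m` at `1` for which the reduced
counting function for `0` and infinity is at most `log X` -/
def StackyPts {K : Type} [Field K] [NumberField K] (S : Set (HeightOneSpectrum (𝓞 K))) (m : ℕ)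
    (X y H : ℝ) : Set K :=
  {x | x ≠ 0 ∧ x ≠ 1 ∧
    (∀ v : HeightOneSpectrum (𝓞 K), v ∉ S → ∃ a : ℕ, v.valuation K (x - 1) =
      max (v.valuation K x) 1 * WithZero.exp (-((m * a : ℕ) : ℤ))) ∧
    Real.exp (∑ᶠ v ∈ {v : HeightOneSpectrum (𝓞 K) | v ∉ S ∧ v.valuation K x ≠ 1},
      Real.log (Ideal.absNorm v.asIdeal : ℝ)) ≤ X ∧
    (∀ v : HeightOneSpectrum (𝓞 K), v ∉ S → v.valuation K x ≠ 1 →
      (Ideal.absNorm v.asIdeal : ℝ) ≤ y) ∧
    Height.logHeight₁ x ≤ H}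

/-- the count of the integral points of the stacky line -/
def StackyS (K : Type) [Field K] [NumberField K] : Prop :=
  ∀ (S : Set (HeightOneSpectrum (𝓞 K))), S.Finite → ∀ (m : ℕ) (ε : ℝ), 2 ≤ m → 0 < ε →
  ∃ C : ℝ, ∀ X y H : ℝ, 1 ≤ X → 1 ≤ y → 1 ≤ H → (StackyPts S m X y H).Finite ∧
    ((StackyPts S m X y H).ncard : ℝ) ≤
      C * y * X ^ (((m : ℝ) + 1) / (2 * m) + ε) * (1 + Real.log H)

/-- the conductor of `x` outside `S` -/
noncomputable def cond {K : Type} [Field K] [NumberField K] (S : Set (HeightOneSpectrum (𝓞 K)))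
    (x : K) : ℝ :=
  ∑ᶠ v ∈ {v : HeightOneSpectrum (𝓞 K) | v ∉ S ∧ v.valuation K x < 1},
    Real.log (Ideal.absNorm v.asIdeal : ℝ)

/-- the orders of the zeros of `z` at the primes outside `S` are divisible by `m` -/
def IsPow {K : Type} [Field K] [NumberField K] (S : Set (HeightOneSpectrum (𝓞 K))) (m : ℕ)
    (z : K) : Prop :=
  ∀ v : HeightOneSpectrum (𝓞 K), v ∉ S → v.valuation K z < 1 →
    ∃ a : ℕ, v.valuation K z = WithZero.exp (-((m * a : ℕ) : ℤ))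

/-- the `x` one of whose conductors belongs to an `m`-th power -/
def WeakPts {K : Type} [Field K] [NumberField K] (S : Set (HeightOneSpectrum (𝓞 K))) (m : ℕ)
    (X y H : ℝ) : Set K :=
  {x | x ≠ 0 ∧ x ≠ 1 ∧ (IsPow S m x ∨ IsPow S m x⁻¹ ∨ IsPow S m (x - 1)) ∧
    Real.exp (cond S x + cond S x⁻¹ + cond S (x - 1)) ≤ X ∧
    (∀ v : HeightOneSpectrum (𝓞 K), v ∉ S → (v.valuation K x ≠ 1 ∨ v.valuation K (x - 1) ≠ 1) →
      (Ideal.absNorm v.asIdeal : ℝ) ≤ y) ∧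
    Height.logHeight₁ x ≤ H}

/-- the count of the points one side of which is a perfect power -/
def WeakS (K : Type) [Field K] [NumberField K] : Prop :=
  ∀ (S : Set (HeightOneSpectrum (𝓞 K))), S.Finite → ∀ (m : ℕ) (ε : ℝ), 2 ≤ m → 0 < ε →
  ∃ C : ℝ, ∀ X y H : ℝ, 1 ≤ X → 1 ≤ y → 1 ≤ H → (WeakPts S m X y H).Finite ∧
    ((WeakPts S m X y H).ncard : ℝ) ≤
      C * y * X ^ (((m : ℝ) + 1) / (2 * m + 1) + ε) * (1 + Real.log H)

/-- the triples in lowest terms with a member which is a unit times an `m`-th power -/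
structure PowTriple {K : Type} [Field K] [NumberField K] (m : ℕ) (X y H : ℝ)
    (t : 𝓞 K × 𝓞 K × 𝓞 K) : Prop where
  sum : t.1 + t.2.1 + t.2.2 = 0
  ne : t.1 * t.2.1 * t.2.2 ≠ 0
  cop : Ideal.span {t.1, t.2.1, t.2.2} = (⊤ : Ideal (𝓞 K))
  pow : ∃ (u : (𝓞 K)ˣ) (z : 𝓞 K), t.1 = u * z ^ m ∨ t.2.1 = u * z ^ m ∨ t.2.2 = u * z ^ m
  rad : ∏ᶠ (P : HeightOneSpectrum (𝓞 K)) (_ : t.1 * t.2.1 * t.2.2 ∈ P.asIdeal),
    (Ideal.absNorm P.asIdeal : ℝ) ≤ X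
  smooth : ∀ P : HeightOneSpectrum (𝓞 K), t.1 * t.2.1 * t.2.2 ∈ P.asIdeal →
    (Ideal.absNorm P.asIdeal : ℝ) ≤ y
  height : Real.log (∏ φ : K →+* ℂ, max ‖φ t.1‖ (max ‖φ t.2.1‖ ‖φ t.2.2‖)) ≤ H

/-- the count of these triples up to units -/
def TripS (K : Type) [Field K] [NumberField K] : Prop :=
  ∀ (m : ℕ) (ε : ℝ), 2 ≤ m → 0 < ε → ∃ C : ℝ, 0 < C ∧
  ∀ X y H : ℝ, 1 ≤ X → 1 ≤ y → 1 ≤ H → ∀ E : Finset (𝓞 K × 𝓞 K × 𝓞 K),
  (∀ t ∈ E, PowTriple m X y H t) →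
  (∀ t ∈ E, ∀ s ∈ E, ∀ u : (𝓞 K)ˣ, s = (u * t.1, u * t.2.1, u * t.2.2) → s = t) →
  (E.card : ℝ) ≤ C * y * X ^ (((m : ℝ) + 1) / (2 * m + 1) + ε) * (1 + Real.log H)

end Pool.Agent.TH876.NP
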