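import Mathlib
import Pool.Agent.TH876.NP.Def
import Pool.Agent.TH876.KR.Lte
import Pool.Agent.TH876.KR.Gap

set_option autoImplicit false

/-!
# The gap principle for two points whose sides `C` differ by an `m`-th power
-/

namespace Pool.Agent.TH876.NP

open NumberField IsDedekindDomain Finset Pool.Agent.H691R3 Pool.Agent.TH876.Loc
open Pool.Agent.TH876.KR (side rr aw Sc Near qt)

section

variable {K : Type} [Field K] [NumberField K]

theorem Gap_inj {x y : K} (hx : Pt x) (hy : Pt y) {B C : Fin 3} (hBC : B ≠ C)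
    (h : qt C B x = qt C B y) : x = y := by
  have h1 : L C x * L B y = L C y * L B x := by
    unfold KR.qt at h
    have hBx := L_ne hx B
    have hBy := L_ne hy B
    have h2 : L C x / L B x = L C y / L B y := neg_injective h
    rw [div_eq_div_iff hBx hBy] at h2
    exact h2
  have h2 : C = B + 1 ∨ B = C + 1 := by
    fin_cases B <;> fin_cases C <;> simp at hBC ⊢
  rcases h2 with rfl | rfl
  · have h3 := KR.gap_wedge x y B
    have h4 : x - y = 0 := by rw [h3]; linear_combination -h1
    exact sub_eq_zero.1 h4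
  · have h3 := KR.gap_wedge x y C
    have h4 : x - y = 0 := by rw [h3]; linear_combination h1
    exact sub_eq_zero.1 h4

theorem Gap_sub (v : Pl K) {a b : K} (ha : a ≠ 0) (hb : b ≠ 0) (hab : a - b ≠ 0) :
    lg v (a - b) ≤ mt v * Real.log (cv v) + max (lg v a) (lg v b) := by
  have hmt := mt_pos v
  have hcv0 : 0 < cv v := lt_of_lt_of_le one_pos (one_le_cv v)
  have h := av_add v a (-b)
  rw [← sub_eq_add_neg, (av v).map_neg] at h
  have hpa : 0 < av v a := (av v).pos ha
  have hpb : 0 < av v b := (av v).pos hb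
  have hpd : 0 < av v (a - b) := (av v).pos hab
  rcases le_total (av v a) (av v b) with h1 | h1
  · rw [max_eq_right h1] at h
    have h2 := Real.log_le_log hpd h
    rw [Real.log_mul hcv0.ne' hpb.ne'] at h2
    have h3 := mul_le_mul_of_nonneg_left h2 hmt.le
    have h4 := le_max_right (lg v a) (lg v b)
    unfold lg at h4 ⊢
    linarith
  · rw [max_eq_left h1] at h
    have h2 := Real.log_le_log hpd h
    rw [Real.log_mul hcv0.ne' hpa.ne'] at h2
    have h3 := mul_le_mul_of_nonneg_left h2 hmt.le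
    have h4 := le_max_left (lg v a) (lg v b)
    unfold lg at h4 ⊢
    linarith

theorem Gap_lg_pow (v : Pl K) (a : K) (m : ℕ) : lg v (a ^ m) = m * lg v a := by
  unfold lg
  rw [map_pow, Real.log_pow]
  ring

theorem Gap_cv_inr (v : Pr K) : mt (Sum.inr v : Pl K) * Real.log (cv (Sum.inr v : Pl K)) = 0 := by
  show 1 * Real.log 1 = 0
  rw [Real.log_one, mul_zero]

theorem Gap_cv_inl (w : InfinitePlace K) :
    mt (Sum.inl w : Pl K) * Real.log (cv (Sum.inl w : Pl K)) = (w.mult : ℝ) * Real.log 2 := rfl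

/-- the local inequalities which do not depend on the place -/
theorem Gap_loc {m : ℕ} {A B C : Fin 3} (hAB : A ≠ B) (hBC : B ≠ C) (hAC : A ≠ C) {x y g : K}
    (hx : Pt x) (hy : Pt y) (hxy : x ≠ y) (hg : g ≠ 0) (hq : qt C B x = qt C B y * g ^ m) (v : Pl K) :
    lg v (g ^ m - 1) ≤ mt v * Real.log (cv v) +
      max (df v B x - df v A x) (df v B y - df v A y) - (df v B y - df v C y) ∧
    (m : ℝ) * lg v g = (df v B x - df v C x) - (df v B y - df v C y) := by
  have hrx := KR.qt_ne hx C B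
  have hry := KR.qt_ne hy C B
  have hgm : g ^ m ≠ 0 := pow_ne_zero _ hg
  have hne : qt C B x ≠ qt C B y := fun h => hxy (Gap_inj hx hy hBC h)
  have hg1 : g ^ m - 1 ≠ 0 := by
    intro h
    apply hne
    rw [hq, sub_eq_zero.1 h, mul_one]
  constructor
  · have h1 : qt C B x - 1 ≠ 0 := by
      rw [KR.qt_sub hx hAC hBC.symm hAB]
      exact div_ne_zero (L_ne hx A) (L_ne hx B)
    have h2 : qt C B y - 1 ≠ 0 := by
      rw [KR.qt_sub hy hAC hBC.symm hAB]
      exact div_ne_zero (L_ne hy A) (L_ne hy B)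
    have h3 : (qt C B x - 1) - (qt C B y - 1) = qt C B y * (g ^ m - 1) := by
      rw [hq]; ring
    have h4 := Gap_sub v h1 h2 (by rw [h3]; exact mul_ne_zero hry hg1)
    rw [h3, KR.lg_mul v hry hg1, KR.lg_qt_sub hx hAC hBC.symm hAB v,
      KR.lg_qt_sub hy hAC hBC.symm hAB v, KR.lg_qt hy C B v] at h4
    linarith
  · have h1 : lg v (qt C B x) = lg v (qt C B y) + m * lg v g := by
      rw [hq, KR.lg_mul v hry hgm, Gap_lg_pow]
    rw [KR.lg_qt hx C B v, KR.lg_qt hy C B v] at h1
    linarith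

theorem Gap_le {m : ℕ} (hm : 2 ≤ m) {a t : ℝ} (ht : 0 ≤ t) (h : (m : ℝ) * a ≤ t) : a ≤ t := by
  have hm1 : (2 : ℝ) ≤ m := by exact_mod_cast hm
  by_contra hcon
  push Not at hcon
  nlinarith

end

variable (K : Type) [Field K] [NumberField K]

theorem gap : GapS K := by
  classical
  intro m hm
  have hlog2 : 0 ≤ Real.log 2 := Real.log_nonneg (by norm_num)
  have hdK : 0 ≤ dK K := Finset.sum_nonneg fun w _ => Nat.cast_nonneg _
  have hlogm : 0 ≤ Real.log (m : ℝ) := Real.log_natCast_nonneg m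
  have hr : (0 : ℝ) ≤ Module.finrank ℚ K := Nat.cast_nonneg _
  have hr2 : (0 : ℝ) ≤ (Fintype.card (InfinitePlace K) : ℝ) := Nat.cast_nonneg _
  obtain ⟨e1, he1⟩ : ∃ e1 : ℝ, e1 = dK K * Real.log 2 := ⟨_, rfl⟩
  obtain ⟨e2, he2⟩ : ∃ e2 : ℝ, e2 = (Module.finrank ℚ K : ℝ) * Real.log (m : ℝ) := ⟨_, rfl⟩
  obtain ⟨e3, he3⟩ : ∃ e3 : ℝ, e3 = (Fintype.card (InfinitePlace K) : ℝ) := ⟨_, rfl⟩
  have he1' : 0 ≤ e1 := by rw [he1]; exact mul_nonneg hdK hlog2
  have he2' : 0 ≤ e2 := by rw [he2]; exact mul_nonneg hr hlogm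
  have he3' : 0 ≤ e3 := by rw [he3]; exact hr2
  refine ⟨2 * e1 + e2 + 3 * e3 + 1, by linarith, ?_⟩
  intro A B C hAB hBC hAC x y g S T Z η hx hy hxy hg hq hSx hSy hTx hTy hZ hη hNS hNT hNZ hTg hwg q hq0 hqZ
  have hm0 : (0 : ℝ) < m := by exact_mod_cast (by omega : 0 < m)
  have hg1 : g - 1 ≠ 0 := by
    intro h
    apply hxy
    apply Gap_inj hx hy hBC
    rw [hq, sub_eq_zero.1 h, one_pow, mul_one]
  have hloc := fun v => Gap_loc hAB hBC hAC hx hy hxy hg hq v
  obtain ⟨V, hV⟩ : ∃ V : Finset (Pr K), V = (sp x ∪ sp y) ∪ (fv_support_finite hg1).toFinset := ⟨_, rfl⟩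
  have hVx : sp x ⊆ V := by
    rw [hV]; exact Finset.subset_union_left.trans Finset.subset_union_left
  have hVy : sp y ⊆ V := by
    rw [hV]; exact Finset.subset_union_right.trans Finset.subset_union_left
  have hVg : ∀ v, v ∉ V → fv v (g - 1) = 1 := by
    intro v hv
    by_contra h
    apply hv
    rw [hV]
    refine Finset.mem_union_right _ ?_
    rw [Set.Finite.mem_toFinset]
    exact h
  have hTV : T ⊆ V := hTx.trans ((KR.side_sub A x).trans hVx)
  have hSV : S ⊆ V := by rw [← hSx]; exact (KR.side_sub B x).trans hVx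
  have hZV : Z ⊆ V := by
    rcases hZ with rfl | ⟨h, _⟩
    · exact Finset.empty_subset _
    · rw [h]; exact (KR.side_sub C x).trans hVx
  have hsum := sum_lg hg1 hVg
  rw [sum_Spl] at hsum
  -- the infinite places
  have hinf : ∀ w : InfinitePlace K, lg (Sum.inl w : Pl K) (g - 1) ≤
      2 * ((w.mult : ℝ) * Real.log 2) + 3 * η - df (Sum.inl w : Pl K) A x := by
    intro w
    have hN : ∀ i, |df (Sum.inl w : Pl K) i x - df (Sum.inl w : Pl K) i y| ≤ η :=
      fun i => hNS _ (inl_mem_Spl S w) i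
    obtain ⟨h1, h2⟩ := hloc (Sum.inl w)
    rw [Gap_cv_inl] at h1
    have hA := abs_le.1 (hN A)
    have hB := abs_le.1 (hN B)
    have hC := abs_le.1 (hN C)
    have hmult : 0 ≤ (w.mult : ℝ) * Real.log 2 := mul_nonneg (Nat.cast_nonneg _) hlog2
    have hmax : max (df (Sum.inl w : Pl K) B x - df (Sum.inl w : Pl K) A x)
        (df (Sum.inl w : Pl K) B y - df (Sum.inl w : Pl K) A y) ≤
        df (Sum.inl w : Pl K) B y - df (Sum.inl w : Pl K) A y + 2 * η :=
      max_le (by linarith) (by linarith)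
    have hlgm : lg (Sum.inl w : Pl K) (g - 1) ≤ lg (Sum.inl w : Pl K) (g ^ m - 1) := by
      unfold lg
      refine mul_le_mul_of_nonneg_left ?_ (mt_pos _).le
      exact Real.log_le_log ((av _).pos hg1) (hwg w)
    have h3 := KR.gap_two (Sum.inl w : Pl K) hy hAC
    rw [Gap_cv_inl] at h3
    rcases min_le_iff.1 h3 with h4 | h4
    · have h5 := Gap_sub (Sum.inl w : Pl K) hg one_ne_zero hg1
      rw [Gap_cv_inl, lg_one] at h5
      have h6 : max (lg (Sum.inl w : Pl K) g) 0 ≤ 2 * η := by
        refine max_le (Gap_le hm (by linarith) ?_) (by linarith)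
        rw [h2]
        linarith
      linarith
    · linarith
  -- the finite places
  have hfin : ∀ v : Pr K, lg (Sum.inr v : Pl K) (g - 1) ≤
      (if v ∈ T then (-df (Sum.inr v : Pl K) A x + η + -Real.log (fv v ((m : ℕ) : K))) else 0) +
      (if v ∈ S then η else 0) + (if v ∈ Z then η else 0) +
      (if Z = ∅ then df (Sum.inr v : Pl K) C y / m else 0) := by
    intro v
    obtain ⟨h1, h2⟩ := hloc (Sum.inr v)
    rw [Gap_cv_inr, zero_add] at h1
    have hu := Gap_sub (Sum.inr v : Pl K) hg one_ne_zero hg1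
    rw [Gap_cv_inr, lg_one, zero_add] at hu
    have nS : (0 : ℝ) ≤ (if v ∈ S then η else 0) := by split_ifs; exacts [hη, le_rfl]
    have nZ : (0 : ℝ) ≤ (if v ∈ Z then η else 0) := by split_ifs; exacts [hη, le_rfl]
    have hCy0 := df_nonneg (Sum.inr v : Pl K) C hy
    have hCx0 := df_nonneg (Sum.inr v : Pl K) C hx
    have nO : (0 : ℝ) ≤ (if Z = ∅ then df (Sum.inr v : Pl K) C y / m else 0) := by
      split_ifs
      · exact div_nonneg hCy0 hm0.le
      · exact le_rfl
    by_cases hvT : v ∈ T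
    · rw [if_pos hvT]
      have b1 : df (Sum.inr v : Pl K) B x = 0 :=
        KR.df_eq_zero hx fun h => hAB (KR.side_uniq (hTx hvT) h)
      have b2 : df (Sum.inr v : Pl K) B y = 0 :=
        KR.df_eq_zero hy fun h => hAB (KR.side_uniq (hTy hvT) h)
      have b3 : df (Sum.inr v : Pl K) C y = 0 :=
        KR.df_eq_zero hy fun h => hAC (KR.side_uniq (hTy hvT) h)
      have hN := abs_le.1 (hNT (Sum.inr v) ((inr_mem_Spl T v).2 hvT) A)
      rw [b1, b2, b3] at h1
      have hmax : max (0 - df (Sum.inr v : Pl K) A x) (0 - df (Sum.inr v : Pl K) A y) ≤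
          -df (Sum.inr v : Pl K) A x + η := max_le (by linarith) (by linarith)
      have h3 := hTg v hvT
      have p1 : 0 < fv v (g - 1) := KR.fv_pos v hg1
      have p2 : 0 < fv v ((m : ℕ) : K) := KR.fv_pos v (Nat.cast_ne_zero.2 (by omega))
      have h4 := Real.log_le_log (mul_pos p1 p2) h3
      rw [Real.log_mul p1.ne' p2.ne'] at h4
      have h5 : lg (Sum.inr v : Pl K) (g - 1) = Real.log (fv v (g - 1)) := by
        show 1 * Real.log (fv v (g - 1)) = _
        rw [one_mul]
      have h6 : lg (Sum.inr v : Pl K) (g ^ m - 1) = Real.log (fv v (g ^ m - 1)) := by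
        show 1 * Real.log (fv v (g ^ m - 1)) = _
        rw [one_mul]
      linarith
    · rw [if_neg hvT, zero_add]
      by_cases hvS : v ∈ S
      · rw [if_pos hvS]
        have b1 : df (Sum.inr v : Pl K) C x = 0 :=
          KR.df_eq_zero hx fun h => hBC (KR.side_uniq (hSx ▸ hvS) h)
        have b2 : df (Sum.inr v : Pl K) C y = 0 :=
          KR.df_eq_zero hy fun h => hBC (KR.side_uniq (hSy ▸ hvS) h)
        have hN := abs_le.1 (hNS (Sum.inr v) ((inr_mem_Spl S v).2 hvS) B)
        rw [b1, b2] at h2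
        have h3 : max (lg (Sum.inr v : Pl K) g) 0 ≤ η :=
          max_le (Gap_le hm hη (by rw [h2]; linarith)) hη
        linarith
      · rw [if_neg hvS, zero_add]
        have b1 : df (Sum.inr v : Pl K) B x = 0 := KR.df_eq_zero hx (by rw [hSx]; exact hvS)
        have b2 : df (Sum.inr v : Pl K) B y = 0 := KR.df_eq_zero hy (by rw [hSy]; exact hvS)
        rw [b1, b2] at h2
        by_cases hvZ : v ∈ Z
        · rw [if_pos hvZ]
          have hN := abs_le.1 (hNZ (Sum.inr v) ((inr_mem_Spl Z v).2 hvZ) C)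
          have h3 : max (lg (Sum.inr v : Pl K) g) 0 ≤ η :=
            max_le (Gap_le hm hη (by rw [h2]; linarith)) hη
          linarith
        · rw [if_neg hvZ, zero_add]
          rcases hZ with hZ | ⟨hZ1, hZ2⟩
          · rw [if_pos hZ]
            have h3 : lg (Sum.inr v : Pl K) g ≤ df (Sum.inr v : Pl K) C y / m := by
              rw [le_div_iff₀ hm0]
              linarith
            exact hu.trans (max_le h3 (div_nonneg hCy0 hm0.le))
          · have b3 : df (Sum.inr v : Pl K) C x = 0 := KR.df_eq_zero hx (by rw [← hZ1]; exact hvZ)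
            have b4 : df (Sum.inr v : Pl K) C y = 0 := KR.df_eq_zero hy (by rw [← hZ2]; exact hvZ)
            rw [b3, b4] at h2
            have h3 : lg (Sum.inr v : Pl K) g = 0 := by
              have : (m : ℝ) * lg (Sum.inr v : Pl K) g = 0 := by rw [h2]; ring
              rcases mul_eq_zero.1 this with h | h
              · exact absurd h hm0.ne'
              · exact h
            rw [h3, max_self] at hu
            exact hu.trans nO
  -- summation
  have s1 : ∑ w : InfinitePlace K, lg (Sum.inl w : Pl K) (g - 1) ≤ 2 * e1 + 3 * e3 * η - aw A x := by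
    refine (Finset.sum_le_sum fun w _ => hinf w).trans (le_of_eq ?_)
    rw [Finset.sum_sub_distrib, Finset.sum_add_distrib, ← Finset.mul_sum, ← Finset.sum_mul,
      Finset.sum_const, Finset.card_univ, nsmul_eq_mul, he1, he3]
    unfold KR.aw dK
    ring
  have s2 : ∑ v ∈ V, lg (Sum.inr v : Pl K) (g - 1) ≤
      -(∑ v ∈ T, df (Sum.inr v : Pl K) A x) + (T.card : ℝ) * η + e2 + (S.card : ℝ) * η +
        (Z.card : ℝ) * η + q := by
    refine (Finset.sum_le_sum fun v _ => hfin v).trans ?_
    rw [Finset.sum_add_distrib, Finset.sum_add_distrib, Finset.sum_add_distrib,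
      Finset.sum_ite_mem, Finset.sum_ite_mem, Finset.sum_ite_mem, Finset.inter_eq_right.2 hTV,
      Finset.inter_eq_right.2 hSV, Finset.inter_eq_right.2 hZV, Finset.sum_add_distrib,
      Finset.sum_add_distrib, Finset.sum_neg_distrib, Finset.sum_const, Finset.sum_const,
      Finset.sum_const, nsmul_eq_mul, nsmul_eq_mul, nsmul_eq_mul]
    have h1 := KR.sum_natCast_ge T (e := m) (by omega)
    have h2 : ∑ v ∈ V, (if Z = ∅ then df (Sum.inr v : Pl K) C y / m else 0) ≤ q := by
      by_cases hZ0 : Z = ∅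
      · rw [Finset.sum_congr rfl fun v _ => if_pos hZ0, ← Finset.sum_div]
        refine le_trans ?_ (hqZ hZ0)
        refine div_le_div_of_nonneg_right ?_ hm0.le
        have h3 := sum_df hy hVy C
        rw [sum_Spl] at h3
        have h4 : 0 ≤ ∑ w : InfinitePlace K, df (Sum.inl w : Pl K) C y :=
          Finset.sum_nonneg fun w _ => df_nonneg _ C hy
        linarith
      · rw [Finset.sum_congr rfl fun v _ => if_neg hZ0, Finset.sum_const_zero]
        exact hq0
    rw [← he2] at h1
    linarith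
  obtain ⟨N, hN⟩ : ∃ N : ℝ, N = (S.card : ℝ) + T.card + Z.card := ⟨_, rfl⟩
  have hN0 : 0 ≤ N := by rw [hN]; positivity
  have h3 : ∑ v ∈ T, df (Sum.inr v : Pl K) A x + aw A x ≤ q + 2 * e1 + e2 + (3 * e3 + N) * η := by
    rw [hN]
    linarith
  refine h3.trans ?_
  rw [← hN]
  have h4 : 0 ≤ (2 * e1 + e2 + 3 * e3) * (N * η) := by positivity
  have h5 : 0 ≤ (2 * e1 + e2 + 1) * η := by positivity
  nlinarith

end Pool.Agent.TH876.NP
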