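import Mathlib
import Pool.Agent.TH876.NP.Def
import Pool.Agent.TH876.KR.Lte
import Pool.Agent.TH876.KR.Sector
import Pool.Agent.TH876.KR.Cells

set_option autoImplicit false

/-!
# Classes of elements whose `m`-th powers are near one (job 4336)
-/

namespace Pool.Agent.TH876.NP

open NumberField IsDedekindDomain Finset Pool.Agent.H691R3 Pool.Agent.TH876.Loc
open Pool.Agent.TH876.KR (side rr aw Sc Near qt)

variable {K : Type} [Field K] [NumberField K]

theorem Roots_fv_eq (v : Pr K) (x : K) : fv v x =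
    (WithZeroMulInt.toNNReal (HeightOneSpectrum.absNorm_ne_zero v) (v.valuation K x) : ℝ) :=
  NumberField.FinitePlace.norm_embedding' (v := v) (x := x)

theorem Roots_fv_le (v : Pr K) {x y : K} (h : v.valuation K x ≤ v.valuation K y) :
    fv v x ≤ fv v y := by
  rw [Roots_fv_eq, Roots_fv_eq]
  exact_mod_cast (WithZeroMulInt.toNNReal_strictMono
    (HeightOneSpectrum.one_lt_absNorm_nnreal v)).monotone h

theorem Roots_val_le_one (v : Pr K) {x : K} (h : fv v x ≤ 1) : v.valuation K x ≤ 1 := by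
  by_contra hcon
  rw [not_le] at hcon
  have h1 : fv v (1 : K) < fv v x := by
    rw [Roots_fv_eq, Roots_fv_eq]
    exact_mod_cast (WithZeroMulInt.toNNReal_strictMono
      (HeightOneSpectrum.one_lt_absNorm_nnreal v)) (by rw [map_one]; exact hcon)
  rw [map_one] at h1
  exact absurd h (not_le.2 h1)

theorem Roots_approx (v : Pr K) (t : K) (ht : fv v t ≤ 1) :
    ∃ a : 𝓞 K, fv v ((a : K) - t) ≤ fv v ((pv v : ℕ) : K) ^ 2 := by
  have hp : v.valuation K (((pv v : ℕ) : K) ^ 2) ≠ 0 :=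
    (Valuation.ne_zero_iff _).2 (pow_ne_zero _ (Nat.cast_ne_zero.2 (pv_prime v).ne_zero))
  obtain ⟨a, ha⟩ := v.exists_valuation_sub_lt_of_integer (Roots_val_le_one v ht)
    (Units.mk0 _ hp)
  refine ⟨a, ?_⟩
  rw [← map_pow]
  exact Roots_fv_le v ha.le

theorem Roots_fv_int (v : Pr K) (a : 𝓞 K) : fv v (a : K) ≤ 1 :=
  NumberField.FinitePlace.norm_le_one K v a

theorem Roots_unit (v : Pr K) {m : ℕ} (hm : 1 ≤ m) {t : K} (h : fv v (t ^ m - 1) < 1) :
    fv v t = 1 := by
  have h1 : fv v (t ^ m) ≤ 1 := by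
    have h2 := fv_na v (t ^ m - 1) 1
    rw [sub_add_cancel, map_one] at h2
    exact h2.trans (max_le h.le le_rfl)
  have h2 : 1 ≤ fv v (t ^ m) := by
    have h3 := fv_na v (t ^ m) (-(t ^ m - 1))
    rw [(fv v).map_neg] at h3
    have h4 : t ^ m + -(t ^ m - 1) = 1 := by ring
    rw [h4, map_one] at h3
    rcases le_max_iff.1 h3 with h5 | h5
    · exact h5
    · exact absurd h5 (not_le.2 h)
  have h3 : fv v t ^ m = 1 := by rw [← map_pow]; exact le_antisymm h1 h2
  exact (pow_eq_one_iff_of_nonneg ((fv v).nonneg t) (by omega)).1 h3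

theorem Roots_pow_sub (v : Pr K) {x y : K} (hx : fv v x ≤ 1) (hy : fv v y ≤ 1) (n : ℕ) :
    fv v (x ^ n - y ^ n) ≤ fv v (x - y) := by
  rw [← geom_sum₂_mul, map_mul]
  have h1 : fv v (∑ i ∈ range n, x ^ i * y ^ (n - 1 - i)) ≤ 1 := by
    refine fv_sum_le v _ _ _ zero_le_one fun i _ => ?_
    rw [map_mul, map_pow, map_pow]
    exact mul_le_one₀ (pow_le_one₀ ((fv v).nonneg _) hx) (pow_nonneg ((fv v).nonneg _) _)
      (pow_le_one₀ ((fv v).nonneg _) hy)
  calc _ ≤ 1 * fv v (x - y) := mul_le_mul_of_nonneg_right h1 ((fv v).nonneg _)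
    _ = _ := one_mul _

theorem Roots_tame (v : Pr K) {m : ℕ} (hm : fv v ((m : ℕ) : K) = 1) {g : K} (hg : fv v g ≤ 1)
    (h : fv v (g - 1) < 1) : fv v (g - 1) * fv v ((m : ℕ) : K) ≤ fv v (g ^ m - 1) := by
  have h1 : g ^ m - 1 = (∑ i ∈ range m, g ^ i) * (g - 1) := (geom_sum_mul g m).symm
  have h2 : fv v (∑ i ∈ range m, (g ^ i - 1)) ≤ fv v (g - 1) := by
    refine fv_sum_le v _ _ _ ((fv v).nonneg _) fun i _ => ?_
    have := Roots_pow_sub v hg (show fv v (1 : K) ≤ 1 by rw [map_one]) i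
    rwa [one_pow] at this
  have h3 : ((m : ℕ) : K) = ∑ i ∈ range m, g ^ i + -(∑ i ∈ range m, (g ^ i - 1)) := by
    rw [Finset.sum_sub_distrib]
    simp
  have h4 := fv_na v (∑ i ∈ range m, g ^ i) (-(∑ i ∈ range m, (g ^ i - 1)))
  rw [← h3, hm, (fv v).map_neg] at h4
  have h5 : 1 ≤ fv v (∑ i ∈ range m, g ^ i) := by
    rcases le_max_iff.1 h4 with h6 | h6
    · exact h6
    · exact absurd (h6.trans h2) (not_le.2 h)
  rw [h1, hm, mul_one, map_mul]
  calc fv v (g - 1) = 1 * fv v (g - 1) := (one_mul _).symm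
    _ ≤ _ := mul_le_mul_of_nonneg_right h5 ((fv v).nonneg _)

theorem Roots_div (v : Pr K) {t t' : K} (h' : fv v t' = 1) :
    fv v (t / t' - 1) = fv v (t - t') := by
  have h0 : t' ≠ 0 := by
    rintro rfl
    rw [map_zero] at h'
    exact zero_ne_one h'
  have h1 : t / t' - 1 = (t - t') / t' := by field_simp
  rw [h1, map_div₀, h', div_one]

theorem Roots_local (v : Pr K) (m : ℕ) (hm : 1 ≤ m) : ∃ (L : K → ℕ) (b : ℕ), 1 ≤ b ∧
    (fv v ((m : ℕ) : K) = 1 → b ≤ m) ∧ (∀ t, fv v (t ^ m - 1) < 1 → L t < b) ∧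
    ∀ t t', fv v (t ^ m - 1) < 1 → fv v (t' ^ m - 1) < 1 → L t = L t' →
      fv v (t / t' - 1) * fv v ((m : ℕ) : K) ≤ fv v ((t / t') ^ m - 1) := by
  classical
  have hex : ∀ t : K, ∃ a : 𝓞 K, fv v t ≤ 1 →
      fv v ((a : K) - t) ≤ fv v ((pv v : ℕ) : K) ^ 2 := by
    intro t
    by_cases ht : fv v t ≤ 1
    · obtain ⟨a, ha⟩ := Roots_approx v t ht
      exact ⟨a, fun _ => ha⟩
    · exact ⟨0, fun h => absurd h ht⟩
  choose a ha using hex
  have hp1 : fv v ((pv v : ℕ) : K) < 1 := KR.fv_pv_lt_one v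
  have hp2 : fv v ((pv v : ℕ) : K) ^ 2 < 1 := pow_lt_one₀ ((fv v).nonneg _) hp1 (by norm_num)
  have hdiff : ∀ t t' : K, fv v t ≤ 1 → fv v t' ≤ 1 → ∀ B : ℝ, fv v ((pv v : ℕ) : K) ^ 2 ≤ B →
      fv v ((a t : K) - (a t' : K)) ≤ B → fv v (t - t') ≤ B := by
    intro t t' ht ht' B hB h
    have h1 : t - t' = (-((a t : K) - t) + ((a t : K) - (a t' : K))) + ((a t' : K) - t') := by ring
    rw [h1]
    refine (fv_na v _ _).trans (max_le ((fv_na v _ _).trans (max_le ?_ h)) ?_)
    · rw [(fv v).map_neg]; exact (ha t ht).trans hB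
    · exact (ha t' ht').trans hB
  by_cases hm1 : fv v ((m : ℕ) : K) = 1
  · -- roots of unity in the residue field
    have _ := v.isPrime
    let S : Finset (𝓞 K ⧸ v.asIdeal) := (Polynomial.nthRoots m (1 : 𝓞 K ⧸ v.asIdeal)).toFinset
    have hS : ∀ x : 𝓞 K ⧸ v.asIdeal, x ∈ S ↔ x ^ m = 1 := by
      intro x
      rw [Multiset.mem_toFinset, Polynomial.mem_nthRoots (by omega)]
    have hScard : S.card ≤ m := (Multiset.toFinset_card_le _).trans (Polynomial.card_nthRoots m 1)
    have hmem : ∀ t, fv v (t ^ m - 1) < 1 → Ideal.Quotient.mk v.asIdeal (a t) ∈ S := by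
      intro t ht
      rw [hS, ← map_pow, ← map_one (Ideal.Quotient.mk v.asIdeal), Ideal.Quotient.eq]
      rw [← NumberField.FinitePlace.norm_lt_one_iff_mem K v]
      change fv v ((a t ^ m - 1 : 𝓞 K) : K) < 1
      have h0 := Roots_unit v hm ht
      have h1 : ((a t ^ m - 1 : 𝓞 K) : K) = ((a t : K) ^ m - t ^ m) + (t ^ m - 1) := by
        push_cast; ring
      rw [h1]
      refine (fv_na v _ _).trans_lt (max_lt ?_ ht)
      exact (Roots_pow_sub v (Roots_fv_int v _) h0.le m).trans_lt ((ha t h0.le).trans_lt hp2)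
    refine ⟨fun t => if h : Ideal.Quotient.mk v.asIdeal (a t) ∈ S then (S.equivFin ⟨_, h⟩ : ℕ)
      else 0, S.card, ?_, fun _ => hScard, ?_, ?_⟩
    · exact Finset.card_pos.2 ⟨1, (hS 1).2 (one_pow m)⟩
    · intro t ht
      beta_reduce
      rw [dif_pos (hmem t ht)]
      exact (S.equivFin ⟨_, hmem t ht⟩).2
    · intro t t' ht ht' he
      beta_reduce at he
      rw [dif_pos (hmem t ht), dif_pos (hmem t' ht')] at he
      have h1 := congrArg Subtype.val (S.equivFin.injective (Fin.ext he))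
      change Ideal.Quotient.mk v.asIdeal (a t) = Ideal.Quotient.mk v.asIdeal (a t') at h1
      rw [Ideal.Quotient.eq, ← NumberField.FinitePlace.norm_lt_one_iff_mem K v] at h1
      change fv v ((a t - a t' : 𝓞 K) : K) < 1 at h1
      have hu := Roots_unit v hm ht
      have hu' := Roots_unit v hm ht'
      have h2 : fv v (t - t') ≤ max (fv v ((pv v : ℕ) : K) ^ 2) (fv v ((a t - a t' : 𝓞 K) : K)) := by
        refine hdiff t t' hu.le hu'.le _ (le_max_left _ _) ?_
        refine le_trans (le_of_eq ?_) (le_max_right _ _)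
        push_cast
        rfl
      refine Roots_tame v hm1 ?_ ?_
      · rw [map_div₀, hu, hu', div_one]
      · rw [Roots_div v hu']
        exact h2.trans_lt (max_lt hp2 h1)
  · -- classes modulo `p ^ 2`
    let I : Ideal (𝓞 K) := Ideal.span {((pv v : ℕ) : 𝓞 K) ^ 2}
    have hI : I ≠ ⊥ := by
      rw [Ne, Ideal.span_singleton_eq_bot]
      exact pow_ne_zero _ (Nat.cast_ne_zero.2 (pv_prime v).ne_zero)
    have _ : Finite (𝓞 K ⧸ I) := Ideal.finiteQuotientOfFreeOfNeBot I hI
    refine ⟨fun t => (Finite.equivFin (𝓞 K ⧸ I) (Ideal.Quotient.mk I (a t)) : ℕ),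
      Nat.card (𝓞 K ⧸ I), ?_, fun h => absurd h hm1, fun t _ => Fin.is_lt _, ?_⟩
    · exact Nat.card_pos
    · intro t t' ht ht' he
      have h1 := (Finite.equivFin (𝓞 K ⧸ I)).injective (Fin.ext he)
      rw [Ideal.Quotient.eq, Ideal.mem_span_singleton] at h1
      obtain ⟨c, hc⟩ := h1
      have hu := Roots_unit v hm ht
      have hu' := Roots_unit v hm ht'
      have h2 : fv v ((a t : K) - (a t' : K)) ≤ fv v ((pv v : ℕ) : K) ^ 2 := by
        have h3 : (a t : K) - (a t' : K) = ((pv v : ℕ) : K) ^ 2 * (c : K) := by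
          have := congrArg (fun x : 𝓞 K => (x : K)) hc
          push_cast at this
          exact this
        rw [h3, map_mul, map_pow]
        calc _ ≤ fv v ((pv v : ℕ) : K) ^ 2 * 1 :=
              mul_le_mul_of_nonneg_left (Roots_fv_int v c) (pow_nonneg ((fv v).nonneg _) _)
          _ = _ := mul_one _
      refine KR.lte v hm ?_
      rw [Roots_div v hu']
      exact hdiff t t' hu.le hu'.le _ le_rfl h2

theorem Roots_aux (m : ℕ) (hm : 2 ≤ m) : ∃ C : ℕ, 1 ≤ C ∧ ∀ (T : Finset (Pr K)) (F : Finset K),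
  (∀ t ∈ F, t ≠ 0 ∧ ∀ v ∈ T, fv v (t ^ m - 1) < 1) →
  ∃ f : K → ℕ, (∀ t ∈ F, f t < C ^ (T.card + 1)) ∧ ∀ t ∈ F, ∀ t' ∈ F, f t = f t' →
    (∀ v ∈ T, fv v (t / t' - 1) * fv v ((m : ℕ) : K) ≤ fv v ((t / t') ^ m - 1)) ∧
    ∀ w : InfinitePlace K, w (t / t' - 1) ≤ w ((t / t') ^ m - 1) := by
  classical
  have hm0 : ((m : ℕ) : K) ≠ 0 := Nat.cast_ne_zero.2 (by omega)
  choose L b hb1 hbm hLb hL using fun v : Pr K => Roots_local v m (by omega)
  obtain ⟨s, hs1, hs2⟩ := KR.sector_index m (by omega)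
  set B : Finset (Pr K) := (fv_support_finite hm0).toFinset with hB
  have hBm : ∀ v, v ∉ B → b v ≤ m := by
    intro v hv
    refine hbm v ?_
    by_contra h
    exact hv (by rw [hB, Set.Finite.mem_toFinset]; exact h)
  set P : ℕ := ∏ v ∈ B, b v with hP
  set W : ℕ := (8 * m + 1) ^ Fintype.card (InfinitePlace K) with hW
  have hP1 : 1 ≤ P := Finset.one_le_prod' fun v _ => hb1 v
  have hW1 : 1 ≤ W := Nat.one_le_pow _ _ (by omega)
  refine ⟨m * P * W, ?_, ?_⟩
  · exact Nat.mul_pos (Nat.mul_pos (by omega) hP1) hW1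
  · intro T F hF
    let c : K → (T → ℕ) × (InfinitePlace K → ℕ) := fun t =>
      (fun v => L v.1 t, fun w => s (w.embedding t))
    obtain ⟨f, hf1, hf2⟩ := KR.number F c
    refine ⟨f, ?_, ?_⟩
    · intro t ht
      refine (hf1 t ht).trans_le ?_
      have hsub : F.image c ⊆ (Fintype.piFinset fun v : T => Finset.range (b v.1)) ×ˢ
          (Fintype.piFinset fun _ : InfinitePlace K => Finset.range (8 * m + 1)) := by
        intro g hg
        obtain ⟨y, hy, rfl⟩ := Finset.mem_image.1 hg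
        rw [Finset.mem_product, Fintype.mem_piFinset, Fintype.mem_piFinset]
        exact ⟨fun v => Finset.mem_range.2 (hLb v.1 y ((hF y hy).2 v.1 v.2)),
          fun w => Finset.mem_range.2 (hs1 _)⟩
      refine (Finset.card_le_card hsub).trans ?_
      rw [Finset.card_product, Fintype.card_piFinset, Fintype.card_piFinset]
      simp only [Finset.card_range, Finset.prod_const, Finset.card_univ]
      rw [← hW, Finset.prod_coe_sort T (fun v => b v)]
      have h1 : ∏ v ∈ T, b v ≤ m ^ T.card * P := by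
        rw [← Finset.prod_filter_mul_prod_filter_not T (fun v => v ∈ B), mul_comm]
        refine Nat.mul_le_mul ?_ ?_
        · refine (Finset.prod_le_pow_card _ _ m fun v hv => ?_).trans ?_
          · exact hBm v (Finset.mem_filter.1 hv).2
          · exact Nat.pow_le_pow_right (by omega) (Finset.card_filter_le _ _)
        · refine Finset.prod_le_prod_of_subset_of_one_le' ?_ fun v _ _ => hb1 v
          intro v hv
          exact (Finset.mem_filter.1 hv).2
      calc (∏ v ∈ T, b v) * W ≤ (m ^ T.card * P) * W := Nat.mul_le_mul_right _ h1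
        _ ≤ (m * P * W) ^ T.card * (m * P * W) := by
            have h2 : m ^ T.card ≤ (m * P * W) ^ T.card := by
              refine Nat.pow_le_pow_left ?_ _
              calc m = m * 1 * 1 := by ring
                _ ≤ m * P * W := Nat.mul_le_mul (Nat.mul_le_mul_left _ hP1) hW1
            have h3 : P * W ≤ m * P * W := by
              rw [mul_assoc]
              exact Nat.le_mul_of_pos_left _ (by omega)
            calc m ^ T.card * P * W = m ^ T.card * (P * W) := by ring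
              _ ≤ _ := Nat.mul_le_mul h2 h3
        _ = _ := (pow_succ _ _).symm
    · intro t ht t' ht' he
      have h1 := hf2 t ht t' ht' he
      have h2 := congrArg Prod.fst h1
      have h3 := congrArg Prod.snd h1
      refine ⟨fun v hv => ?_, fun w => ?_⟩
      · exact hL v t t' ((hF t ht).2 v hv) ((hF t' ht').2 v hv) (congrFun h2 ⟨v, hv⟩)
      · have h4 : s (w.embedding t) = s (w.embedding t') := congrFun h3 w
        have h5 : w.embedding t ≠ 0 := (map_ne_zero _).2 (hF t ht).1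
        have h6 : w.embedding t' ≠ 0 := (map_ne_zero _).2 (hF t' ht').1
        have h7 := KR.sector (by omega : 1 ≤ m) (hs2 _ _ h5 h6 h4)
        rw [← InfinitePlace.norm_embedding_eq, ← InfinitePlace.norm_embedding_eq, map_sub,
          map_sub, map_pow, map_div₀, map_one]
        exact h7

variable (K)

theorem roots : RootsS K := fun m hm => Roots_aux m hm

end Pool.Agent.TH876.NP
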