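import Mathlib
import Pool.Agent.TH876.NP.Def
import Pool.Agent.TH876.KR.Cells
import Pool.Agent.TH876.KR.CardP

set_option autoImplicit false

/-!
# The count at one scale with given sets of primes (job 4341)
-/

namespace Pool.Agent.TH876.NP

open NumberField IsDedekindDomain Finset Pool.Agent.H691R3 Pool.Agent.TH876.Loc
open Pool.Agent.TH876.KR (side rr aw Sc Near qt)

section

variable {K : Type} [Field K] [NumberField K]

/-- two different points with the same data are impossible -/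
theorem Scale_pair {m k k1 : ℕ} (hm : 2 ≤ m) (hk : 1 ≤ k) (hk1 : 1 ≤ k1) {c : ℝ} (hc : 0 ≤ c)
    (hck : c * k ≤ k1) {A B C : Fin 3}
    (hgap : ∀ (x y g : K) (S T Z : Finset (Pr K)) (η : ℝ), Pt x → Pt y → x ≠ y → g ≠ 0 →
      qt C B x = qt C B y * g ^ m → side B x = S → side B y = S → T ⊆ side A x → T ⊆ side A y →
      (Z = ∅ ∨ (Z = side C x ∧ Z = side C y)) → 0 ≤ η →
      Near S η x y → Near T η x y → Near Z η x y →
      (∀ v ∈ T, fv v (g - 1) * fv v ((m : ℕ) : K) ≤ fv v (g ^ m - 1)) →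
      (∀ w : InfinitePlace K, w (g - 1) ≤ w (g ^ m - 1)) →
      ∀ q : ℝ, 0 ≤ q → (Z = ∅ → hgt y / m ≤ q) →
      ∑ v ∈ T, df (Sum.inr v : Pl K) A x + aw A x ≤
        q + c * (1 + ((S.card : ℝ) + T.card + Z.card + 1) * η))
    {l : ℝ} (hl : 4 * c * k + 1 ≤ l) {S T Z U : Finset (Pr K)} (hS : S ⊆ U) (hT : T ⊆ U)
    (hZ : Z ⊆ U) {x y g : K} (hx : Pt x) (hy : Pt y) (hxy : x ≠ y) (hg : g ≠ 0)
    (hq : qt C B x = qt C B y * g ^ m) (sx : side B x = S) (sy : side B y = S)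
    (tx : T ⊆ side A x) (ty : T ⊆ side A y)
    (hz : (Z = ∅ ∧ (1 / (m : ℝ) + 1 / k) * hgt x ≤ ∑ v ∈ T, df (Sum.inr v : Pl K) A x + aw A x) ∨
      (Z ≠ ∅ ∧ Z = side C x ∧ Z = side C y ∧
        1 / (k : ℝ) * hgt x ≤ ∑ v ∈ T, df (Sum.inr v : Pl K) A x + aw A x))
    (scx : Sc k l x) (scy : Sc k l y) (hn : Near U (l / (16 * k1 * (Spl U).card)) x y)
    (g1 : ∀ v ∈ T, fv v (g - 1) * fv v ((m : ℕ) : K) ≤ fv v (g ^ m - 1))
    (g2 : ∀ w : InfinitePlace K, w (g - 1) ≤ w (g ^ m - 1)) : False := by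
  have hk0 : (1 : ℝ) ≤ k := by exact_mod_cast hk
  have hk10 : (1 : ℝ) ≤ k1 := by exact_mod_cast hk1
  have hm0 : (2 : ℝ) ≤ m := by exact_mod_cast hm
  have hck0 : 0 ≤ c * k := mul_nonneg hc (by linarith)
  have hl0 : 0 < l := by nlinarith
  obtain ⟨r, hr⟩ : ∃ r, r = Fintype.card (InfinitePlace K) := ⟨_, rfl⟩
  have hr1 : 1 ≤ r := by rw [hr]; exact Fintype.card_pos
  obtain ⟨t, ht⟩ : ∃ t, t = (Spl U).card := ⟨_, rfl⟩
  have htr : t = r + U.card := by rw [ht, card_Spl, hr]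
  rw [← ht] at hn
  obtain ⟨η, hη⟩ : ∃ η, η = l / (16 * k1 * t) := ⟨_, rfl⟩
  rw [← hη] at hn
  have ht0 : (0 : ℝ) < t := by exact_mod_cast (show 0 < t by omega)
  have hη0 : 0 ≤ η := by rw [hη]; positivity
  have htη : t * η = l / (16 * k1) := by rw [hη]; field_simp
  have hcard : (S.card : ℝ) + T.card + Z.card + 1 ≤ 3 * t := by
    have a1 := card_le_card hS
    have a2 := card_le_card hT
    have a3 := card_le_card hZ
    have : S.card + T.card + Z.card + 1 ≤ 3 * t := by omega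
    exact_mod_cast this
  have hX : ((S.card : ℝ) + T.card + Z.card + 1) * η ≤ 3 * l / (16 * k1) := by
    calc ((S.card : ℝ) + T.card + Z.card + 1) * η ≤ 3 * t * η := mul_le_mul_of_nonneg_right hcard hη0
      _ = 3 * (t * η) := by ring
      _ = 3 * l / (16 * k1) := by rw [htη]; ring
  have hP : k * (c * (1 + ((S.card : ℝ) + T.card + Z.card + 1) * η)) ≤ 7 / 16 * l - 1 / 4 := by
    have e1 : c * (1 + ((S.card : ℝ) + T.card + Z.card + 1) * η) ≤ c * (1 + 3 * l / (16 * k1)) :=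
      mul_le_mul_of_nonneg_left (by linarith) hc
    have e2 : k * (c * (1 + 3 * l / (16 * k1))) = c * k + (c * k) * (3 * l / (16 * k1)) := by ring
    have e3 : (c * k) * (3 * l / (16 * k1)) ≤ k1 * (3 * l / (16 * k1)) :=
      mul_le_mul_of_nonneg_right hck (by positivity)
    have e4 : (k1 : ℝ) * (3 * l / (16 * k1)) = 3 / 16 * l := by field_simp
    have e5 := mul_le_mul_of_nonneg_left e1 (by linarith : (0 : ℝ) ≤ k)
    nlinarith
  have nS : Near S η x y := fun v hv i => hn v (Spl_mono hS hv) i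
  have nT : Near T η x y := fun v hv i => hn v (Spl_mono hT hv) i
  have nZ : Near Z η x y := fun v hv i => hn v (Spl_mono hZ hv) i
  obtain ⟨W, hW⟩ : ∃ W, W = ∑ v ∈ T, df (Sum.inr v : Pl K) A x + aw A x := ⟨_, rfl⟩
  obtain ⟨P, hPd⟩ : ∃ P, P = c * (1 + ((S.card : ℝ) + T.card + Z.card + 1) * η) := ⟨_, rfl⟩
  rw [← hPd] at hP
  have hx1 := scx.1
  have hy2 := scy.2
  rcases hz with ⟨hz1, hz2⟩ | ⟨hz1, hz2, hz3, hz4⟩
  · have h1 := hgap x y g S T Z η hx hy hxy hg hq sx sy tx ty (Or.inl hz1) hη0 nS nT nZ g1 g2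
      (hgt y / m) (div_nonneg (hgt_nonneg y) (by linarith)) (fun _ => le_rfl)
    rw [← hW] at h1 hz2
    rw [← hPd] at h1
    have h2 : (hgt y - hgt x) / m ≤ l / (8 * k) := by
      rw [div_le_div_iff₀ (by linarith) (by linarith)]
      have h3 : hgt y - hgt x ≤ 1 / (4 * k) * l := by nlinarith
      have h4 : (hgt y - hgt x) * (8 * k) ≤ 2 * l := by
        calc (hgt y - hgt x) * (8 * k) ≤ (1 / (4 * k) * l) * (8 * k) :=
              mul_le_mul_of_nonneg_right h3 (by linarith)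
          _ = 2 * l := by field_simp; ring
      nlinarith
    have h5 : hgt x / k ≤ l / (8 * k) + P := by
      have e1 : (1 / (m : ℝ) + 1 / k) * hgt x = hgt x / m + hgt x / k := by ring
      have e2 : (hgt y - hgt x) / m = hgt y / m - hgt x / m := by ring
      rw [e1] at hz2
      rw [e2] at h2
      linarith
    have h6 := mul_le_mul_of_nonneg_left h5 (by linarith : (0 : ℝ) ≤ k)
    have e3 : (k : ℝ) * (hgt x / k) = hgt x := by field_simp
    have e4 : (k : ℝ) * (l / (8 * k) + P) = l / 8 + k * P := by field_simp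
    rw [e3, e4] at h6
    linarith
  · have h1 := hgap x y g S T Z η hx hy hxy hg hq sx sy tx ty (Or.inr ⟨hz2, hz3⟩) hη0 nS nT nZ g1 g2
      0 le_rfl (fun h => absurd h hz1)
    rw [← hW] at h1 hz4
    rw [← hPd] at h1
    have h5 : 1 / k * hgt x ≤ P := by linarith
    have h6 := mul_le_mul_of_nonneg_left h5 (by linarith : (0 : ℝ) ≤ k)
    have e3 : (k : ℝ) * (1 / k * hgt x) = hgt x := by field_simp
    rw [e3] at h6
    linarith

/-- the ratio is close to one at the primes of the side `A` -/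
theorem Scale_near_one {x : K} (hx : Pt x) {A B C : Fin 3} (hAB : A ≠ B) (hBC : B ≠ C) (hAC : A ≠ C)
    {v : Pr K} (hv : v ∈ side A x) : fv v (qt C B x - 1) < 1 ∧ fv v (qt C B x) = 1 := by
  have hB : df (Sum.inr v : Pl K) B x = 0 :=
    KR.df_eq_zero hx fun h => hAB (KR.side_uniq hv h)
  have hC : df (Sum.inr v : Pl K) C x = 0 :=
    KR.df_eq_zero hx fun h => hAC (KR.side_uniq hv h)
  have hA := (KR.mem_side hx).1 hv
  constructor
  · have hne : qt C B x - 1 ≠ 0 := by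
      rw [KR.qt_sub hx hAC hBC.symm hAB]
      exact div_ne_zero (L_ne hx A) (L_ne hx B)
    rw [KR.exp_lg_fin v hne, KR.lg_qt_sub hx hAC hBC.symm hAB, hB, Real.exp_lt_one_iff]
    linarith
  · rw [KR.exp_lg_fin v (KR.qt_ne hx C B), KR.lg_qt hx, hB, hC, sub_zero, Real.exp_zero]

open Classical in
/-- the orders of the ratio -/
theorem Scale_pow {m : ℕ} {S0 : Finset (Pr K)} {B C : Fin 3} {x : K} (hx : Pt x)
    (h : ∀ v : Pr K, v ∉ S0 → ∃ a : ℕ,
      df (Sum.inr v : Pl K) C x = ((m * a : ℕ) : ℝ) * Real.log (Nv v)) :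
    PowOut m (side B x ∪ S0) (qt C B x) := by
  intro v hv
  rw [Finset.mem_union, not_or] at hv
  obtain ⟨a, ha⟩ := h v hv.2
  refine ⟨-(a : ℤ), ?_⟩
  rw [KR.exp_lg_fin v (KR.qt_ne hx C B), KR.lg_qt hx, KR.df_eq_zero hx hv.1, ha]
  have h3 : (Nv v) ^ ((m : ℤ) * (-(a : ℤ))) = Real.exp (Real.log ((Nv v) ^ ((m : ℤ) * (-(a : ℤ))))) :=
    (Real.exp_log (zpow_pos (Nv_pos v) _)).symm
  rw [h3, Real.log_zpow]
  congr 1
  push_cast
  ring

end

variable (K : Type) [Field K] [NumberField K]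

open Classical in
/-- the count with a fixed kind of weight -/
theorem Scale_core (h1 : ClassesS K) (h2 : RootsS K) (h3 : GapS K) (m k : ℕ) (S0 : Finset (Pr K))
    (hm : 2 ≤ m) (hk : 1 ≤ k) : ∃ (C : ℕ) (l0 : ℝ), 1 ≤ C ∧ 1 ≤ l0 ∧
    ∀ A B C' : Fin 3, A ≠ B → B ≠ C' → A ≠ C' → ∀ l : ℝ, l0 ≤ l →
    ∀ (S T Z : Finset (Pr K)) (F : Finset K),
    (∀ x ∈ F, Pt x ∧ PowOut m (S ∪ S0) (qt C' B x) ∧ T ⊆ side A x ∧ side B x = S ∧ Sc k l x ∧
      ((Z = ∅ ∧ (1 / (m : ℝ) + 1 / k) * hgt x ≤ ∑ v ∈ T, df (Sum.inr v : Pl K) A x + aw A x) ∨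
      (Z ≠ ∅ ∧ Z = side C' x ∧
        1 / (k : ℝ) * hgt x ≤ ∑ v ∈ T, df (Sum.inr v : Pl K) A x + aw A x))) →
    F.card ≤ C ^ (S.card + T.card + Z.card + 1) := by
  obtain ⟨C1, hC1, hcl⟩ := h1 m hm
  obtain ⟨C2, hC2, hro⟩ := h2 m hm
  obtain ⟨c, hc, hgap⟩ := h3 m hm
  obtain ⟨k1, hk1⟩ := exists_nat_ge (c * k + 1)
  have hk0 : (1 : ℝ) ≤ k := by exact_mod_cast hk
  have hck0 : 0 ≤ c * k := mul_nonneg hc (by linarith)
  have hk1' : 1 ≤ k1 := by
    have : (1 : ℝ) ≤ k1 := by linarith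
    exact_mod_cast this
  obtain ⟨r, hr⟩ : ∃ r, r = Fintype.card (InfinitePlace K) := ⟨_, rfl⟩
  refine ⟨C1 ^ (S0.card + 1) * C2 * 2 ^ (99 * k1 * (r + 1)), 4 * c * k + 1, ?_, by linarith, ?_⟩
  · exact Nat.one_le_iff_ne_zero.2 (by positivity)
  intro A B C' hAB hBC hAC l hl S T Z F hF
  have hl0 : 0 < l := by linarith
  set U := S ∪ T ∪ Z with hU
  have hSU : S ⊆ U := Finset.subset_union_left.trans Finset.subset_union_left
  have hTU : T ⊆ U := Finset.subset_union_right.trans Finset.subset_union_left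
  have hZU : Z ⊆ U := Finset.subset_union_right
  obtain ⟨f1, hf1, hf1'⟩ := hcl (S ∪ S0) (F.image (qt C' B)) (by
    intro r hr
    obtain ⟨x, hx, rfl⟩ := Finset.mem_image.1 hr
    exact ⟨KR.qt_ne (hF x hx).1 C' B, (hF x hx).2.1⟩)
  obtain ⟨f3, hf3, hf3'⟩ := KR.cells hk1' U hl0 F (by
    intro x hx
    exact ⟨(hF x hx).1, (hF x hx).2.2.2.2.1.le_two hk hl0.le⟩)
  have key : ∀ j ∈ F.image (fun x => f1 (qt C' B x)),
      (F.filter (fun x => f1 (qt C' B x) = j)).card ≤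
        C2 ^ (T.card + 1) * 2 ^ (99 * k1 * (Spl U).card) := by
    intro j hj
    obtain ⟨x0, hx0, hj0⟩ := Finset.mem_image.1 hj
    have hex : ∀ x : K, ∃ t : K, x ∈ F → f1 (qt C' B x) = j →
        t ≠ 0 ∧ qt C' B x = qt C' B x0 * t ^ m := by
      intro x
      by_cases hx : x ∈ F ∧ f1 (qt C' B x) = j
      · obtain ⟨t, ht, ht'⟩ := hf1' _ (Finset.mem_image_of_mem _ hx.1) _
          (Finset.mem_image_of_mem _ hx0) (hx.2.trans hj0.symm)
        exact ⟨t, fun _ _ => ⟨ht, ht'⟩⟩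
      · exact ⟨0, fun h h' => absurd ⟨h, h'⟩ hx⟩
    choose t ht using hex
    obtain ⟨f2, hf2, hf2'⟩ := hro T ((F.filter (fun x => f1 (qt C' B x) = j)).image t) (by
      intro s hs
      obtain ⟨x, hx, rfl⟩ := Finset.mem_image.1 hs
      obtain ⟨hxF, hxj⟩ := Finset.mem_filter.1 hx
      obtain ⟨a1, a2⟩ := ht x hxF hxj
      refine ⟨a1, fun v hv => ?_⟩
      obtain ⟨b1, b2⟩ := Scale_near_one (hF x hxF).1 hAB hBC hAC ((hF x hxF).2.2.1 hv)
      obtain ⟨b3, b4⟩ := Scale_near_one (hF x0 hx0).1 hAB hBC hAC ((hF x0 hx0).2.2.1 hv)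
      have hr0 := KR.qt_ne (hF x0 hx0).1 C' B
      have e1 : qt C' B x0 * (t x ^ m - 1) = (qt C' B x - 1) - (qt C' B x0 - 1) := by
        rw [a2]; ring
      have e2 : fv v (t x ^ m - 1) = fv v ((qt C' B x - 1) - (qt C' B x0 - 1)) := by
        rw [← e1, map_mul, b4, one_mul]
      rw [e2, sub_eq_add_neg]
      refine lt_of_le_of_lt (fv_na v _ _) (max_lt b1 ?_)
      rw [(fv v).map_neg]
      exact b3)
    rw [← Finset.card_range (C2 ^ (T.card + 1)), ← Finset.card_range (2 ^ (99 * k1 * (Spl U).card)),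
      ← Finset.card_product]
    refine Finset.card_le_card_of_injOn (fun x => (f2 (t x), f3 x)) ?_ ?_
    · intro x hx
      obtain ⟨hxF, hxj⟩ := Finset.mem_filter.1 (Finset.mem_coe.1 hx)
      rw [Finset.mem_coe, Finset.mem_product]
      refine ⟨Finset.mem_range.2 (hf2 _ (Finset.mem_image_of_mem _ (Finset.mem_coe.1 hx))),
        Finset.mem_range.2 (hf3 x hxF)⟩
    · intro x hx y hy hxy
      have hx' := Finset.mem_coe.1 hx
      have hy' := Finset.mem_coe.1 hy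
      obtain ⟨hxF, hxj⟩ := Finset.mem_filter.1 hx'
      obtain ⟨hyF, hyj⟩ := Finset.mem_filter.1 hy'
      have e1 : f2 (t x) = f2 (t y) := congrArg Prod.fst hxy
      have e2 : f3 x = f3 y := congrArg Prod.snd hxy
      by_contra hne
      obtain ⟨a1, a2⟩ := ht x hxF hxj
      obtain ⟨b1, b2⟩ := ht y hyF hyj
      obtain ⟨g1, g2⟩ := hf2' _ (Finset.mem_image_of_mem _ hx') _ (Finset.mem_image_of_mem _ hy') e1
      obtain ⟨px, _, tx, sx, scx, wx⟩ := hF x hxF
      obtain ⟨py, _, ty, sy, scy, wy⟩ := hF y hyF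
      refine Scale_pair hm hk hk1' hc (by linarith) (hgap A B C' hAB hBC hAC) hl hSU hTU hZU px py hne
        (div_ne_zero a1 b1) ?_ sx sy tx ty ?_ scx scy (hf3' x hxF y hyF e2) g1 g2
      · rw [a2, b2, div_pow, mul_assoc, mul_div_cancel₀ _ (pow_ne_zero m b1)]
      · rcases wx with wx | wx
        · exact Or.inl wx
        · rcases wy with wy | wy
          · exact absurd wy.1 wx.1
          · exact Or.inr ⟨wx.1, wx.2.1, wy.2.1, wx.2.2⟩
  have hmain := Finset.card_le_mul_card_image F _ key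
  have himg : (F.image (fun x => f1 (qt C' B x))).card ≤ C1 ^ ((S ∪ S0).card + 1) := by
    rw [← Finset.card_range (C1 ^ ((S ∪ S0).card + 1))]
    apply Finset.card_le_card
    intro j hj
    obtain ⟨x, hx, rfl⟩ := Finset.mem_image.1 hj
    exact Finset.mem_range.2 (hf1 _ (Finset.mem_image_of_mem _ hx))
  refine hmain.trans ((Nat.mul_le_mul_left _ himg).trans ?_)
  obtain ⟨n, hn⟩ : ∃ n, n = S.card + T.card + Z.card + 1 := ⟨_, rfl⟩
  rw [← hn, mul_pow, mul_pow, ← pow_mul, ← pow_mul]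
  have hn1 : 1 ≤ n := by omega
  have a1 : C1 ^ ((S ∪ S0).card + 1) ≤ C1 ^ ((S0.card + 1) * n) := by
    apply Nat.pow_le_pow_right hC1
    have := Finset.card_union_le S S0
    have h5 : S0.card * 1 ≤ S0.card * n := Nat.mul_le_mul_left _ hn1
    have h6 : (S0.card + 1) * n = S0.card * n + n := by ring
    omega
  have a2 : C2 ^ (T.card + 1) ≤ C2 ^ n := Nat.pow_le_pow_right hC2 (by omega)
  have a3 : 2 ^ (99 * k1 * (Spl U).card) ≤ 2 ^ (99 * k1 * (r + 1) * n) := by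
    apply Nat.pow_le_pow_right (by norm_num)
    rw [mul_assoc (99 * k1)]
    apply Nat.mul_le_mul_left
    rw [card_Spl, ← hr]
    have h4 : U.card ≤ S.card + T.card + Z.card := by
      rw [hU]
      have b1 := Finset.card_union_le (S ∪ T) Z
      have b2 := Finset.card_union_le S T
      omega
    have h5 : r * 1 ≤ r * n := Nat.mul_le_mul_left _ hn1
    have h6 : (r + 1) * n = r * n + n := by ring
    omega
  calc C2 ^ (T.card + 1) * 2 ^ (99 * k1 * (Spl U).card) * C1 ^ ((S ∪ S0).card + 1) ≤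
        C2 ^ n * 2 ^ (99 * k1 * (r + 1) * n) * C1 ^ ((S0.card + 1) * n) :=
          Nat.mul_le_mul (Nat.mul_le_mul a2 a3) a1
    _ = _ := by ring

theorem scale (h1 : ClassesS K) (h2 : RootsS K) (h3 : GapS K) : ScaleS K := by
  classical
  intro m k S0 hm hk
  obtain ⟨C1, l1, hC1, hl1, H1⟩ := Scale_core K h1 h2 h3 m k S0 hm hk
  obtain ⟨C2, l2, hC2, hl2, H2⟩ := Scale_core K h1 h2 h3 (2 * k) (2 * k) S0 (by omega) (by omega)
  refine ⟨2 * k, C1 + C2, max l1 l2, by omega, by omega, le_max_of_le_left hl1, ?_⟩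
  intro A B C' hAB hBC hAC l hl S T Z F hF
  have hl1' : l1 ≤ l := (le_max_left _ _).trans hl
  have hl2' : l2 ≤ l := (le_max_right _ _).trans hl
  have hl0 : 0 < l := by linarith
  have hk0 : (1 : ℝ) ≤ k := by exact_mod_cast hk
  have hsc : ∀ x : K, Sc (2 * k) l x → Sc k l x := by
    intro x hx
    refine ⟨hx.1, hx.2.trans (mul_le_mul_of_nonneg_right ?_ hl0.le)⟩
    have : 1 / (4 * ((2 * k : ℕ) : ℝ)) ≤ 1 / (4 * (k : ℝ)) := by
      apply one_div_le_one_div_of_le (by linarith)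
      push_cast
      linarith
    linarith
  obtain ⟨n, hn⟩ : ∃ n, n = S.card + T.card + Z.card + 1 := ⟨_, rfl⟩
  have hgoal : F.card ≤ (C1 + C2) ^ n → (F.card : ℝ) ≤ ((C1 + C2 : ℕ) : ℝ) ^ (S.card + T.card + Z.card + 1) := by
    intro h
    rw [← hn]
    exact_mod_cast h
  apply hgoal
  by_cases hZ : Z = ∅
  · have hp := Finset.card_filter_add_card_filter_not (s := F) (fun x => (1 / (m : ℝ) + 1 / k) * hgt x ≤
      ∑ v ∈ T, df (Sum.inr v : Pl K) A x + aw A x)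
    have b1 := H1 A B C' hAB hBC hAC l hl1' S T Z (F.filter (fun x => (1 / (m : ℝ) + 1 / k) * hgt x ≤
      ∑ v ∈ T, df (Sum.inr v : Pl K) A x + aw A x)) (by
        intro x hx
        obtain ⟨hxF, hxw⟩ := Finset.mem_filter.1 hx
        obtain ⟨hg, hs, hsx⟩ := hF x hxF
        refine ⟨hg.pt, ?_, hg.sub, hs, hsc x hsx, Or.inl ⟨hZ, hxw⟩⟩
        rw [← hs]
        exact Scale_pow hg.pt hg.pow)
    have b2 := H2 A B C' hAB hBC hAC l hl2' S T Z (F.filter (fun x => ¬ ((1 / (m : ℝ) + 1 / k) * hgt x ≤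
      ∑ v ∈ T, df (Sum.inr v : Pl K) A x + aw A x))) (by
        intro x hx
        obtain ⟨hxF, hxw⟩ := Finset.mem_filter.1 hx
        obtain ⟨hg, hs, hsx⟩ := hF x hxF
        rcases hg.wt with ⟨_, hw⟩ | ⟨hz, hw⟩
        · exact absurd hw hxw
        refine ⟨hg.pt, ?_, hg.sub, hs, hsx, Or.inl ⟨hZ, ?_⟩⟩
        · rw [← hs]
          refine Scale_pow hg.pt fun v _ => ⟨0, ?_⟩
          rw [KR.df_eq_zero hg.pt (by rw [← hz, hZ]; exact Finset.notMem_empty v)]
          simp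
        · refine le_trans (le_of_eq ?_) hw
          push_cast
          field_simp
          ring)
    rw [← hn] at b1 b2
    have b3 : C1 ^ n + C2 ^ n ≤ (C1 + C2) ^ n := by
      have hn1 : n ≠ 0 := by omega
      obtain ⟨n', rfl⟩ := Nat.exists_eq_succ_of_ne_zero hn1
      rw [Nat.succ_eq_add_one, pow_succ, pow_succ, pow_succ, mul_add]
      exact add_le_add (Nat.mul_le_mul_right _ (Nat.pow_le_pow_left (by omega) _))
        (Nat.mul_le_mul_right _ (Nat.pow_le_pow_left (by omega) _))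
    omega
  · have b1 := H1 A B C' hAB hBC hAC l hl1' S T Z F (by
        intro x hxF
        obtain ⟨hg, hs, hsx⟩ := hF x hxF
        refine ⟨hg.pt, ?_, hg.sub, hs, hsc x hsx, ?_⟩
        · rw [← hs]
          exact Scale_pow hg.pt hg.pow
        · rcases hg.wt with ⟨hz, _⟩ | ⟨hz, hw⟩
          · exact absurd hz hZ
          · exact Or.inr ⟨hZ, hz, hw⟩)
    rw [← hn] at b1
    exact b1.trans (Nat.pow_le_pow_left (by omega) _)

end Pool.Agent.TH876.NP
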