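import Mathlib
import Pool.Agent.TH876.NP.Def

set_option autoImplicit false

namespace Pool.Agent.TH876.NP

open NumberField IsDedekindDomain Finset Pool.Agent.H691R3 Pool.Agent.TH876.Loc
open Pool.Agent.TH876.KR (side rr aw Sc Near qt)

private theorem Three_arith {M mu L a b c : ℝ} (hM : 0 < M) (hmu : mu * (2 * M + 1) = M + 1)
    (hL : a + b + c ≤ L) (hab : b ≤ a) : b + a / M ≤ mu * L ∨ b + c ≤ mu * L := by
  by_contra hcon
  push Not at hcon
  obtain ⟨h1, h2⟩ := hcon
  have hD : 0 < 2 * M + 1 := by linarith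
  have h1' : M * (mu * L) < M * b + a := by
    have h := mul_lt_mul_of_pos_left h1 hM
    have e : M * (b + a / M) = M * b + a := by field_simp
    linarith
  have h5 : (M + 1) * (mu * L) < M * b + L := by linarith
  have h6 : mu * L + b < L := by linarith
  have e1 : (2 * M + 1) * (mu * L) = (M + 1) * L := by linear_combination L * hmu
  have h7 : (M + 1) * ((M + 1) * L) < (2 * M + 1) * (M * b + L) := by
    have h := mul_lt_mul_of_pos_left h5 hD
    have e : (2 * M + 1) * ((M + 1) * (mu * L)) = (M + 1) * ((M + 1) * L) := by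
      linear_combination (M + 1) * e1
    linarith
  have h8 : (M + 1) * L + (2 * M + 1) * b < (2 * M + 1) * L := by
    have h := mul_lt_mul_of_pos_left h6 hD
    linarith
  have h9 : M * (M * L) < M * ((2 * M + 1) * b) := by linarith
  have h10 : M * L < (2 * M + 1) * b := lt_of_mul_lt_mul_left h9 hM.le
  linarith

private theorem Three_sides (C : Fin 3) (f : Fin 3 → ℝ) : ∃ A B : Fin 3, A ≠ B ∧ B ≠ C ∧ A ≠ C ∧
    f B ≤ f A ∧ f 0 + f 1 + f 2 = f A + f B + f C := by
  have key : ∃ i j : Fin 3, i ≠ j ∧ j ≠ C ∧ i ≠ C ∧ f 0 + f 1 + f 2 = f i + f j + f C := by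
    fin_cases C
    · exact ⟨1, 2, by decide, by decide, by decide, by simp only [Fin.zero_eta]; ring⟩
    · exact ⟨0, 2, by decide, by decide, by decide, by simp only [Fin.mk_one]; ring⟩
    · exact ⟨0, 1, by decide, by decide, by decide, rfl⟩
  obtain ⟨i, j, h1, h2, h3, h4⟩ := key
  rcases le_total (f j) (f i) with h | h
  · exact ⟨i, j, h1, h2, h3, h, h4⟩
  · exact ⟨j, i, h1.symm, h3, h2, h, by rw [h4]; ring⟩

private theorem Three_pow {N X y mu e k : ℝ} (hN : 1 ≤ N) (hX : 1 ≤ X) (hy : 1 ≤ y)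
    (hmu1 : mu ≤ 1) (he : 0 < e) (hk1 : k ≤ 1) (hke : k ≤ e / 2) :
    (N ^ 3 * min y X * X ^ (mu + k)) ^ (1 + e / 6) ≤
      (N ^ 3) ^ (1 + e / 6) * (y * X ^ (mu + e)) := by
  have hX0 : 0 < X := by linarith
  have hm1 : 1 ≤ min y X := le_min hy hX
  have hm0 : 0 < min y X := by linarith
  have hN3 : 0 ≤ N ^ 3 := by positivity
  rw [Real.mul_rpow (by positivity) (by positivity), Real.mul_rpow hN3 hm0.le, mul_assoc]
  refine mul_le_mul_of_nonneg_left ?_ (Real.rpow_nonneg hN3 _)
  have h1 : (min y X) ^ (1 + e / 6) ≤ y * X ^ (e / 6) := by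
    rw [Real.rpow_add hm0, Real.rpow_one]
    refine mul_le_mul (min_le_left _ _) ?_ (Real.rpow_nonneg hm0.le _) (by linarith)
    exact Real.rpow_le_rpow hm0.le (min_le_right _ _) (by linarith)
  calc (min y X) ^ (1 + e / 6) * (X ^ (mu + k)) ^ (1 + e / 6)
      ≤ (y * X ^ (e / 6)) * (X ^ (mu + k)) ^ (1 + e / 6) :=
        mul_le_mul_of_nonneg_right h1 (Real.rpow_nonneg (Real.rpow_nonneg hX0.le _) _)
    _ = y * X ^ (e / 6 + (mu + k) * (1 + e / 6)) := by
        rw [← Real.rpow_mul hX0.le, mul_assoc, ← Real.rpow_add hX0]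
    _ ≤ y * X ^ (mu + e) := by
        refine mul_le_mul_of_nonneg_left ?_ (by linarith)
        refine Real.rpow_le_rpow_of_exponent_le hX ?_
        have h2 : mu * e ≤ e := by nlinarith
        have h3 : k * e ≤ e := by nlinarith
        nlinarith

variable (K : Type) [Field K] [NumberField K]

theorem three (h1 : ChooseS K) (h2 : CoreS K) : ThreeS K := by
  classical
  intro m S0 ε hm hε
  obtain ⟨k, hk⟩ := exists_nat_gt (2 / ε + 2)
  have hk2 : (2 : ℝ) ≤ k := by
    have : 0 < 2 / ε := by positivity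
    linarith
  have hk1 : 1 ≤ k := by
    have : (1 : ℝ) ≤ k := by linarith
    exact_mod_cast this
  have hk0 : (0 : ℝ) < k := by linarith
  have hkinv : 1 / (k : ℝ) ≤ 1 / 2 := one_div_le_one_div_of_le (by norm_num) hk2
  have hkε : 1 / (k : ℝ) ≤ ε / 2 := by
    rw [div_le_iff₀ hk0]
    have h3 : 2 / ε ≤ k := by linarith
    have h4 : (ε / 2) * (2 / ε) = 1 := by field_simp
    nlinarith
  have hm2 : (2 : ℝ) ≤ m := by exact_mod_cast hm
  have hm0 : (0 : ℝ) < m := by linarith
  set mu : ℝ := ((m : ℝ) + 1) / (2 * m + 1) with hmu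
  have hD : (0 : ℝ) < 2 * m + 1 := by linarith
  have hmuD : mu * (2 * (m : ℝ) + 1) = m + 1 := by rw [hmu]; field_simp
  have hmu0 : 0 ≤ mu := by rw [hmu]; positivity
  have hmu1 : mu ≤ 1 := by rw [hmu, div_le_one hD]; linarith
  obtain ⟨C0, hC0, hcore⟩ := h2 m k S0 (ε / 6) hm hk1 (by positivity)
  set N0 : ℝ := nn S0 with hN0
  have hN1 : 1 ≤ N0 := one_le_nn S0
  refine ⟨C0 * (N0 ^ 3) ^ (1 + ε / 6), by positivity, ?_⟩
  intro X y H hX hy hH F hF
  have hX0 : 0 < X := by linarith
  have hmin : 1 ≤ min y X := le_min hy hX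
  set R : ℝ := N0 ^ 3 * min y X * X ^ (mu + 1 / (k : ℝ)) with hR
  have hXp : 1 ≤ X ^ (mu + 1 / (k : ℝ)) := Real.one_le_rpow hX (by positivity)
  have hR1 : 1 ≤ R := by
    have e1 : 1 ≤ N0 ^ 3 := one_le_pow₀ hN1
    have e2 : 1 ≤ N0 ^ 3 * min y X := one_le_mul_of_one_le_of_one_le e1 hmin
    exact one_le_mul_of_one_le_of_one_le e2 hXp
  have hlogR : Real.log R = 3 * Real.log N0 + Real.log (min y X) +
      (mu + 1 / (k : ℝ)) * Real.log X := by
    rw [hR, Real.log_mul (by positivity) (by positivity), Real.log_mul (by positivity)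
      (by positivity), Real.log_pow, Real.log_rpow hX0]
    push_cast
    ring
  have hlN : 0 ≤ Real.log N0 := Real.log_nonneg hN1
  have hlX : 0 ≤ Real.log X := Real.log_nonneg hX
  have hfin := hcore R H hR1 hH F (by
    intro x hx
    obtain ⟨hpt, hht, C', hpow, hT⟩ := hF x hx
    refine ⟨hht, ?_⟩
    obtain ⟨A, B, hAB, hBC, hAC, hBA, hsum⟩ := Three_sides C' (fun i => rr i x)
    refine ⟨A, B, C', hAB, hBC, hAC, ?_⟩
    set V : Finset (Pr K) := (sp x).filter (fun v => v ∉ S0) with hV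
    obtain ⟨hVX, hVy⟩ := hT V (fun v hv => ⟨(Finset.mem_filter.1 hv).2,
      (Finset.mem_filter.1 hv).1⟩)
    -- the sum of the logarithms
    have hL : rr A x + rr B x + rr C' x ≤ Real.log X + Real.log N0 := by
      rw [← hsum, KR.rr_sum' hpt, ← Real.log_mul (by positivity) (by positivity)]
      refine Real.log_le_log (nn_pos _) ?_
      have hdis : Disjoint V S0 := by
        rw [Finset.disjoint_left]
        exact fun v hv => (Finset.mem_filter.1 hv).2
      calc nn (sp x) ≤ nn (V ∪ S0) := by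
            refine nn_mono fun v hv => ?_
            by_cases h : v ∈ S0
            · exact Finset.mem_union_right _ h
            · exact Finset.mem_union_left _ (Finset.mem_filter.2 ⟨hv, h⟩)
        _ = nn V * nn S0 := nn_union hdis
        _ ≤ X * N0 := mul_le_mul_of_nonneg_right hVX (nn_pos _).le
    have hA0 := KR.rr_nonneg A x
    have hB0 := KR.rr_nonneg B x
    have hC'0 := KR.rr_nonneg C' x
    -- the size of the primes of the side `A`
    set y' : ℝ := min y X * N0 with hy'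
    have hy1 : 1 ≤ y' := one_le_mul_of_one_le_of_one_le hmin hN1
    have hAy : ∀ v ∈ side A x, Nv v ≤ y' := by
      intro v hv
      have hvs : v ∈ sp x := KR.side_sub A x hv
      by_cases h : v ∈ S0
      · have e1 : Nv v ≤ N0 := Nv_le_nn h
        nlinarith
      · have hvV : v ∈ V := Finset.mem_filter.2 ⟨hvs, h⟩
        have e1 : Nv v ≤ y := hVy v hvV fun hc => hAC (KR.side_uniq hv hc)
        have e2 : Nv v ≤ X := (Nv_le_nn hvV).trans hVX
        have e3 : Nv v ≤ min y X := le_min e1 e2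
        nlinarith
    have hly : Real.log y' = Real.log (min y X) + Real.log N0 :=
      Real.log_mul (by positivity) (by positivity)
    -- the cost
    have cost : ∀ (T Z : Finset (Pr K)) (u : ℝ), Real.log (nn T) ≤ u →
        rr B x + u + Real.log (nn Z) ≤ Real.log R → nn (side B x) * nn T * nn Z ≤ R := by
      intro T Z u hu hc
      have hB : Real.log (nn (side B x)) = rr B x := KR.log_nn _
      rw [← Real.log_le_log_iff (mul_pos (mul_pos (nn_pos _) (nn_pos _)) (nn_pos _))
        (by linarith), Real.log_mul (mul_pos (nn_pos _) (nn_pos _)).ne' (nn_pos _).ne',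
        Real.log_mul (nn_pos _).ne' (nn_pos _).ne', hB]
      linarith
    have hpowC : ∀ v : Pr K, v ∉ S0 → ∃ a : ℕ,
      df (Sum.inr v : Pl K) C' x = ((m * a : ℕ) : ℝ) * Real.log (Nv v) := hpow
    have hAL : rr A x ≤ Real.log X + Real.log N0 := by linarith
    have hkL : rr A x * (1 / (k : ℝ)) ≤ (Real.log X + Real.log N0) * (1 / (k : ℝ)) :=
      mul_le_mul_of_nonneg_right hAL (by positivity)
    have hkN : Real.log N0 * (1 / (k : ℝ)) ≤ Real.log N0 := by nlinarith
    have hmuN : mu * Real.log N0 ≤ Real.log N0 := by nlinarith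
    rcases Three_arith hm0 hmuD hL hBA with hopt | hopt
    · -- first option
      obtain ⟨T, hTA, hTw, hTl⟩ := h1 A x (1 / (m : ℝ) + 1 / k) y' hpt (by positivity) (by
        have : 1 / (m : ℝ) ≤ 1 / 2 := one_div_le_one_div_of_le (by norm_num) hm2
        linarith) hy1 hAy
      refine ⟨T, ∅, ⟨hpt, hpowC, hTA, Or.inl ⟨rfl, hTw⟩⟩,
        cost T ∅ ((1 / (m : ℝ) + 1 / k) * rr A x + Real.log y') ?_ ?_⟩
      · rw [KR.log_nn]
        exact hTl
      · have e0 : Real.log (nn (∅ : Finset (Pr K))) = 0 := by rw [KR.log_nn]; simp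
        rw [e0, hlogR, hly]
        have e1 : (1 / (m : ℝ) + 1 / k) * rr A x = rr A x / m + rr A x * (1 / (k : ℝ)) := by
          ring
        rw [e1]
        linarith
    · -- second option
      obtain ⟨T, hTA, hTw, hTl⟩ := h1 A x (1 / (k : ℝ)) y' hpt (by positivity) (by linarith)
        hy1 hAy
      refine ⟨T, side C' x, ⟨hpt, hpowC, hTA, Or.inr ⟨rfl, hTw⟩⟩,
        cost T (side C' x) (1 / (k : ℝ) * rr A x + Real.log y') ?_ ?_⟩
      · rw [KR.log_nn]
        exact hTl
      · have e0 : Real.log (nn (side C' x)) = rr C' x := KR.log_nn _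
        rw [e0, hlogR, hly]
        have e1 : 1 / (k : ℝ) * rr A x = rr A x * (1 / (k : ℝ)) := mul_comm _ _
        rw [e1]
        linarith)
  have hlH : 0 ≤ 1 + Real.log H := by
    have := Real.log_nonneg hH
    linarith
  refine hfin.trans ?_
  have hp := Three_pow (N := N0) (X := X) (y := y) (mu := mu) (e := ε) (k := 1 / (k : ℝ)) hN1 hX hy
    hmu1 hε (by linarith) hkε
  have h5 : C0 * R ^ (1 + ε / 6) ≤ C0 * (N0 ^ 3) ^ (1 + ε / 6) * y * X ^ (mu + ε) := by
    calc C0 * R ^ (1 + ε / 6) ≤ C0 * ((N0 ^ 3) ^ (1 + ε / 6) * (y * X ^ (mu + ε))) :=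
          mul_le_mul_of_nonneg_left hp hC0.le
      _ = _ := by ring
  exact mul_le_mul_of_nonneg_right h5 hlH

end Pool.Agent.TH876.NP
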