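import Mathlib
import Pool.Agent.TH876.NP.Def2
import Pool.Agent.TH402.AK.Base

set_option autoImplicit false

/-!
# Triples in lowest terms from the count by the radical of the three sides
(job 4420 of helper876, written by helper558)
-/

namespace Pool.Agent.TH876.NP

open NumberField IsDedekindDomain Finset Pool.Agent.H691R3 Pool.Agent.TH876.Loc

open Pool.Agent.TH402.AK in
/-- the local contribution to the height at a prime -/
theorem Trip_mx {K : Type} [Field K] [NumberField K] {a b : 𝓞 K} (h : Tri a b) (v : Pr K) :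
    mx (Sum.inr v : Pl K) (pt a b) = - Real.log (fv v (b : K)) := by
  have hb0 := coe_ne h.b0
  have hbpos : 0 < fv v (b : K) := (fv v).pos hb0
  have hM : M (Sum.inr v : Pl K) (pt a b) = 1 / fv v (b : K) := by
    show max (fv v (pt a b)) (max (fv v (1 : K)) (fv v (-(pt a b) - 1))) = _
    have e1 : -(pt a b) - 1 = -(pt a b + 1) := by ring
    rw [e1, (fv v).map_neg, pt_add_one h.b0]
    unfold pt
    rw [map_div₀, map_div₀, map_one]
    have h3 := fv_le_one v a
    have h4 := fv_le_one v b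
    have h5 := fv_le_one v (a + b)
    have h6 : (1 : ℝ) ≤ 1 / fv v (b : K) := by
      rw [le_div_iff₀ hbpos, one_mul]
      exact h4
    refine le_antisymm ?_ ?_
    · refine max_le ?_ (max_le h6 ?_)
      · exact div_le_div_of_nonneg_right h3 hbpos.le
      · exact div_le_div_of_nonneg_right h5 hbpos.le
    · by_cases hbm : b ∈ v.asIdeal
      · have ha : a ∉ v.asIdeal := fun ha => not_both h.cop v ha hbm
        rw [(fv_eq_one_iff v a).2 ha]
        exact le_max_left _ _
      · rw [(fv_eq_one_iff v b).2 hbm]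
        norm_num
  unfold mx
  rw [hM]
  show 1 * Real.log (1 / fv v (b : K)) = _
  rw [one_mul, one_div, Real.log_inv]

/-- the member of the triple with the index `i` -/
noncomputable def Trip_mem {K : Type} [Field K] [NumberField K] (a b c : 𝓞 K) (i : Fin 3) : 𝓞 K :=
  ![a, b, c] i

open Pool.Agent.TH402.AK in
theorem Trip_df {K : Type} [Field K] [NumberField K] {a b c : 𝓞 K} (h : Tri a b)
    (hs : a + b + c = 0) (v : Pr K) (i : Fin 3) :
    df (Sum.inr v : Pl K) i (pt a b) = - Real.log (fv v (Trip_mem a b c i : K)) := by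
  have hb0 := coe_ne h.b0
  have hbpos : 0 < fv v (b : K) := (fv v).pos hb0
  have hc : c = -(a + b) := by linear_combination hs
  have hc0 : c ≠ 0 := by
    rw [hc]
    exact neg_ne_zero.2 h.c0
  have key : ∀ r : 𝓞 K, r ≠ 0 → lg (Sum.inr v : Pl K) ((r : K) / (b : K)) =
      Real.log (fv v (r : K)) - Real.log (fv v (b : K)) := by
    intro r hr
    show 1 * Real.log (fv v ((r : K) / (b : K))) = _
    rw [one_mul, map_div₀, Real.log_div ((fv v).pos (coe_ne hr)).ne' hbpos.ne']
  unfold df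
  rw [Trip_mx h]
  have hL : L i (pt a b) = (Trip_mem a b c i : K) / (b : K) := by
    fin_cases i
    · rfl
    · show (1 : K) = (b : K) / (b : K)
      rw [div_self hb0]
    · show -(pt a b) - 1 = (c : K) / (b : K)
      have e1 : -(pt a b) - 1 = -(pt a b + 1) := by ring
      rw [e1, pt_add_one h.b0, hc]
      push_cast
      ring
  have hne : Trip_mem a b c i ≠ 0 := by
    fin_cases i
    · exact h.a0
    · exact h.b0
    · exact hc0
  rw [hL, key _ hne]
  ring

/-- sums over the embeddings and over the places at infinity -/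
theorem Trip_sum {K : Type} [Field K] [NumberField K] (g : InfinitePlace K → ℝ) :
    ∑ φ : K →+* ℂ, g (InfinitePlace.mk φ) = ∑ w : InfinitePlace K, (w.mult : ℝ) * g w := by
  classical
  rw [← Finset.sum_fiberwise_of_maps_to (s := (univ : Finset (K →+* ℂ)))
    (t := (univ : Finset (InfinitePlace K))) (g := fun φ => InfinitePlace.mk φ)
    (fun φ _ => mem_univ _)]
  apply Finset.sum_congr rfl
  intro w _
  have h1 : ∀ φ ∈ univ.filter (fun φ : K →+* ℂ => InfinitePlace.mk φ = w),
      g (InfinitePlace.mk φ) = g w := by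
    intro φ hφ
    rw [(mem_filter.1 hφ).2]
  rw [Finset.sum_congr rfl h1, Finset.sum_const, nsmul_eq_mul]
  congr 2
  exact InfinitePlace.card_filter_mk_eq w

open Pool.Agent.TH402.AK in
theorem Trip_hgt {K : Type} [Field K] [NumberField K] {a b c : 𝓞 K} (h : Tri a b)
    (hs : a + b + c = 0) :
    hgt (pt a b) = Real.log (∏ φ : K →+* ℂ, max ‖φ a‖ (max ‖φ b‖ ‖φ c‖)) := by
  have hc : c = -(a + b) := by linear_combination hs
  rw [h.hgt, Real.log_prod]
  · rw [← Trip_sum (fun w => Real.log (max (w (a : K)) (max (w (b : K)) (w ((a + b : 𝓞 K) : K)))))]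
    apply Finset.sum_congr rfl
    intro φ _
    rw [InfinitePlace.apply, InfinitePlace.apply, InfinitePlace.apply, hc]
    have : ‖φ ((-(a + b) : 𝓞 K) : K)‖ = ‖φ ((a + b : 𝓞 K) : K)‖ := by
      rw [show ((-(a + b) : 𝓞 K) : K) = -((a + b : 𝓞 K) : K) by push_cast; ring, map_neg, norm_neg]
    rw [this]
  · intro φ _
    have h1 : 0 < ‖φ (a : K)‖ := by
      rw [norm_pos_iff]
      exact (map_ne_zero φ).2 (coe_ne h.a0)
    exact (lt_of_lt_of_le h1 (le_max_left _ _)).ne'

open Pool.Agent.TH402.AK in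
theorem Trip_unit {K : Type} [Field K] [NumberField K] (v : Pr K) (u : (𝓞 K)ˣ) :
    fv v ((u : 𝓞 K) : K) = 1 := by
  rw [fv_eq_one_iff]
  intro h
  exact v.isPrime.ne_top (Ideal.eq_top_of_isUnit_mem _ h u.isUnit)

open Pool.Agent.TH402.AK in
theorem Trip_pow {K : Type} [Field K] [NumberField K] (v : Pr K) (m : ℕ) (u : (𝓞 K)ˣ) {z : 𝓞 K}
    (hz : z ≠ 0) : ∃ e : ℕ, - Real.log (fv v (((u : 𝓞 K) * z ^ m : 𝓞 K) : K)) =
      ((m * e : ℕ) : ℝ) * Real.log (Nv v) := by
  obtain ⟨n, hn⟩ := log_fv v (coe_ne hz)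
  have hlog : 0 < Real.log (Nv v) := Real.log_pos (by linarith [two_le_Nv v])
  have h1 : Real.log (fv v (z : K)) ≤ 0 :=
    Real.log_nonpos ((fv v).nonneg _) (fv_le_one v z)
  have h2 : n ≤ 0 := by
    by_contra hc
    push Not at hc
    have h3 : (0 : ℝ) < n := by exact_mod_cast hc
    rw [hn] at h1
    nlinarith
  refine ⟨(-n).toNat, ?_⟩
  have h4 : (((u : 𝓞 K) * z ^ m : 𝓞 K) : K) = ((u : 𝓞 K) : K) * (z : K) ^ m := by push_cast; rfl
  rw [h4, map_mul, map_pow, Trip_unit, one_mul, Real.log_pow, hn]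
  have h5 : (((-n).toNat : ℕ) : ℝ) = -(n : ℝ) := by
    have : (((-n).toNat : ℕ) : ℤ) = -n := Int.toNat_of_nonneg (by omega)
    exact_mod_cast this
  rw [Nat.cast_mul, h5]
  ring

theorem Trip_cop {K : Type} [Field K] [NumberField K] {a b c : 𝓞 K} (hs : a + b + c = 0)
    (h : Ideal.span {a, b, c} = (⊤ : Ideal (𝓞 K))) : IsCoprime a b := by
  have h1 : (1 : 𝓞 K) ∈ Ideal.span {a, b, c} := by rw [h]; exact Submodule.mem_top
  rw [Ideal.mem_span_insert] at h1
  obtain ⟨x, r, hr, h1⟩ := h1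
  rw [Ideal.mem_span_insert] at hr
  obtain ⟨y, r', hr', h2⟩ := hr
  rw [Ideal.mem_span_singleton'] at hr'
  obtain ⟨z, h3⟩ := hr'
  have hc : c = -(a + b) := by linear_combination hs
  refine ⟨x - z, y - z, ?_⟩
  rw [h1, h2, ← h3, hc]
  ring

open Pool.Agent.TH402.AK in
theorem Trip_inj {K : Type} [Field K] [NumberField K] {a b a' b' : 𝓞 K} (h : Tri a b)
    (h' : Tri a' b') (hp : (pt a b : K) = pt a' b') :
    ∃ u : (𝓞 K)ˣ, a' = u * a ∧ b' = u * b := by
  have hb0 := coe_ne h.b0
  have hb0' := coe_ne h'.b0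
  unfold pt at hp
  rw [div_eq_div_iff hb0 hb0'] at hp
  have h1 : a * b' = a' * b := by
    apply RingOfIntegers.coe_injective
    push_cast
    exact hp
  have d1 : a ∣ a' := h.cop.dvd_of_dvd_mul_right (h1 ▸ Dvd.intro _ rfl)
  have d2 : a' ∣ a := h'.cop.dvd_of_dvd_mul_right (h1 ▸ Dvd.intro _ rfl)
  obtain ⟨u, hu⟩ := associated_of_dvd_dvd d1 d2
  refine ⟨u, by rw [← hu]; ring, ?_⟩
  rw [← hu] at h1
  apply mul_left_cancel₀ h.a0
  rw [h1]
  ring

open Pool.Agent.TH402.AK in
theorem trip (K : Type) [Field K] [NumberField K] (h : ThreeS K) : TripS K := by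
  classical
  intro m ε hm hε
  obtain ⟨C, hC, hmain⟩ := h m ∅ ε hm hε
  refine ⟨C, hC, ?_⟩
  intro X y H hX hy hH E hE hinj
  have hTri : ∀ t ∈ E, Tri t.1 t.2.1 := by
    intro t ht
    have h1 := hE t ht
    have hne := h1.ne
    have hc : t.2.2 = -(t.1 + t.2.1) := by linear_combination h1.sum
    refine ⟨fun h0 => hne (by rw [h0]; ring), fun h0 => hne (by rw [h0]; ring), fun h0 => hne ?_,
      Trip_cop h1.sum h1.cop⟩
    rw [hc, h0]
    ring
  have hInj : Set.InjOn (fun t : 𝓞 K × 𝓞 K × 𝓞 K => (pt t.1 t.2.1 : K)) E := by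
    intro t ht s hs hts
    obtain ⟨u, hu1, hu2⟩ := Trip_inj (hTri t ht) (hTri s hs) hts
    have hc : t.2.2 = -(t.1 + t.2.1) := by linear_combination (hE t ht).sum
    have hc' : s.2.2 = -(s.1 + s.2.1) := by linear_combination (hE s hs).sum
    refine (hinj t ht s hs u ?_).symm
    refine Prod.ext hu1 (Prod.ext hu2 ?_)
    show s.2.2 = u * t.2.2
    rw [hc', hc, hu1, hu2]
    ring
  rw [← Finset.card_image_of_injOn hInj]
  refine hmain X y H hX hy hH _ ?_
  intro x hx
  obtain ⟨t, ht, rfl⟩ := Finset.mem_image.1 hx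
  obtain ⟨a, b, c⟩ := t
  have hT := hTri _ ht
  have hP := hE _ ht
  have hsum : a + b + c = 0 := hP.sum
  have hne : a * b * c ≠ 0 := hP.ne
  have hc : c = -(a + b) := by linear_combination hsum
  have ha0 : a ≠ 0 := hT.a0
  have hb0 : b ≠ 0 := hT.b0
  have hc0 : c ≠ 0 := fun h0 => hne (by rw [h0]; ring)
  change Tri a b at hT
  have hsp : ∀ v : Pr K, v ∈ sp (pt a b : K) ↔ a * b * c ∈ v.asIdeal := by
    intro v
    rw [hT.mem_sp, hc, mul_neg, neg_mem_iff]
  refine ⟨hT.pt, ?_, ?_⟩
  · have h1 := hP.height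
    rw [Trip_hgt hT hsum]
    exact h1
  · obtain ⟨u, z, hz⟩ := hP.pow
    have hi : ∃ i : Fin 3, Trip_mem a b c i = u * z ^ m := by
      rcases hz with hz | hz | hz
      · exact ⟨0, hz⟩
      · exact ⟨1, hz⟩
      · exact ⟨2, hz⟩
    obtain ⟨i, hi⟩ := hi
    have hz0 : z ≠ 0 := by
      rintro rfl
      have h2 : Trip_mem a b c i ≠ 0 := by
        fin_cases i
        · exact ha0
        · exact hb0
        · exact hc0
      apply h2
      rw [hi, zero_pow (by omega), mul_zero]
    refine ⟨i, ?_, ?_⟩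
    · intro v _
      obtain ⟨e, he⟩ := Trip_pow v m u hz0
      refine ⟨e, ?_⟩
      show df (Sum.inr v : Pl K) i (pt a b) = _
      rw [Trip_df hT hsum, hi]
      exact he
    · intro T hTT
      have hsub : T ⊆ sp (pt a b : K) := fun v hv => (hTT v hv).2
      constructor
      · have hrad := hP.rad
        have h3 : ∏ᶠ (P : HeightOneSpectrum (𝓞 K)) (_ : a * b * c ∈ P.asIdeal),
            (Ideal.absNorm P.asIdeal : ℝ) = nn (sp (pt a b : K)) := by
          have h4 : ∀ P : HeightOneSpectrum (𝓞 K), (a * b * c ∈ P.asIdeal) =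
              (P ∈ ((sp (pt a b : K) : Finset (Pr K)) : Set (Pr K))) := by
            intro P
            rw [Finset.mem_coe, hsp P]
          simp only [h4]
          rw [finprod_mem_coe_finset]
          rfl
        refine le_trans ?_ (le_trans (le_of_eq h3.symm) hrad)
        exact nn_mono hsub
      · intro v hv _
        exact hP.smooth v ((hsp v).1 (hsub hv))

end Pool.Agent.TH876.NP
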