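import Mathlib
import Pool.Agent.TH876.NP.Def2
import Pool.Agent.TH876.KR.Fin

set_option autoImplicit false

/-!
# The stacky line from the two radical count
-/

namespace Pool.Agent.TH876.NP

open NumberField IsDedekindDomain Finset Pool.Agent.H691R3 Pool.Agent.TH876.Loc

section Aux

variable {K : Type} [Field K] [NumberField K]

private theorem Stacky_val (v : Pr K) (x : K) :
    fv v x = ((WithZeroMulInt.toNNReal (NumberField.HeightOneSpectrum.absNorm_ne_zero v)
      (v.valuation K x) : NNReal) : ℝ) :=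
  NumberField.FinitePlace.norm_embedding' (v := v) (x := x)

private theorem Stacky_lt_one (v : Pr K) (x : K) : v.valuation K x < 1 ↔ fv v x < 1 := by
  rw [Stacky_val, NNReal.coe_lt_one]
  exact (WithZeroMulInt.toNNReal_lt_one_iff
    (NumberField.HeightOneSpectrum.one_lt_absNorm_nnreal v)).symm

private theorem Stacky_le_one (v : Pr K) (x : K) : v.valuation K x ≤ 1 ↔ fv v x ≤ 1 := by
  rw [Stacky_val, NNReal.coe_le_one]
  exact (WithZeroMulInt.toNNReal_le_one_iff
    (NumberField.HeightOneSpectrum.one_lt_absNorm_nnreal v)).symm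

private theorem Stacky_eq_one (v : Pr K) (x : K) : v.valuation K x = 1 ↔ fv v x = 1 := by
  constructor
  · intro h
    refine le_antisymm ((Stacky_le_one v x).1 h.le) (not_lt.1 fun h' => ?_)
    exact absurd ((Stacky_lt_one v x).2 h') (by rw [h]; exact lt_irrefl _)
  · intro h
    refine le_antisymm ((Stacky_le_one v x).2 h.le) (not_lt.1 fun h' => ?_)
    exact absurd ((Stacky_lt_one v x).1 h') (by rw [h]; exact lt_irrefl _)

private theorem Stacky_exp (v : Pr K) (k : ℤ) :
    ((WithZeroMulInt.toNNReal (NumberField.HeightOneSpectrum.absNorm_ne_zero v)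
      (WithZero.exp k) : NNReal) : ℝ) = Nv v ^ k := by
  have hx' : (WithZero.exp k : WithZero (Multiplicative ℤ)) ≠ 0 := WithZero.exp_ne_zero
  rw [WithZeroMulInt.toNNReal_neg_apply _ hx']
  have h2 : Multiplicative.toAdd (WithZero.unzero hx') = k := by
    have h3 : (↑(WithZero.unzero hx') : WithZero (Multiplicative ℤ)) = WithZero.exp k :=
      WithZero.coe_unzero hx'
    have h4 : WithZero.unzero hx' = Multiplicative.ofAdd k := WithZero.coe_injective h3
    rw [h4]
    rfl
  rw [h2]
  push_cast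
  rfl

private theorem Stacky_max (v : Pr K) (x : K) :
    ((WithZeroMulInt.toNNReal (NumberField.HeightOneSpectrum.absNorm_ne_zero v)
      (max (v.valuation K x) 1) : NNReal) : ℝ) = max (fv v x) 1 := by
  rcases le_total (v.valuation K x) 1 with h | h
  · rw [max_eq_right h, map_one, max_eq_right ((Stacky_le_one v x).1 h)]
    rfl
  · have h1 : 1 ≤ fv v x := by
      by_contra hc
      have := (Stacky_lt_one v x).2 (not_le.1 hc)
      exact absurd h (not_le.2 this)
    rw [max_eq_left h, max_eq_left h1, ← Stacky_val]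

private theorem Stacky_mul (v : Pr K) {x z : K} {n : ℕ}
    (h : v.valuation K z = max (v.valuation K x) 1 * WithZero.exp (-(n : ℤ))) :
    fv v z = max (fv v x) 1 * (Nv v ^ (-(n : ℤ))) := by
  rw [Stacky_val v z, h, map_mul]
  push_cast
  rw [Stacky_max, Stacky_exp]

private theorem Stacky_L2 (x : K) : L 2 (-x) = x - 1 := by
  show -(-x) - 1 = x - 1
  rw [neg_neg]

private theorem Stacky_M (v : Pr K) (x : K) : M (Sum.inr v : Pl K) (-x) = max (fv v x) 1 := by
  have h1 : fv v (x - 1) ≤ max (fv v x) 1 := by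
    have := KR.fv_sub_le v x 1
    rwa [map_one] at this
  have h2 : M (Sum.inr v : Pl K) (-x) = max (fv v (-x)) (max (fv v 1) (fv v (L 2 (-x)))) := rfl
  rw [h2, Stacky_L2, (fv v).map_neg, map_one]
  refine le_antisymm (max_le (le_max_left _ _) (max_le (le_max_right _ _) h1)) ?_
  exact max_le (le_max_left _ _) ((le_max_left _ _).trans (le_max_right _ _))

private theorem Stacky_Pt {x : K} (h0 : x ≠ 0) (h1 : x ≠ 1) : Pt (-x) := by
  refine ⟨neg_ne_zero.2 h0, fun h => h1 ?_⟩
  linear_combination -h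

private def Stacky_mat : Fin 3 × Fin 2 → K :=
  fun p => ![![-1, 0], ![0, 1], ![1, -1]] p.1 p.2

private theorem Stacky_hgt {x : K} (h0 : x ≠ 0) (h1 : x ≠ 1) :
    hgt (-x) ≤ (Height.totalWeight K * Real.log 2 + Height.logHeight (Stacky_mat (K := K))) +
      Height.logHeight₁ x := by
  refine (KR.hgt_le_logHeight (Stacky_Pt h0 h1)).trans ?_
  have h2 : (fun i : Fin 3 => L i (-x)) =
      (fun i : Fin 3 => ∑ j, Stacky_mat (K := K) (i, j) * ![x, 1] j) := by
    funext i
    rw [Fin.sum_univ_two]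
    unfold Stacky_mat L
    fin_cases i
    · simp
    · simp
    · simp
      ring
  rw [h2, Height.logHeight₁_eq_logHeight]
  refine (Height.logHeight_linearMap_apply_le (Stacky_mat (K := K)) ![x, 1]).trans ?_
  rw [Nat.card_eq_fintype_card, Fintype.card_fin]
  push_cast
  exact le_rfl

end Aux

theorem stacky (K : Type) [Field K] [NumberField K] (h : TwoS K) : StackyS K := by
  classical
  intro S hS m ε hm hε
  obtain ⟨C, hC0, hC⟩ := h m hS.toFinset ε hm hε
  obtain ⟨w, hw⟩ : ∃ w : ℝ, w = Height.totalWeight K * Real.log 2 +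
    Height.logHeight (Stacky_mat (K := K)) := ⟨_, rfl⟩
  have hw0 : 0 ≤ w := by
    rw [hw]
    exact add_nonneg (mul_nonneg (Nat.cast_nonneg _) (Real.log_nonneg (by norm_num)))
      (Height.logHeight_nonneg _)
  have hlw : 0 ≤ Real.log (1 + w) := Real.log_nonneg (by linarith)
  refine ⟨C * (1 + Real.log (1 + w)), ?_⟩
  intro X y H hX hy hH
  have hX0 : 0 < X := by linarith
  have hy0 : 0 < y := by linarith
  have hlH : 0 ≤ Real.log H := Real.log_nonneg hH
  have hH'1 : 1 ≤ (1 + w) * H := by nlinarith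
  -- the properties of the points
  have key : ∀ x ∈ StackyPts S m X y H, Pt (-x) ∧ hgt (-x) ≤ (1 + w) * H ∧
      ∃ C' : Fin 3, PowSide m hS.toFinset C' (-x) ∧
        ∀ T : Finset (Pr K), (∀ v ∈ T, v ∉ hS.toFinset ∧ v ∈ sp (-x) ∧ v ∉ KR.side C' (-x)) →
          nn T ≤ X ∧ ∀ v ∈ T, Nv v ≤ y := by
    rintro x ⟨hx0, hx1, hval, hexp, hsm, hht⟩
    have hPt := Stacky_Pt hx0 hx1
    refine ⟨hPt, ?_, 2, ?_, ?_⟩
    · have h1 := Stacky_hgt hx0 hx1
      rw [← hw] at h1
      nlinarith
    · intro v hv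
      rw [Set.Finite.mem_toFinset] at hv
      obtain ⟨a, ha⟩ := hval v hv
      refine ⟨a, ?_⟩
      have h1 := Stacky_mul v ha
      have h2 : 0 < max (fv v x) 1 := lt_of_lt_of_le one_pos (le_max_right _ _)
      rw [KR.df_inr, Stacky_M, Stacky_L2, h1, Real.log_mul h2.ne' (zpow_pos (Nv_pos v) _).ne',
        Real.log_zpow]
      push_cast
      ring
    · intro T hT
      have hT' : ∀ v ∈ T, v ∉ S ∧ v.valuation K x ≠ 1 := by
        intro v hv
        obtain ⟨h1, h2, h3⟩ := hT v hv
        rw [Set.Finite.mem_toFinset] at h1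
        refine ⟨h1, fun h4 => ?_⟩
        rw [Stacky_eq_one] at h4
        rw [mem_sp hPt, (fv v).map_neg] at h2
        apply h2
        refine ⟨h4, ?_⟩
        have e : -x + 1 = -(x - 1) := by ring
        rw [e, (fv v).map_neg]
        rw [KR.mem_side hPt, KR.df_inr, Stacky_M, Stacky_L2, h4, max_self, Real.log_one,
          zero_sub, not_lt, neg_nonpos] at h3
        have h5 : 0 < fv v (x - 1) := (fv v).pos (sub_ne_zero.2 hx1)
        have h6 : fv v (x - 1) ≤ 1 := by
          have := KR.fv_sub_le v x 1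
          rwa [map_one, h4, max_self] at this
        refine le_antisymm h6 ?_
        by_contra hc
        exact absurd h3 (not_le.2 (Real.log_neg h5 (not_le.1 hc)))
      refine ⟨?_, fun v hv => hsm v (hT' v hv).1 (hT' v hv).2⟩
      obtain ⟨I, hI⟩ : ∃ I : Set (Pr K), I = {v : Pr K | v ∉ S ∧ v.valuation K x ≠ 1} := ⟨_, rfl⟩
      have hIf : I.Finite := by
        refine (fv_support_finite hx0).subset ?_
        intro v hv
        rw [hI] at hv
        intro h1
        exact hv.2 ((Stacky_eq_one v x).2 h1)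
      have hcount : ∑ᶠ v ∈ {v : HeightOneSpectrum (𝓞 K) | v ∉ S ∧ v.valuation K x ≠ 1},
          Real.log (Ideal.absNorm v.asIdeal : ℝ) = Real.log (nn hIf.toFinset) := by
        rw [KR.log_nn, ← finsum_mem_coe_finset, Set.Finite.coe_toFinset, hI]
        rfl
      rw [hcount, Real.exp_log (nn_pos _)] at hexp
      refine (nn_mono ?_).trans hexp
      intro v hv
      rw [Set.Finite.mem_toFinset, hI]
      exact hT' v hv
  obtain ⟨B, hB⟩ : ∃ B : ℝ, B = C * y * X ^ (((m : ℝ) + 1) / (2 * m) + ε) *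
    (1 + Real.log ((1 + w) * H)) := ⟨_, rfl⟩
  have hbound : ∀ G : Finset K, (G : Set K) ⊆ StackyPts S m X y H → (G.card : ℝ) ≤ B := by
    intro G hG
    have h1 := hC X y ((1 + w) * H) hX hy hH'1 (G.image fun x => -x) (by
      intro z hz
      obtain ⟨x, hx, rfl⟩ := Finset.mem_image.1 hz
      exact key x (hG hx))
    rw [Finset.card_image_of_injective _ neg_injective] at h1
    rw [hB]
    exact h1
  have hfin : (StackyPts S m X y H).Finite := by
    by_contra hinf
    obtain ⟨G, hGV, hGc⟩ := Set.Infinite.exists_subset_card_eq hinf (⌊B⌋₊ + 1)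
    have h1 := hbound G hGV
    have h2 := Nat.lt_floor_add_one B
    rw [hGc] at h1
    push_cast at h1
    linarith
  refine ⟨hfin, ?_⟩
  rw [Set.ncard_eq_toFinset_card _ hfin]
  refine (hbound hfin.toFinset (by rw [Set.Finite.coe_toFinset])).trans ?_
  rw [hB, Real.log_mul (by linarith) (by linarith)]
  have h1 : 1 + (Real.log (1 + w) + Real.log H) ≤ (1 + Real.log (1 + w)) * (1 + Real.log H) := by
    nlinarith [mul_nonneg hlw hlH]
  calc C * y * X ^ (((m : ℝ) + 1) / (2 * m) + ε) * (1 + (Real.log (1 + w) + Real.log H))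
      ≤ C * y * X ^ (((m : ℝ) + 1) / (2 * m) + ε) *
        ((1 + Real.log (1 + w)) * (1 + Real.log H)) :=
        mul_le_mul_of_nonneg_left h1 (by positivity)
    _ = _ := by ring

end Pool.Agent.TH876.NP
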