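import Mathlib
import Pool.Agent.TH876.NP.Def

set_option autoImplicit false

/-!
# The count of the points such that the radical of two sides is small (the third one is a power)
-/

namespace Pool.Agent.TH876.NP

open NumberField IsDedekindDomain Finset Pool.Agent.H691R3 Pool.Agent.TH876.Loc
open Pool.Agent.TH876.KR (side rr aw Sc Near qt)

variable (K : Type) [Field K] [NumberField K]

/-- two other indices, ordered by a real function -/
theorem Two_idx (C' : Fin 3) (f : Fin 3 → ℝ) :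
    ∃ A B : Fin 3, A ≠ B ∧ B ≠ C' ∧ A ≠ C' ∧ f B ≤ f A := by
  have h : ∃ A B : Fin 3, A ≠ B ∧ B ≠ C' ∧ A ≠ C' := by
    fin_cases C'
    · exact ⟨1, 2, by decide, by decide, by decide⟩
    · exact ⟨0, 2, by decide, by decide, by decide⟩
    · exact ⟨0, 1, by decide, by decide, by decide⟩
  obtain ⟨A, B, h1, h2, h3⟩ := h
  rcases le_total (f B) (f A) with h | h
  · exact ⟨A, B, h1, h2, h3, h⟩
  · exact ⟨B, A, h1.symm, h3, h2, h⟩

/-- the radicals of the sides `A`, `B` and the primes of the side `A` -/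
theorem Two_rad {K : Type} [Field K] [NumberField K] {S0 : Finset (Pr K)} {x : K} {C' A B : Fin 3}
    (hAB : A ≠ B) (hBC : B ≠ C') (hAC : A ≠ C') {X y : ℝ} (hX : 1 ≤ X) (hy : 1 ≤ y)
    (h : ∀ T : Finset (Pr K), (∀ v ∈ T, v ∉ S0 ∧ v ∈ sp x ∧ v ∉ side C' x) →
      nn T ≤ X ∧ ∀ v ∈ T, Nv v ≤ y) :
    rr A x + rr B x ≤ Real.log X + Real.log (nn S0) ∧
      ∀ v ∈ side A x, Nv v ≤ min y X * nn S0 := by
  classical
  have hS0 : 1 ≤ nn S0 := one_le_nn S0
  set V : Finset (Pr K) := (sp x).filter fun v => v ∉ S0 ∧ v ∉ side C' x with hVdef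
  have hV : ∀ v ∈ V, v ∉ S0 ∧ v ∈ sp x ∧ v ∉ side C' x := by
    intro v hv
    rw [hVdef, Finset.mem_filter] at hv
    exact ⟨hv.2.1, hv.1, hv.2.2⟩
  obtain ⟨hV1, hV2⟩ := h V hV
  have hmem : ∀ i : Fin 3, i ≠ C' → ∀ v ∈ side i x, v ∉ S0 → v ∈ V := by
    intro i hi v hv hvS
    rw [hVdef, Finset.mem_filter]
    refine ⟨KR.side_sub i x hv, hvS, fun h' => hi (KR.side_uniq hv h')⟩
  constructor
  · have h1 : rr A x + rr B x = ∑ v ∈ side A x ∪ side B x, Real.log (Nv v) := by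
      rw [Finset.sum_union (KR.side_disj hAB)]
      rfl
    have h2 : side A x ∪ side B x ⊆ V ∪ S0 := by
      intro v hv
      rw [Finset.mem_union] at hv ⊢
      by_cases hvS : v ∈ S0
      · exact Or.inr hvS
      · left
        rcases hv with hv | hv
        · exact hmem A hAC v hv hvS
        · exact hmem B hBC v hv hvS
    have hdisj : Disjoint V S0 := by
      rw [Finset.disjoint_left]
      exact fun v hv => (hV v hv).1
    have h3 : ∑ v ∈ side A x ∪ side B x, Real.log (Nv v) ≤ ∑ v ∈ V ∪ S0, Real.log (Nv v) :=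
      Finset.sum_le_sum_of_subset_of_nonneg h2 fun v _ _ => (KR.log_Nv_pos' v).le
    rw [Finset.sum_union hdisj, ← KR.log_nn V, ← KR.log_nn S0] at h3
    have h4 : Real.log (nn V) ≤ Real.log X := Real.log_le_log (nn_pos V) hV1
    linarith
  · intro v hv
    have hmin : 1 ≤ min y X := le_min hy hX
    by_cases hvS : v ∈ S0
    · have h1 : Nv v ≤ nn S0 := Nv_le_nn hvS
      nlinarith
    · have hvV := hmem A hAC v hv hvS
      have h1 : Nv v ≤ y := hV2 v hvV
      have h2 : Nv v ≤ X := (Nv_le_nn hvV).trans hV1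
      have h3 : Nv v ≤ min y X := le_min h1 h2
      nlinarith

theorem two (h1 : ChooseS K) (h2 : CoreS K) : TwoS K := by
  intro m S0 ε hm hε
  obtain ⟨k, hk⟩ := exists_nat_ge (max 2 (1 / ε))
  have hk2 : (2 : ℝ) ≤ k := (le_max_left _ _).trans hk
  have hkε : 1 / ε ≤ k := (le_max_right _ _).trans hk
  have hk2' : 2 ≤ k := by exact_mod_cast hk2
  have hkpos : (0 : ℝ) < k := by linarith
  have hm2 : (2 : ℝ) ≤ m := by exact_mod_cast hm
  have hmpos : (0 : ℝ) < m := by linarith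
  obtain ⟨C, hC, hcore⟩ := h2 m k S0 (ε / 4) hm (by omega) (by positivity)
  have hS0 : 1 ≤ nn S0 := one_le_nn S0
  set θ : ℝ := 1 / (m : ℝ) + 1 / k with hθ
  have hθ0 : 0 ≤ θ := by positivity
  have hθ1 : θ ≤ 1 := by
    have a1 : 1 / (m : ℝ) ≤ 1 / 2 := one_div_le_one_div_of_le (by norm_num) hm2
    have a2 : 1 / (k : ℝ) ≤ 1 / 2 := one_div_le_one_div_of_le (by norm_num) hk2
    rw [hθ]; linarith
  refine ⟨C * (nn S0 ^ 2) ^ (1 + ε / 4), by positivity, ?_⟩
  intro X y H hX hy hH F hF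
  have hXpos : 0 < X := by linarith
  have hmin : 1 ≤ min y X := le_min hy hX
  have hmin0 : 0 < min y X := by linarith
  set R : ℝ := nn S0 ^ 2 * min y X * X ^ ((1 + θ) / 2) with hR
  have hXp : 1 ≤ X ^ ((1 + θ) / 2) := Real.one_le_rpow hX (by positivity)
  have hR1 : 1 ≤ R := by
    rw [hR]
    have a1 : 1 ≤ nn S0 ^ 2 := one_le_pow₀ hS0
    have a2 : 1 ≤ nn S0 ^ 2 * min y X := one_le_mul_of_one_le_of_one_le a1 hmin
    exact one_le_mul_of_one_le_of_one_le a2 hXp
  have hlogR : Real.log R = 2 * Real.log (nn S0) + Real.log (min y X) +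
      (1 + θ) / 2 * Real.log X := by
    rw [hR, Real.log_mul (by positivity) (by positivity), Real.log_mul (by positivity)
      (by positivity), Real.log_pow, Real.log_rpow hXpos]
    push_cast
    ring
  have hcard := hcore R H hR1 hH F (by
    intro x hx
    obtain ⟨hpt, hxH, C', hpow, hT⟩ := hF x hx
    refine ⟨hxH, ?_⟩
    obtain ⟨A, B, hAB, hBC, hAC, hle⟩ := Two_idx C' fun i => rr i x
    obtain ⟨hr1, hr2⟩ := Two_rad hAB hBC hAC hX hy hT
    obtain ⟨T, hTs, hT1, hT2⟩ := h1 A x θ (min y X * nn S0) hpt hθ0 hθ1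
      (one_le_mul_of_one_le_of_one_le hmin hS0) hr2
    refine ⟨A, B, C', hAB, hBC, hAC, T, ∅, ⟨hpt, hpow, hTs, Or.inl ⟨rfl, hT1⟩⟩, ?_⟩
    have hpos : 0 < nn (side B x) * nn T * nn (∅ : Finset (Pr K)) :=
      mul_pos (mul_pos (nn_pos _) (nn_pos _)) (nn_pos _)
    rw [← Real.log_le_log_iff hpos (by linarith), hlogR,
      Real.log_mul (mul_pos (nn_pos _) (nn_pos _)).ne' (nn_pos _).ne',
      Real.log_mul (nn_pos _).ne' (nn_pos _).ne', KR.log_nn, KR.log_nn, KR.log_nn,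
      Finset.sum_empty, add_zero]
    rw [Real.log_mul hmin0.ne' (nn_pos S0).ne'] at hT2
    have hrB : ∑ v ∈ side B x, Real.log (Nv v) = rr B x := rfl
    rw [hrB]
    have hl0 : 0 ≤ Real.log (nn S0) := Real.log_nonneg hS0
    have hle' : rr B x ≤ rr A x := hle
    nlinarith)
  refine hcard.trans ?_
  have hlogH : 0 ≤ Real.log H := Real.log_nonneg hH
  refine mul_le_mul_of_nonneg_right ?_ (by linarith)
  have hRp : R ^ (1 + ε / 4) ≤ (nn S0 ^ 2) ^ (1 + ε / 4) * (y * X ^ (((m : ℝ) + 1) / (2 * m) + ε)) := by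
    rw [hR, Real.mul_rpow (by positivity) (by positivity), Real.mul_rpow (by positivity)
      (by positivity), mul_assoc]
    refine mul_le_mul_of_nonneg_left ?_ (by positivity)
    have b1 : min y X ^ (1 + ε / 4) ≤ y * X ^ (ε / 4) := by
      rw [Real.rpow_add hmin0, Real.rpow_one]
      refine mul_le_mul (min_le_left _ _) ?_ (by positivity) (by linarith)
      exact Real.rpow_le_rpow hmin0.le (min_le_right _ _) (by positivity)
    have b2 : X ^ (ε / 4) * (X ^ ((1 + θ) / 2)) ^ (1 + ε / 4) ≤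
        X ^ (((m : ℝ) + 1) / (2 * m) + ε) := by
      rw [← Real.rpow_mul hXpos.le, ← Real.rpow_add hXpos]
      refine Real.rpow_le_rpow_of_exponent_le hX ?_
      have c1 : (1 + θ) / 2 = ((m : ℝ) + 1) / (2 * m) + 1 / (2 * k) := by
        rw [hθ]
        field_simp
        ring
      have c2 : 1 / (k : ℝ) ≤ ε := by
        rw [div_le_iff₀ hkpos]
        rw [div_le_iff₀ hε] at hkε
        linarith
      have c3 : 1 / (2 * (k : ℝ)) ≤ ε / 2 := by
        have : 1 / (2 * (k : ℝ)) = 1 / k / 2 := by field_simp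
        rw [this]; linarith
      have c4 : (1 + θ) / 2 * (ε / 4) ≤ ε / 4 := by nlinarith
      nlinarith
    calc min y X ^ (1 + ε / 4) * (X ^ ((1 + θ) / 2)) ^ (1 + ε / 4)
        ≤ (y * X ^ (ε / 4)) * (X ^ ((1 + θ) / 2)) ^ (1 + ε / 4) :=
          mul_le_mul_of_nonneg_right b1 (by positivity)
      _ = y * (X ^ (ε / 4) * (X ^ ((1 + θ) / 2)) ^ (1 + ε / 4)) := by ring
      _ ≤ y * X ^ (((m : ℝ) + 1) / (2 * m) + ε) := mul_le_mul_of_nonneg_left b2 (by linarith)
  calc C * R ^ (1 + ε / 4)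
      ≤ C * ((nn S0 ^ 2) ^ (1 + ε / 4) * (y * X ^ (((m : ℝ) + 1) / (2 * m) + ε))) :=
        mul_le_mul_of_nonneg_left hRp hC.le
    _ = C * (nn S0 ^ 2) ^ (1 + ε / 4) * y * X ^ (((m : ℝ) + 1) / (2 * m) + ε) := by ring

end Pool.Agent.TH876.NP
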