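import Mathlib
import Pool.Agent.TH876.NP.Def2
import Pool.Agent.TH402.AK.Count

set_option autoImplicit false

/-!
# The Gaussian integers: statement
-/

namespace Pool.Agent.TH876.NP

/-- the coprime pairs of Gaussian integers one of `a`, `b`, `a + b` being a unit times an `m`-th
power -/
structure GaussPow (m : ℕ) (X y H : ℝ) (p : GaussianInt × GaussianInt) : Prop where
  ha : p.1 ≠ 0
  hb : p.2 ≠ 0
  hc : p.1 + p.2 ≠ 0
  cop : IsCoprime p.1 p.2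
  pow : ∃ u z : GaussianInt, IsUnit u ∧ (p.1 = u * z ^ m ∨ p.2 = u * z ^ m ∨ p.1 + p.2 = u * z ^ m)
  rad : Pool.Agent.TH402.AK.rad (p.1 * p.2 * (p.1 + p.2)) ≤ X
  smooth : ∀ Q : GaussianInt, Prime Q → Q ∣ p.1 * p.2 * (p.1 + p.2) →
    ‖GaussianInt.toComplex Q‖ ≤ y
  height : Real.log (Pool.Agent.TH402.AK.size p.1 p.2) ≤ H

/-- the count of these pairs -/
def GaussS : Prop := ∀ (m : ℕ) (ε : ℝ), 2 ≤ m → 0 < ε → ∃ C : ℝ, 0 < C ∧
  ∀ X y H : ℝ, 1 ≤ X → 1 ≤ y → 1 ≤ H → ∀ F : Finset (GaussianInt × GaussianInt),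
  (∀ p ∈ F, GaussPow m X y H p) →
  (F.card : ℝ) ≤ C * y ^ 2 * X ^ (2 * ((m : ℝ) + 1) / (2 * m + 1) + ε) * (1 + Real.log H)

end Pool.Agent.TH876.NP
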