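import Mathlib
import Pool.Agent.TH876.NP.Def3

set_option autoImplicit false

/-!
# The Gaussian integers
-/

namespace Pool.Agent.TH876.NP

open NumberField IsDedekindDomain Finset Pool.Agent.H691R3 Pool.Agent.TH876.Loc
open Pool.Agent.TH402.AK

/-- the triple of a pair -/
private noncomputable def Gauss_t (p : GaussianInt × GaussianInt) : 𝓞 K4 × 𝓞 K4 × 𝓞 K4 :=
  (e p.1, e p.2, -(e p.1 + e p.2))

private theorem Gauss_t_inj : Function.Injective Gauss_t := by
  intro p q h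
  unfold Gauss_t at h
  rw [Prod.mk.injEq, Prod.mk.injEq] at h
  exact Prod.ext (e.injective h.1) (e.injective h.2.1)

private theorem Gauss_gtri {m : ℕ} {X y H : ℝ} {p : GaussianInt × GaussianInt}
    (h : GaussPow m X y H p) : GTri p := ⟨h.ha, h.hb, h.hc, h.cop⟩

private theorem Gauss_norm (φ : K4 →+* ℂ) (z : GaussianInt) :
    ‖φ ((e z : 𝓞 K4) : K4)‖ = ‖GaussianInt.toComplex z‖ := by
  rw [← place_e (InfinitePlace.mk φ) z, InfinitePlace.apply]

private theorem Gauss_triple {m : ℕ} {X y H : ℝ} {p : GaussianInt × GaussianInt}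
    (h : GaussPow m X y H p) : PowTriple m (X ^ 2) (y ^ 2) (2 * H) (Gauss_t p) := by
  classical
  have hn0 : p.1 * p.2 * (p.1 + p.2) ≠ 0 := mul_ne_zero (mul_ne_zero h.ha h.hb) h.hc
  have hprod : (Gauss_t p).1 * (Gauss_t p).2.1 * (Gauss_t p).2.2 =
      -(e (p.1 * p.2 * (p.1 + p.2))) := by
    show e p.1 * e p.2 * (-(e p.1 + e p.2)) = _
    rw [map_mul, map_mul, map_add]
    ring
  have hmem : ∀ P : HeightOneSpectrum (𝓞 K4),
      (Gauss_t p).1 * (Gauss_t p).2.1 * (Gauss_t p).2.2 ∈ P.asIdeal ↔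
        e (p.1 * p.2 * (p.1 + p.2)) ∈ P.asIdeal := by
    intro P
    rw [hprod]
    exact neg_mem_iff
  refine ⟨?_, ?_, ?_, ?_, ?_, ?_, ?_⟩
  · show e p.1 + e p.2 + (-(e p.1 + e p.2)) = 0
    ring
  · rw [hprod]
    exact neg_ne_zero.2 ((map_ne_zero_iff e e.injective).2 hn0)
  · rw [Ideal.eq_top_iff_one]
    obtain ⟨x, w, hxw⟩ := h.cop.map e.toRingHom
    rw [← hxw]
    refine Ideal.add_mem _ (Ideal.mul_mem_left _ _ (Ideal.subset_span ?_))
      (Ideal.mul_mem_left _ _ (Ideal.subset_span ?_))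
    · exact Set.mem_insert _ _
    · exact Set.mem_insert_of_mem _ (Set.mem_insert _ _)
  · obtain ⟨u, z, hu, h1⟩ := h.pow
    have hu' : IsUnit (e u) := hu.map e
    rcases h1 with h1 | h1 | h1
    · refine ⟨hu'.unit, e z, Or.inl ?_⟩
      show e p.1 = e u * e z ^ m
      rw [h1, map_mul, map_pow]
    · refine ⟨hu'.unit, e z, Or.inr (Or.inl ?_)⟩
      show e p.2 = e u * e z ^ m
      rw [h1, map_mul, map_pow]
    · refine ⟨-hu'.unit, e z, Or.inr (Or.inr ?_)⟩
      show -(e p.1 + e p.2) = -(e u) * e z ^ m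
      rw [← map_add, h1, map_mul, map_pow]
      ring
  · have h0 : ((e (p.1 * p.2 * (p.1 + p.2)) : 𝓞 K4) : K4) ≠ 0 :=
      coe_ne ((map_ne_zero_iff e e.injective).2 hn0)
    have h1 := fv_support_finite h0
    have hT : ∀ v : Pr K4, v ∈ h1.toFinset ↔ e (p.1 * p.2 * (p.1 + p.2)) ∈ v.asIdeal := by
      intro v
      rw [Set.Finite.mem_toFinset, Set.mem_ofPred_eq, ← not_iff_not, not_not]
      exact fv_eq_one_iff v _
    have h2 := rad_sq h1.toFinset hT
    have h3 : ∏ᶠ (P : HeightOneSpectrum (𝓞 K4))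
        (_ : (Gauss_t p).1 * (Gauss_t p).2.1 * (Gauss_t p).2.2 ∈ P.asIdeal),
        (Ideal.absNorm P.asIdeal : ℝ) = nn h1.toFinset := by
      unfold nn
      rw [← finprod_mem_coe_finset]
      refine finprod_congr fun P => ?_
      refine finprod_congr_Prop ?_ fun _ => rfl
      rw [hmem P, Finset.mem_coe, hT]
    rw [h3, ← h2]
    exact pow_le_pow_left₀ (rad_pos _) h.rad 2
  · intro P hP
    rw [hmem P, gn_span P, Ideal.mem_span_singleton] at hP
    have h1 : gn P ∣ p.1 * p.2 * (p.1 + p.2) := (map_dvd_iff e).1 hP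
    have h2 := h.smooth (gn P) (gn_prime P) h1
    have h3 : (Ideal.absNorm P.asIdeal : ℝ) = ‖GaussianInt.toComplex (gn P)‖ ^ 2 :=
      (gn_norm P).symm
    rw [h3]
    exact pow_le_pow_left₀ (norm_nonneg _) h2 2
  · have h1 : ∀ φ : K4 →+* ℂ, max ‖φ ((Gauss_t p).1 : K4)‖ (max ‖φ ((Gauss_t p).2.1 : K4)‖
        ‖φ ((Gauss_t p).2.2 : K4)‖) = size p.1 p.2 := by
      intro φ
      have h2 : (((Gauss_t p).2.2 : 𝓞 K4) : K4) = -((e (p.1 + p.2) : 𝓞 K4) : K4) := by
        show ((-(e p.1 + e p.2) : 𝓞 K4) : K4) = _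
        rw [map_add]
        push_cast
        rfl
      rw [h2, map_neg, norm_neg, Gauss_norm]
      show max ‖φ ((e p.1 : 𝓞 K4) : K4)‖ (max ‖φ ((e p.2 : 𝓞 K4) : K4)‖ _) = _
      rw [Gauss_norm, Gauss_norm]
      rfl
    rw [Finset.prod_congr rfl fun φ _ => h1 φ, Finset.prod_const, Finset.card_univ,
      Embeddings.card, finrank4, Real.log_pow]
    have := h.height
    push_cast
    linarith

theorem gauss (h : TripS Pool.Agent.TH402.AK.K4) : GaussS := by
  classical
  intro m ε hm hε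
  obtain ⟨C, hC, hmain⟩ := h m (ε / 2) hm (by linarith)
  refine ⟨8 * C, by linarith, ?_⟩
  intro X y H hX hy hH F hF
  have hcard := card_le_four F fun p hp => Gauss_gtri (hF p hp)
  have hg : ∀ x ∈ F.image phi, ∃ p ∈ F, phi p = x := fun x hx => Finset.mem_image.1 hx
  choose! g hgF hgphi using hg
  have hinj : Set.InjOn (fun x => Gauss_t (g x)) (F.image phi : Set K4) := by
    intro x hx x' hx' hxx
    have h1 : g x = g x' := Gauss_t_inj hxx
    rw [← hgphi x hx, ← hgphi x' hx', h1]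
  have hcardE : ((F.image phi).image (fun x => Gauss_t (g x))).card = (F.image phi).card :=
    Finset.card_image_of_injOn hinj
  have h2 := hmain (X ^ 2) (y ^ 2) (2 * H) (one_le_pow₀ hX) (one_le_pow₀ hy) (by linarith)
    ((F.image phi).image (fun x => Gauss_t (g x))) (by
      intro t ht
      obtain ⟨x, hx, rfl⟩ := Finset.mem_image.1 ht
      exact Gauss_triple (hF _ (hgF x hx))) (by
      intro t ht s hs u hu
      obtain ⟨x, hx, rfl⟩ := Finset.mem_image.1 ht
      obtain ⟨x', hx', rfl⟩ := Finset.mem_image.1 hs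
      have h3 : phi (g x') = phi (g x) := by
        unfold phi pt
        have h4 : e (g x').1 = u * e (g x).1 := congrArg Prod.fst hu
        have h5 : e (g x').2 = u * e (g x).2 := congrArg (fun z => z.2.1) hu
        rw [h4, h5]
        push_cast
        exact mul_div_mul_left _ _ (by
          intro h6
          have h7 : ((u : (𝓞 K4)) : 𝓞 K4) = 0 := RingOfIntegers.coe_eq_zero_iff.1 h6
          exact u.ne_zero h7)
      rw [hgphi x hx, hgphi x' hx'] at h3
      rw [h3])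
  rw [hcardE] at h2
  have h3 : (X ^ 2 : ℝ) ^ (((m : ℝ) + 1) / (2 * m + 1) + ε / 2) =
      X ^ (2 * ((m : ℝ) + 1) / (2 * m + 1) + ε) := by
    rw [← Real.rpow_natCast, ← Real.rpow_mul (by linarith)]
    congr 1
    push_cast
    ring
  rw [h3] at h2
  have h4 : (F.card : ℝ) ≤ 4 * ((F.image phi).card : ℝ) := by exact_mod_cast hcard
  have h5 : 1 + Real.log (2 * H) ≤ 2 * (1 + Real.log H) := by
    rw [Real.log_mul (by norm_num) (by linarith)]
    have h6 := Real.log_two_lt_d9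
    have h7 := Real.log_nonneg hH
    linarith
  have h6 : 0 ≤ C * y ^ 2 * X ^ (2 * ((m : ℝ) + 1) / (2 * m + 1) + ε) := by positivity
  calc (F.card : ℝ) ≤ 4 * ((F.image phi).card : ℝ) := h4
    _ ≤ 4 * (C * y ^ 2 * X ^ (2 * ((m : ℝ) + 1) / (2 * m + 1) + ε) *
        (1 + Real.log (2 * H))) := by linarith
    _ ≤ 4 * (C * y ^ 2 * X ^ (2 * ((m : ℝ) + 1) / (2 * m + 1) + ε) *
        (2 * (1 + Real.log H))) := by
          have := mul_le_mul_of_nonneg_left h5 h6
          linarith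
    _ = 8 * C * y ^ 2 * X ^ (2 * ((m : ℝ) + 1) / (2 * m + 1) + ε) * (1 + Real.log H) := by ring

end Pool.Agent.TH876.NP
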