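import Mathlib
import Pool.Agent.TH876.NP.Def2
import Pool.Agent.TH876.KR.Fin
import Pool.Agent.TH876.KR.Gens

set_option autoImplicit false
set_option linter.unusedSectionVars false

/-!
# The count of the points one conductor of which belongs to a perfect power
-/

namespace Pool.Agent.TH876.NP

open NumberField IsDedekindDomain Finset Pool.Agent.H691R3 Pool.Agent.TH876.Loc
open Pool.Agent.TH876.KR (side rr aw)

section
variable {K : Type} [Field K] [NumberField K]

private theorem Weak_val_eq (v : Pr K) (x : K) :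
    fv v x = ((WithZeroMulInt.toNNReal (NumberField.HeightOneSpectrum.absNorm_ne_zero v)
      (v.valuation K x) : NNReal) : ℝ) :=
  NumberField.FinitePlace.norm_embedding' (v := v) (x := x)

private theorem Weak_lt_one (v : Pr K) (x : K) : v.valuation K x < 1 ↔ fv v x < 1 := by
  rw [Weak_val_eq, NNReal.coe_lt_one]
  exact (WithZeroMulInt.toNNReal_lt_one_iff
    (NumberField.HeightOneSpectrum.one_lt_absNorm_nnreal v)).symm

private theorem Weak_Pt {x : K} (h0 : x ≠ 0) (h1 : x ≠ 1) : Pt (-x) := by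
  refine ⟨neg_ne_zero.2 h0, fun h => h1 ?_⟩
  linear_combination -h

/-- the three numbers -/
private def Weak_cf (i : Fin 3) (x : K) : K := ![x, x⁻¹, x - 1] i

private theorem Weak_cf_ne {x : K} (h0 : x ≠ 0) (h1 : x ≠ 1) (i : Fin 3) : Weak_cf i x ≠ 0 := by
  fin_cases i
  · exact h0
  · exact inv_ne_zero h0
  · exact sub_ne_zero.2 h1

private theorem Weak_side {x : K} (h0 : x ≠ 0) (h1 : x ≠ 1) {v : Pr K} {i : Fin 3}
    (h : v ∈ side i (-x)) : fv v (Weak_cf i x) < 1 ∧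
      df (Sum.inr v : Pl K) i (-x) = -Real.log (fv v (Weak_cf i x)) := by
  have hPt := Weak_Pt h0 h1
  have h2 := (KR.mem_side hPt).1 h
  rw [KR.df_inr] at h2 ⊢
  have hM : 0 < M (Sum.inr v : Pl K) (-x) := lt_of_lt_of_le one_pos (one_le_M _ _)
  have h3 : fv v (L i (-x)) < M (Sum.inr v : Pl K) (-x) := by
    rw [← Real.log_lt_log_iff (KR.fv_pos v (L_ne hPt i)) hM]
    linarith
  have hL1 : fv v (L 1 (-x)) = 1 := map_one _
  have hL0 : fv v (L 0 (-x)) = fv v x := (fv v).map_neg x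
  have hL2 : fv v (L 2 (-x)) = fv v (x - 1) := by
    show fv v (- -x - 1) = _
    rw [neg_neg]
  fin_cases i
  · have h4 := KR.two_max v (-x) (i := 0) (j := 1) (by decide) h3
    rw [← h4, hL1] at h3
    constructor
    · show fv v x < 1
      rw [← hL0]
      exact h3
    · show Real.log (M (Sum.inr v : Pl K) (-x)) - Real.log (fv v (L 0 (-x))) = -Real.log (fv v x)
      rw [← h4, hL1, hL0, Real.log_one, zero_sub]
  · have h4 := KR.two_max v (-x) (i := 1) (j := 0) (by decide) h3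
    rw [← h4, hL0] at h3
    have h5 : (1 : ℝ) < fv v x := by
      rw [← hL1]
      exact h3
    constructor
    · show fv v x⁻¹ < 1
      rw [map_inv₀]
      exact inv_lt_one_of_one_lt₀ h5
    · show Real.log (M (Sum.inr v : Pl K) (-x)) - Real.log (fv v (L 1 (-x))) =
        -Real.log (fv v x⁻¹)
      rw [← h4, hL1, hL0, Real.log_one, sub_zero, map_inv₀, Real.log_inv, neg_neg]
  · have h4 := KR.two_max v (-x) (i := 2) (j := 1) (by decide) h3
    rw [← h4, hL1] at h3
    constructor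
    · show fv v (x - 1) < 1
      rw [← hL2]
      exact h3
    · show Real.log (M (Sum.inr v : Pl K) (-x)) - Real.log (fv v (L 2 (-x))) =
        -Real.log (fv v (x - 1))
      rw [← h4, hL1, hL2, Real.log_one, zero_sub]

/-- the conductor is a finite sum -/
private theorem Weak_cond (S : Set (Pr K)) {y : K} (hy : y ≠ 0) :
    ∃ J : Finset (Pr K), (∀ v, v ∈ J ↔ v ∉ S ∧ fv v y < 1) ∧
      cond S y = ∑ v ∈ J, Real.log (Nv v) := by
  classical
  have hI : {v : Pr K | v ∉ S ∧ v.valuation K y < 1}.Finite := by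
    refine (fv_support_finite hy).subset ?_
    rintro v ⟨_, hv⟩
    exact ((Weak_lt_one v y).1 hv).ne
  refine ⟨hI.toFinset, ?_, ?_⟩
  · intro v
    rw [Set.Finite.mem_toFinset, Set.mem_ofPred_eq, Weak_lt_one]
  · unfold cond
    rw [← finsum_mem_coe_finset, Set.Finite.coe_toFinset]
    rfl

/-- the radical outside `S` -/
private theorem Weak_rad (S : Set (Pr K)) (hS : S.Finite) {x : K} (h0 : x ≠ 0) (h1 : x ≠ 1)
    {X : ℝ} (hX : 0 < X)
    (h : cond S x + cond S x⁻¹ + cond S (x - 1) ≤ Real.log X) (T : Finset (Pr K))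
    (hT : ∀ v ∈ T, v ∉ hS.toFinset ∧ v ∈ sp (-x)) : nn T ≤ X := by
  classical
  obtain ⟨J0, hJ0, e0⟩ := Weak_cond S (Weak_cf_ne h0 h1 0)
  obtain ⟨J1, hJ1, e1⟩ := Weak_cond S (Weak_cf_ne h0 h1 1)
  obtain ⟨J2, hJ2, e2⟩ := Weak_cond S (Weak_cf_ne h0 h1 2)
  have e0' : cond S x = ∑ v ∈ J0, Real.log (Nv v) := e0
  have e1' : cond S x⁻¹ = ∑ v ∈ J1, Real.log (Nv v) := e1
  have e2' : cond S (x - 1) = ∑ v ∈ J2, Real.log (Nv v) := e2
  have hsub : T ⊆ (J0 ∪ J1) ∪ J2 := by
    intro v hv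
    obtain ⟨hv2, hv1⟩ := hT v hv
    have hvS : v ∉ S := fun h => hv2 ((Set.Finite.mem_toFinset hS).2 h)
    obtain ⟨i, hi⟩ := (KR.mem_sp_iff (Weak_Pt h0 h1) v).1 hv1
    have h2 := (Weak_side h0 h1 hi).1
    rw [Finset.mem_union, Finset.mem_union]
    fin_cases i
    · exact Or.inl (Or.inl ((hJ0 v).2 ⟨hvS, h2⟩))
    · exact Or.inl (Or.inr ((hJ1 v).2 ⟨hvS, h2⟩))
    · exact Or.inr ((hJ2 v).2 ⟨hvS, h2⟩)
  have hn : ∀ s : Finset (Pr K), 0 ≤ ∑ v ∈ s, Real.log (Nv v) := fun s =>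
    Finset.sum_nonneg fun v _ => (KR.log_Nv_pos' v).le
  have hu : ∀ s t : Finset (Pr K), ∑ v ∈ s ∪ t, Real.log (Nv v) ≤
      ∑ v ∈ s, Real.log (Nv v) + ∑ v ∈ t, Real.log (Nv v) := by
    intro s t
    have h3 : ∑ v ∈ s ∪ t, Real.log (Nv v) + ∑ v ∈ s ∩ t, Real.log (Nv v) =
      ∑ v ∈ s, Real.log (Nv v) + ∑ v ∈ t, Real.log (Nv v) := Finset.sum_union_inter
    have h4 := hn (s ∩ t)
    linarith
  have h3 : Real.log (nn T) ≤ Real.log X := by
    have h4 : ∑ v ∈ T, Real.log (Nv v) ≤ ∑ v ∈ (J0 ∪ J1) ∪ J2, Real.log (Nv v) :=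
      Finset.sum_le_sum_of_subset_of_nonneg hsub fun v _ _ => (KR.log_Nv_pos' v).le
    have h5 := hu (J0 ∪ J1) J2
    have h6 := hu J0 J1
    rw [KR.log_nn]
    rw [e0', e1', e2'] at h
    linarith
  exact (Real.log_le_log_iff (nn_pos _) hX).1 h3

/-- the primes of the point -/
private theorem Weak_prime {x : K} (h0 : x ≠ 0) (h1 : x ≠ 1) {v : Pr K} (hv : v ∈ sp (-x)) :
    v.valuation K x ≠ 1 ∨ v.valuation K (x - 1) ≠ 1 := by
  obtain ⟨i, hi⟩ := (KR.mem_sp_iff (Weak_Pt h0 h1) v).1 hv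
  have h2 := (Weak_lt_one v _).2 (Weak_side h0 h1 hi).1
  fin_cases i
  · exact Or.inl (ne_of_lt h2)
  · left
    have h3 : v.valuation K x⁻¹ < 1 := h2
    intro h4
    rw [map_inv₀, h4, inv_one] at h3
    exact lt_irrefl _ h3
  · exact Or.inr (ne_of_lt h2)

/-- the power on one side -/
private theorem Weak_pow (S : Set (Pr K)) (hS : S.Finite) {x : K} (h0 : x ≠ 0) (h1 : x ≠ 1)
    {m : ℕ} {i : Fin 3} (h : IsPow S m (Weak_cf i x)) : PowSide m hS.toFinset i (-x) := by
  intro v hv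
  have hvS : v ∉ S := fun h => hv ((Set.Finite.mem_toFinset hS).2 h)
  by_cases hs : v ∈ side i (-x)
  · obtain ⟨h2, h3⟩ := Weak_side h0 h1 hs
    obtain ⟨a, ha⟩ := h v hvS ((Weak_lt_one v _).2 h2)
    refine ⟨a, ?_⟩
    rw [h3, KR.gens_fv_exp v _ ha, Real.log_pow, Real.log_inv]
    ring
  · refine ⟨0, ?_⟩
    rw [KR.df_eq_zero (Weak_Pt h0 h1) hs]
    simp

/-- the matrix of the three forms -/
private def Weak_mat : Fin 3 × Fin 2 → K :=
  fun p => ![![-1, 0], ![0, 1], ![1, -1]] p.1 p.2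

private theorem Weak_hgt {x : K} (h0 : x ≠ 0) (h1 : x ≠ 1) :
    hgt (-x) ≤ (Height.totalWeight K * Real.log 2 + Height.logHeight (Weak_mat : Fin 3 × Fin 2 → K)) +
      Height.logHeight₁ x := by
  refine (KR.hgt_le_logHeight (Weak_Pt h0 h1)).trans ?_
  have h2 : (fun i : Fin 3 => L i (-x)) =
      (fun i : Fin 3 => ∑ j, Weak_mat (i, j) * ![x, 1] j) := by
    funext i
    rw [Fin.sum_univ_two]
    unfold Weak_mat L
    fin_cases i
    · simp
    · simp
    · simp
      ring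
  rw [h2, Height.logHeight₁_eq_logHeight]
  refine (Height.logHeight_linearMap_apply_le (Weak_mat : Fin 3 × Fin 2 → K) ![x, 1]).trans ?_
  rw [Nat.card_eq_fintype_card, Fintype.card_fin]
  push_cast
  exact le_rfl

end

theorem weak (K : Type) [Field K] [NumberField K] (h : ThreeS K) : WeakS K := by
  classical
  intro S hS m ε hm hε
  obtain ⟨C, hC0, hC⟩ := h m hS.toFinset ε hm hε
  set c1 : ℝ := Height.totalWeight K * Real.log 2 +
    Height.logHeight (Weak_mat : Fin 3 × Fin 2 → K) with hc1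
  have hc10 : 0 ≤ c1 := add_nonneg (mul_nonneg (Nat.cast_nonneg _) (Real.log_nonneg (by norm_num)))
      (Height.logHeight_nonneg _)
  have hlc : 0 ≤ Real.log (1 + c1) := Real.log_nonneg (by linarith)
  refine ⟨C * (1 + Real.log (1 + c1)), ?_⟩
  intro X y H hX hy hH
  have hX0 : 0 < X := by linarith
  have hH0 : 0 < H := by linarith
  have hH'1 : 1 ≤ (1 + c1) * H := by nlinarith
  have hlH : 0 ≤ Real.log H := Real.log_nonneg hH
  set e : ℝ := ((m : ℝ) + 1) / (2 * m + 1) + ε with he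
  have hbound : ∀ G : Finset K, (G : Set K) ⊆ WeakPts S m X y H →
      (G.card : ℝ) ≤ C * (1 + Real.log (1 + c1)) * y * X ^ e * (1 + Real.log H) := by
    intro G hG
    have h1 : (G.card : ℝ) ≤ C * y * X ^ e * (1 + Real.log ((1 + c1) * H)) := by
      rw [← Finset.card_image_of_injective G (neg_injective : Function.Injective fun x : K => -x)]
      refine hC X y ((1 + c1) * H) hX hy hH'1 _ ?_
      intro t ht
      obtain ⟨x, hx, rfl⟩ := Finset.mem_image.1 ht
      obtain ⟨h0, h1, h2, h3, h4, h5⟩ := hG hx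
      have hT : ∀ T : Finset (Pr K), (∀ v ∈ T, v ∉ hS.toFinset ∧ v ∈ sp (-x)) →
          nn T ≤ X ∧ ∀ v ∈ T, Nv v ≤ y := by
        intro T hT
        refine ⟨Weak_rad S hS h0 h1 hX0 ((Real.le_log_iff_exp_le hX0).2 h3) T hT, ?_⟩
        intro v hv
        obtain ⟨hv1, hv2⟩ := hT v hv
        exact h4 v (fun h => hv1 ((Set.Finite.mem_toFinset hS).2 h)) (Weak_prime h0 h1 hv2)
      have hex : ∃ i : Fin 3, IsPow S m (Weak_cf i x) := by
        rcases h2 with h2 | h2 | h2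
        · exact ⟨0, h2⟩
        · exact ⟨1, h2⟩
        · exact ⟨2, h2⟩
      obtain ⟨i, hi⟩ := hex
      refine ⟨Weak_Pt h0 h1, ?_, i, Weak_pow S hS h0 h1 hi, ?_⟩
      · have h6 := Weak_hgt h0 h1
        nlinarith
      · intro T hT'
        exact ⟨(hT T hT').1, fun v hv _ => (hT T hT').2 v hv⟩
    have h2 : 1 + Real.log ((1 + c1) * H) ≤ (1 + Real.log (1 + c1)) * (1 + Real.log H) := by
      rw [Real.log_mul (by linarith) (by linarith)]
      nlinarith [mul_nonneg hlc hlH]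
    have h3 : 0 ≤ C * y * X ^ e := by positivity
    calc (G.card : ℝ) ≤ C * y * X ^ e * (1 + Real.log ((1 + c1) * H)) := h1
      _ ≤ C * y * X ^ e * ((1 + Real.log (1 + c1)) * (1 + Real.log H)) :=
          mul_le_mul_of_nonneg_left h2 h3
      _ = _ := by ring
  have hfin : (WeakPts S m X y H).Finite := by
    by_contra hinf
    obtain ⟨G, hGV, hGc⟩ := Set.Infinite.exists_subset_card_eq hinf
      (⌊C * (1 + Real.log (1 + c1)) * y * X ^ e * (1 + Real.log H)⌋₊ + 1)
    have h1 := hbound G hGV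
    have h2 := Nat.lt_floor_add_one (C * (1 + Real.log (1 + c1)) * y * X ^ e * (1 + Real.log H))
    rw [hGc] at h1
    push_cast at h1
    linarith
  refine ⟨hfin, ?_⟩
  rw [Set.ncard_eq_toFinset_card _ hfin]
  exact hbound hfin.toFinset (by rw [Set.Finite.coe_toFinset])

end Pool.Agent.TH876.NP
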